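import Mathlib

namespace Pool.Agent.Helper11.Koebe

theorem area_le {ι : Type*} (S : Finset ι) (c : ι → ℂ) (r : ι → ℝ) (hr : ∀ i ∈ S, 0 < r i)
    (hd : ∀ i ∈ S, ∀ j ∈ S, i ≠ j → r i + r j ≤ dist (c i) (c j)) (p : ℂ) (R : ℝ) (hR : 0 ≤ R)
    (hin : ∀ i ∈ S, dist (c i) p + r i ≤ R) : ∑ i ∈ S, (r i) ^ 2 ≤ R ^ 2 := by
  classical
  have h1 : ∑ i ∈ S, MeasureTheory.volume (Metric.ball (c i) (r i)) ≤
      MeasureTheory.volume (Metric.closedBall p R) := by
    rw [← MeasureTheory.measure_biUnion_finset]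
    · refine MeasureTheory.measure_mono ?_
      refine Set.iUnion₂_subset fun i hi => ?_
      intro x hx
      rw [Metric.mem_ball] at hx
      rw [Metric.mem_closedBall]
      have := hin i hi
      have := dist_triangle x (c i) p
      linarith
    · intro i hi j hj hij
      exact Metric.ball_disjoint_ball (hd i hi j hj hij)
    · intro i _
      exact Metric.isOpen_ball.measurableSet
  simp only [Complex.volume_ball, Complex.volume_closedBall] at h1
  rw [← Finset.sum_mul] at h1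
  have hpi : (NNReal.pi : ENNReal) ≠ 0 := by
    simp [NNReal.pi_ne_zero]
  have h2 : ∑ i ∈ S, ENNReal.ofReal (r i) ^ 2 ≤ ENNReal.ofReal R ^ 2 :=
    (ENNReal.mul_le_mul_iff_left hpi ENNReal.coe_ne_top).1 h1
  have h3 : ∀ i ∈ S, ENNReal.ofReal (r i) ^ 2 = ENNReal.ofReal ((r i) ^ 2) := fun i hi => by
    rw [ENNReal.ofReal_pow (hr i hi).le]
  rw [Finset.sum_congr rfl h3, ← ENNReal.ofReal_pow hR, ← ENNReal.ofReal_sum_of_nonneg
    (fun i _ => sq_nonneg _)] at h2
  exact (ENNReal.ofReal_le_ofReal_iff (by positivity)).1 h2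

theorem log_len_sq (κ : ℝ) (hκ : 0 < κ) : ∃ C : ℝ, 0 < C ∧ ∀ (ι : Type) (S : Finset ι) (c : ι → ℂ)
    (r : ι → ℝ) (s R : ℝ), 0 < s → s ≤ R → (∀ i ∈ S, 0 < r i) →
    (∀ i ∈ S, ∀ j ∈ S, i ≠ j → r i + r j ≤ dist (c i) (c j)) →
    (∀ i ∈ S, (1 + κ) * r i ≤ ‖c i‖) → (∀ i ∈ S, s ≤ ‖c i‖ + r i) → (∀ i ∈ S, ‖c i‖ - r i ≤ R) →
    ∑ i ∈ S, (Real.log (‖c i‖ + r i) - Real.log (‖c i‖ - r i)) ^ 2
      ≤ C * (Real.log (R / s) + 1) := by
  classical
  set Λ : ℝ := (1 + κ) / κ with hΛ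
  have hΛ1 : 1 < Λ := by rw [hΛ, lt_div_iff₀ hκ]; linarith
  set a : ℝ := Real.logb 2 (2 * Λ) + 1 with ha
  have hlog2 : 0 < Real.log 2 := Real.log_pos (by norm_num)
  have ha0 : 0 ≤ a := by
    have := Real.logb_nonneg (b := 2) (x := 2 * Λ) (by norm_num) (by linarith)
    linarith
  refine ⟨64 * Λ ^ 2 * (a + 1 / Real.log 2), by positivity, ?_⟩
  intro ι S c r s R hs hsR hr hd hκc hM hm
  have hR : 0 < R := hs.trans_le hsR
  have hL0 : 0 ≤ Real.log (R / s) := Real.log_nonneg (by rw [le_div_iff₀ hs]; linarith)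
  -- basic facts
  have hrc : ∀ i ∈ S, r i ≤ ‖c i‖ := fun i hi => by
    have := hκc i hi; have := hr i hi; nlinarith
  have hc0 : ∀ i ∈ S, 0 < ‖c i‖ := fun i hi => (hr i hi).trans_le (hrc i hi)
  have hmc : ∀ i ∈ S, ‖c i‖ ≤ Λ * (‖c i‖ - r i) := fun i hi => by
    have h1 := hκc i hi
    rw [hΛ, div_mul_eq_mul_div, le_div_iff₀ hκ]
    nlinarith
  have hmpos : ∀ i ∈ S, 0 < ‖c i‖ - r i := fun i hi => by
    have h1 := hκc i hi
    have h2 := hr i hi
    nlinarith
  have hterm : ∀ i ∈ S, (Real.log (‖c i‖ + r i) - Real.log (‖c i‖ - r i)) ^ 2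
      ≤ 4 * Λ ^ 2 * ((r i) ^ 2 / ‖c i‖ ^ 2) := by
    intro i hi
    have h1 := hmpos i hi
    have h2 := hr i hi
    have h3 := hc0 i hi
    have h4 : 0 < ‖c i‖ + r i := by linarith
    rw [← Real.log_div h4.ne' h1.ne']
    have h5 : Real.log ((‖c i‖ + r i) / (‖c i‖ - r i)) ≤ 2 * Λ * (r i / ‖c i‖) := by
      refine (Real.log_le_sub_one_of_pos (div_pos h4 h1)).trans ?_
      have h6 : (‖c i‖ + r i) / (‖c i‖ - r i) - 1 = 2 * r i / (‖c i‖ - r i) := by
        field_simp; ring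
      rw [h6, mul_div_assoc', div_le_div_iff₀ h1 h3]
      have := mul_le_mul_of_nonneg_left (hmc i hi) (by linarith : 0 ≤ 2 * r i)
      linarith
    have h7 : 0 ≤ Real.log ((‖c i‖ + r i) / (‖c i‖ - r i)) :=
      Real.log_nonneg (by rw [le_div_iff₀ h1]; linarith)
    calc _ ≤ (2 * Λ * (r i / ‖c i‖)) ^ 2 := pow_le_pow_left₀ h7 h5 2
      _ = _ := by rw [mul_pow, mul_pow, div_pow]; ring
  -- dyadic classes
  set k : ι → ℕ := fun i => ⌊Real.logb 2 (‖c i‖ / (s / 2))⌋₊ with hk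
  have hx1 : ∀ i ∈ S, 1 ≤ ‖c i‖ / (s / 2) := fun i hi => by
    rw [le_div_iff₀ (by linarith)]
    have := hM i hi
    have := hrc i hi
    linarith
  have hk1 : ∀ i ∈ S, (2 : ℝ) ^ (k i) * (s / 2) ≤ ‖c i‖ := fun i hi => by
    have h0 := hx1 i hi
    have h1 : ((k i : ℕ) : ℝ) ≤ Real.logb 2 (‖c i‖ / (s / 2)) :=
      Nat.floor_le (Real.logb_nonneg (by norm_num) h0)
    rw [Real.le_logb_iff_rpow_le (by norm_num) (by linarith), Real.rpow_natCast,
      le_div_iff₀ (by linarith)] at h1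
    exact h1
  have hk2 : ∀ i ∈ S, ‖c i‖ ≤ (2 : ℝ) ^ (k i + 1) * (s / 2) := fun i hi => by
    have h0 := hx1 i hi
    have h1 : Real.logb 2 (‖c i‖ / (s / 2)) < ((k i + 1 : ℕ) : ℝ) := by
      push_cast
      exact Nat.lt_floor_add_one _
    rw [Real.logb_lt_iff_lt_rpow (by norm_num) (by linarith), Real.rpow_natCast,
      div_lt_iff₀ (by linarith)] at h1
    exact h1.le
  set N : ℕ := ⌊Real.logb 2 (2 * Λ * (R / s))⌋₊ with hN
  have hRs : 1 ≤ R / s := by rw [le_div_iff₀ hs]; linarith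
  have hkN : ∀ i ∈ S, k i ∈ Finset.range (N + 1) := fun i hi => by
    rw [Finset.mem_range, Nat.lt_succ_iff]
    refine Nat.floor_le_floor ?_
    refine Real.logb_le_logb_of_le (by norm_num) (by linarith [hx1 i hi]) ?_
    rw [div_le_iff₀ (by linarith)]
    have h1 := hmc i hi
    have h2 := mul_le_mul_of_nonneg_left (hm i hi) (by linarith : 0 ≤ Λ)
    have h3 : 2 * Λ * (R / s) * (s / 2) = Λ * R := by field_simp
    rw [h3]; linarith
  have hclass : ∀ j ∈ Finset.range (N + 1), ∑ i ∈ S with k i = j, (r i) ^ 2 / ‖c i‖ ^ 2 ≤ 16 := by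
    intro j _
    have hj0 : (0 : ℝ) < 2 ^ j * (s / 2) := by positivity
    have h1 : ∑ i ∈ S with k i = j, (r i) ^ 2 ≤ (2 * ((2 : ℝ) ^ (j + 1) * (s / 2))) ^ 2 := by
      refine area_le _ c r (fun i hi => hr i (Finset.mem_filter.1 hi).1)
        (fun i hi i' hi' => hd i (Finset.mem_filter.1 hi).1 i' (Finset.mem_filter.1 hi').1) 0 _
        (by positivity) ?_
      intro i hi
      obtain ⟨hi1, hi2⟩ := Finset.mem_filter.1 hi
      have h2 := hk2 i hi1
      rw [hi2] at h2
      have h3 := hrc i hi1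
      rw [dist_zero_right]
      linarith
    calc ∑ i ∈ S with k i = j, (r i) ^ 2 / ‖c i‖ ^ 2
        ≤ ∑ i ∈ S with k i = j, (r i) ^ 2 / (2 ^ j * (s / 2)) ^ 2 := by
          refine Finset.sum_le_sum fun i hi => ?_
          obtain ⟨hi1, hi2⟩ := Finset.mem_filter.1 hi
          have h2 := hk1 i hi1
          rw [hi2] at h2
          exact div_le_div_of_nonneg_left (sq_nonneg _) (by positivity) (pow_le_pow_left₀ hj0.le h2 2)
      _ = (∑ i ∈ S with k i = j, (r i) ^ 2) / (2 ^ j * (s / 2)) ^ 2 := by rw [Finset.sum_div]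
      _ ≤ (2 * ((2 : ℝ) ^ (j + 1) * (s / 2))) ^ 2 / (2 ^ j * (s / 2)) ^ 2 :=
          div_le_div_of_nonneg_right h1 (by positivity)
      _ = 16 := by
          rw [div_eq_iff (by positivity)]; ring
  have hsum : ∑ i ∈ S, (r i) ^ 2 / ‖c i‖ ^ 2 ≤ 16 * ((N : ℝ) + 1) := by
    rw [← Finset.sum_fiberwise_of_maps_to hkN]
    refine (Finset.sum_le_sum hclass).trans ?_
    rw [Finset.sum_const, Finset.card_range, nsmul_eq_mul]
    push_cast
    linarith
  have hNle : (N : ℝ) + 1 ≤ a + Real.log (R / s) / Real.log 2 := by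
    have h1 : (N : ℝ) ≤ Real.logb 2 (2 * Λ * (R / s)) := by
      refine Nat.floor_le (Real.logb_nonneg (by norm_num) ?_)
      nlinarith
    rw [Real.logb_mul (by positivity) (by positivity)] at h1
    have h2 : Real.logb 2 (R / s) = Real.log (R / s) / Real.log 2 := rfl
    rw [h2] at h1
    linarith
  calc ∑ i ∈ S, (Real.log (‖c i‖ + r i) - Real.log (‖c i‖ - r i)) ^ 2
      ≤ ∑ i ∈ S, 4 * Λ ^ 2 * ((r i) ^ 2 / ‖c i‖ ^ 2) := Finset.sum_le_sum hterm
    _ = 4 * Λ ^ 2 * ∑ i ∈ S, (r i) ^ 2 / ‖c i‖ ^ 2 := by rw [Finset.mul_sum]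
    _ ≤ 4 * Λ ^ 2 * (16 * (a + Real.log (R / s) / Real.log 2)) := by
        refine mul_le_mul_of_nonneg_left ?_ (by positivity)
        linarith
    _ ≤ 64 * Λ ^ 2 * (a + 1 / Real.log 2) * (Real.log (R / s) + 1) := by
        have h1 : a + Real.log (R / s) / Real.log 2 ≤ (a + 1 / Real.log 2) * (Real.log (R / s) + 1) := by
          have h2 : 0 ≤ a * Real.log (R / s) := mul_nonneg ha0 hL0
          have h3 : 0 ≤ 1 / Real.log 2 := by positivity
          have h4 : (a + 1 / Real.log 2) * (Real.log (R / s) + 1) = a * Real.log (R / s) + a +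
            Real.log (R / s) / Real.log 2 + 1 / Real.log 2 := by ring
          rw [h4]; linarith
        have h5 := mul_le_mul_of_nonneg_left h1 (by positivity : 0 ≤ 64 * Λ ^ 2)
        linarith

open Classical in
theorem interval_avg {ι : Type*} (S : Finset ι) (m M l : ι → ℝ) (hl : ∀ i ∈ S, 0 ≤ l i)
    (hmM : ∀ i ∈ S, m i ≤ M i) (a b L : ℝ) (hab : a ≤ b)
    (h : ∀ t ∈ Set.Ioo a b, L ≤ ∑ i ∈ S.filter (fun i => m i ≤ t ∧ t ≤ M i), l i) :
    L * (b - a) ≤ ∑ i ∈ S, l i * (M i - m i) := by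
  have h1 : ∀ t, ∑ i ∈ S.filter (fun i => m i ≤ t ∧ t ≤ M i), l i =
      ∑ i ∈ S, (Set.Icc (m i) (M i)).indicator (fun _ => l i) t := by
    intro t
    rw [Finset.sum_filter]
    apply Finset.sum_congr rfl
    intro i _
    simp [Set.indicator, Set.mem_Icc]
  have hint : ∀ i, MeasureTheory.Integrable
      ((Set.Icc (m i) (M i)).indicator (fun _ => l i)) MeasureTheory.volume := by
    intro i
    rw [MeasureTheory.integrable_indicator_iff measurableSet_Icc]
    have e1 : MeasureTheory.volume (Set.Icc (m i) (M i)) ≠ ⊤ := by simp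
    have e2 : ‖l i‖ₑ ≠ ⊤ := by simp
    exact MeasureTheory.integrableOn_const e1 e2
  have h2 : ∫ t in Set.Ioo a b, L ≤
      ∫ t in Set.Ioo a b, ∑ i ∈ S, (Set.Icc (m i) (M i)).indicator (fun _ => l i) t := by
    have e1 : MeasureTheory.volume (Set.Ioo a b) ≠ ⊤ := by simp
    have e2 : ‖L‖ₑ ≠ ⊤ := by simp
    apply MeasureTheory.setIntegral_mono_on
    · exact MeasureTheory.integrableOn_const e1 e2
    · exact (MeasureTheory.integrable_finsetSum S (fun i _ => hint i)).integrableOn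
    · exact measurableSet_Ioo
    · intro t ht
      rw [← h1]
      exact h t ht
  have h3 : ∫ t in Set.Ioo a b, ∑ i ∈ S, (Set.Icc (m i) (M i)).indicator (fun _ => l i) t =
      ∑ i ∈ S, ∫ t in Set.Ioo a b, (Set.Icc (m i) (M i)).indicator (fun _ => l i) t :=
    MeasureTheory.integral_finsetSum S (fun i _ => (hint i).integrableOn)
  have h4 : ∀ i ∈ S, ∫ t in Set.Ioo a b, (Set.Icc (m i) (M i)).indicator (fun _ => l i) t ≤
      l i * (M i - m i) := by
    intro i hi
    calc ∫ t in Set.Ioo a b, (Set.Icc (m i) (M i)).indicator (fun _ => l i) t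
        ≤ ∫ t, (Set.Icc (m i) (M i)).indicator (fun _ => l i) t := by
          apply MeasureTheory.setIntegral_le_integral (hint i)
          filter_upwards with t
          exact Set.indicator_nonneg (fun _ _ => hl i hi) t
      _ = l i * (M i - m i) := by
          rw [MeasureTheory.integral_indicator_const _ measurableSet_Icc]
          rw [MeasureTheory.measureReal_def, Real.volume_Icc, ENNReal.toReal_ofReal
            (by linarith [hmM i hi]), smul_eq_mul]
          ring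
  have h5 : ∫ t in Set.Ioo a b, L = L * (b - a) := by
    rw [MeasureTheory.setIntegral_const, MeasureTheory.measureReal_def, Real.volume_Ioo,
      ENNReal.toReal_ofReal (by linarith), smul_eq_mul]
    ring
  calc L * (b - a) = ∫ t in Set.Ioo a b, L := h5.symm
    _ ≤ _ := h2
    _ = _ := h3
    _ ≤ _ := Finset.sum_le_sum h4

theorem cover_len {ι : Type*} (S : Finset ι) (m M : ι → ℝ) (hm : ∀ i ∈ S, 0 < m i)
    (hmM : ∀ i ∈ S, m i ≤ M i) (s R : ℝ) (hs : 0 < s)
    (h : ∀ t ∈ Set.Icc s R, ∃ i ∈ S, m i ≤ t ∧ t ≤ M i) (hR : 0 < R) :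
    Real.log R - Real.log s ≤ ∑ i ∈ S, (Real.log (M i) - Real.log (m i)) := by
  classical
  have hnn : ∀ i ∈ S, 0 ≤ Real.log (M i) - Real.log (m i) := by
    intro i hi
    have := Real.log_le_log (hm i hi) (hmM i hi)
    linarith
  by_cases hlog : Real.log s ≤ Real.log R
  · have key := interval_avg S (fun i => Real.log (m i)) (fun i => Real.log (M i)) (fun _ => 1)
      (fun _ _ => zero_le_one) (fun i hi => Real.log_le_log (hm i hi) (hmM i hi))
      (Real.log s) (Real.log R) 1 hlog (by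
        intro t ht
        have ht1 : Real.exp t ∈ Set.Icc s R := by
          constructor
          · rw [← Real.exp_log hs]
            exact Real.exp_le_exp.2 ht.1.le
          · rw [← Real.exp_log hR]
            exact Real.exp_le_exp.2 ht.2.le
        obtain ⟨i, hi, h1, h2⟩ := h _ ht1
        have hmem : i ∈ S.filter (fun i => Real.log (m i) ≤ t ∧ t ≤ Real.log (M i)) := by
          rw [Finset.mem_filter]
          refine ⟨hi, ?_, ?_⟩
          · rw [Real.log_le_iff_le_exp (hm i hi)]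
            exact h1
          · rw [Real.le_log_iff_exp_le (lt_of_lt_of_le (hm i hi) (hmM i hi))]
            exact h2
        exact Finset.single_le_sum (f := fun _ => (1:ℝ)) (fun _ _ => zero_le_one) hmem)
    simpa using key
  · have h0 : 0 ≤ ∑ i ∈ S, (Real.log (M i) - Real.log (m i)) := Finset.sum_nonneg hnn
    push Not at hlog
    linarith

section lady

open MeasureTheory

open Classical in
theorem lady {ι : Type*} (S U : Finset ι) (c : ι → ℂ) (r : ι → ℝ)
    (hrS : ∀ i ∈ S, 0 < r i) (hrU : ∀ i ∈ U, 0 < r i)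
    (hd : ∀ i ∈ S, ∀ j ∈ S, i ≠ j → r i + r j ≤ dist (c i) (c j))
    (g G : ι → ℝ) (hg : ∀ i ∈ S, 0 ≤ g i) (hG : ∀ i ∈ U, 0 ≤ G i)
    (hA : ∀ v ∈ S, ∀ t : ℝ, |t - (c v).re| < r v →
      g v ≤ ∑ u ∈ U.filter (fun u => |t - (c u).re| ≤ r u), G u)
    (hB : ∀ v ∈ S, ∀ t : ℝ, |t - (c v).im| < r v →
      g v ≤ ∑ u ∈ U.filter (fun u => |t - (c u).im| ≤ r u), G u) :
    ∑ v ∈ S, (r v) ^ 2 * (g v) ^ 2 ≤ 2 * (∑ u ∈ U, r u * G u) ^ 2 := by
  -- the two marginal functions
  set A : (ι → ℝ) → ℝ → ENNReal := fun p x =>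
    ∑ u ∈ U, (Set.Icc (p u - r u) (p u + r u)).indicator (fun _ => ENNReal.ofReal (G u)) x with hAdef
  have hAmeas : ∀ p, Measurable (A p) := by
    intro p
    rw [hAdef]
    exact Finset.measurable_fun_sum _ fun u _ => measurable_const.indicator measurableSet_Icc
  have hAint : ∀ p, ∫⁻ x, A p x = ENNReal.ofReal (2 * ∑ u ∈ U, r u * G u) := by
    intro p
    simp only [hAdef]
    rw [lintegral_finsetSum _ fun u _ => measurable_const.indicator measurableSet_Icc]
    rw [Finset.mul_sum, ENNReal.ofReal_sum_of_nonneg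
      (fun u hu => mul_nonneg (by norm_num) (mul_nonneg (hrU u hu).le (hG u hu)))]
    refine Finset.sum_congr rfl fun u hu => ?_
    rw [lintegral_indicator measurableSet_Icc, setLIntegral_const, Real.volume_Icc,
      ← ENNReal.ofReal_mul (hG u hu)]
    congr 1
    ring
  have hAval : ∀ p x, (∑ u ∈ U.filter (fun u => |x - p u| ≤ r u), G u) = (A p x).toReal ∧
      A p x = ENNReal.ofReal (∑ u ∈ U.filter (fun u => |x - p u| ≤ r u), G u) := by
    intro p x
    have : A p x = ENNReal.ofReal (∑ u ∈ U.filter (fun u => |x - p u| ≤ r u), G u) := by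
      simp only [hAdef]
      rw [Finset.sum_filter, ENNReal.ofReal_sum_of_nonneg]
      · refine Finset.sum_congr rfl fun u hu => ?_
        have hiff : x ∈ Set.Icc (p u - r u) (p u + r u) ↔ |x - p u| ≤ r u := by
          rw [Set.mem_Icc, abs_le]
          constructor
          · rintro ⟨h1, h2⟩; constructor <;> linarith
          · rintro ⟨h1, h2⟩; constructor <;> linarith
        by_cases h : |x - p u| ≤ r u
        · rw [Set.indicator_of_mem (hiff.2 h), if_pos h]
        · rw [Set.indicator_of_notMem (fun h' => h (hiff.1 h')), if_neg h]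
          simp
      · intro u hu
        split_ifs
        · exact hG u hu
        · exact le_rfl
    refine ⟨?_, this⟩
    rw [this, ENNReal.toReal_ofReal]
    exact Finset.sum_nonneg fun u hu => hG u (Finset.mem_filter.1 hu).1
  -- squares
  set Q : ι → Set (ℝ × ℝ) := fun v =>
    Set.Ioo ((c v).re - r v / √2) ((c v).re + r v / √2) ×ˢ
      Set.Ioo ((c v).im - r v / √2) ((c v).im + r v / √2) with hQ
  have hs2 : (0 : ℝ) < √2 := by positivity
  have hs2' : √2 * √2 = 2 := Real.mul_self_sqrt (by norm_num)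
  have hs1 : (1 : ℝ) < √2 := by
    nlinarith
  have hQmem : ∀ v, ∀ z : ℝ × ℝ, z ∈ Q v → |z.1 - (c v).re| < r v / √2 ∧ |z.2 - (c v).im| < r v / √2 := by
    intro v z hz
    simp only [hQ, Set.mem_prod, Set.mem_Ioo] at hz
    obtain ⟨⟨h1, h2⟩, h3, h4⟩ := hz
    constructor
    · rw [abs_lt]; constructor <;> linarith
    · rw [abs_lt]; constructor <;> linarith
  have hQdist : ∀ v ∈ S, ∀ z : ℝ × ℝ, z ∈ Q v → dist (c v) ⟨z.1, z.2⟩ < r v := by
    intro v hv z hz
    obtain ⟨h1, h2⟩ := hQmem v z hz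
    rw [Complex.dist_eq, Complex.norm_def]
    rw [Real.sqrt_lt' (hrS v hv), Complex.normSq_apply]
    simp only [Complex.sub_re, Complex.sub_im]
    have e1 : (z.1 - (c v).re) ^ 2 < (r v / √2) ^ 2 := by
      rw [← sq_abs]
      exact pow_lt_pow_left₀ h1 (abs_nonneg _) (by norm_num)
    have e2 : (z.2 - (c v).im) ^ 2 < (r v / √2) ^ 2 := by
      rw [← sq_abs]
      exact pow_lt_pow_left₀ h2 (abs_nonneg _) (by norm_num)
    have e3 : (r v / √2) ^ 2 = r v ^ 2 / 2 := by
      rw [div_pow, Real.sq_sqrt (by norm_num)]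
    rw [e3] at e1 e2
    nlinarith
  have hdisj : Set.PairwiseDisjoint (↑S : Set ι) Q := by
    intro v hv w hw hvw
    rw [Function.onFun, Set.disjoint_left]
    intro z hz hz'
    have h1 := hQdist v hv z hz
    have h2 := hQdist w hw z hz'
    have h3 := hd v hv w hw hvw
    have h4 := dist_triangle_right (c v) (c w) ⟨z.1, z.2⟩
    linarith
  have hQm : ∀ v ∈ S, MeasurableSet (Q v) := fun v _ => measurableSet_Ioo.prod measurableSet_Ioo
  set F : ℝ × ℝ → ENNReal := fun z => A (fun u => (c u).re) z.1 * A (fun u => (c u).im) z.2 with hF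
  have hpt : ∀ v ∈ S, ENNReal.ofReal (2 * ((r v) ^ 2 * (g v) ^ 2)) ≤ ∫⁻ z in Q v, F z := by
    intro v hv
    have hle : ∀ z ∈ Q v, ENNReal.ofReal ((g v) ^ 2) ≤ F z := by
      intro z hz
      obtain ⟨h1, h2⟩ := hQmem v z hz
      have hlt : r v / √2 < r v := by
        rw [div_lt_iff₀ hs2]
        nlinarith [hrS v hv]
      have ha := hA v hv z.1 (h1.trans hlt)
      have hb := hB v hv z.2 (h2.trans hlt)
      simp only [hF]
      rw [(hAval (fun u => (c u).re) z.1).2, (hAval (fun u => (c u).im) z.2).2,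
        ← ENNReal.ofReal_mul ((hg v hv).trans ha)]
      apply ENNReal.ofReal_le_ofReal
      rw [sq]
      exact mul_le_mul ha hb (hg v hv) ((hg v hv).trans ha)
    calc ENNReal.ofReal (2 * ((r v) ^ 2 * (g v) ^ 2))
        = ∫⁻ z in Q v, ENNReal.ofReal ((g v) ^ 2) := by
          rw [setLIntegral_const]
          simp only [hQ]
          rw [Measure.volume_eq_prod, Measure.prod_prod, Real.volume_Ioo, Real.volume_Ioo]
          have hr := (hrS v hv).le
          have hx : (c v).re + r v / √2 - ((c v).re - r v / √2) = 2 * (r v / √2) := by ring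
          have hy : (c v).im + r v / √2 - ((c v).im - r v / √2) = 2 * (r v / √2) := by ring
          have e : (r v / √2) * (r v / √2) = r v ^ 2 / 2 := by
            rw [← sq, div_pow, Real.sq_sqrt (by norm_num)]
          have h2r : (0 : ℝ) ≤ 2 * (r v / √2) := by positivity
          have hg2 : (0 : ℝ) ≤ (g v) ^ 2 := by positivity
          rw [hx, hy, ← ENNReal.ofReal_mul h2r, ← ENNReal.ofReal_mul hg2]
          congr 1
          linear_combination (-4 * (g v) ^ 2) * e
      _ ≤ ∫⁻ z in Q v, F z := setLIntegral_mono' (hQm v hv) hle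
  have hsum : ENNReal.ofReal (2 * ∑ v ∈ S, (r v) ^ 2 * (g v) ^ 2) ≤
      ENNReal.ofReal ((2 * ∑ u ∈ U, r u * G u) * (2 * ∑ u ∈ U, r u * G u)) := by
    calc ENNReal.ofReal (2 * ∑ v ∈ S, (r v) ^ 2 * (g v) ^ 2)
        = ∑ v ∈ S, ENNReal.ofReal (2 * ((r v) ^ 2 * (g v) ^ 2)) := by
          rw [Finset.mul_sum, ENNReal.ofReal_sum_of_nonneg]
          intro v _; positivity
      _ ≤ ∑ v ∈ S, ∫⁻ z in Q v, F z := Finset.sum_le_sum hpt
      _ = ∫⁻ z in ⋃ v ∈ S, Q v, F z := (lintegral_biUnion_finset hdisj hQm F).symm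
      _ ≤ ∫⁻ z, F z := setLIntegral_le_lintegral _ _
      _ = (∫⁻ x, A (fun u => (c u).re) x) * (∫⁻ y, A (fun u => (c u).im) y) := by
          simp only [hF]
          rw [Measure.volume_eq_prod]
          exact lintegral_prod_mul (hAmeas _).aemeasurable (hAmeas _).aemeasurable
      _ = _ := by
          have hnn : (0 : ℝ) ≤ 2 * ∑ u ∈ U, r u * G u :=
            mul_nonneg (by norm_num) (Finset.sum_nonneg fun u hu => mul_nonneg (hrU u hu).le (hG u hu))
          rw [hAint, hAint, ← ENNReal.ofReal_mul hnn]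
  have h0 : 0 ≤ (2 * ∑ u ∈ U, r u * G u) * (2 * ∑ u ∈ U, r u * G u) := mul_self_nonneg _
  have := (ENNReal.ofReal_le_ofReal_iff h0).1 hsum
  nlinarith

end lady

end Pool.Agent.Helper11.Koebe
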