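import Mathlib

namespace Pool.Agent.Helper11.Koebe

/-- The relation `L` is the successor relation of a cycle `b 0, ..., b (n-1)` of `n ≥ 3`
distinct elements. -/
def CycleRel {V : Type*} (L : V → V → Prop) : Prop :=
  ∃ n : ℕ, 3 ≤ n ∧ ∃ b : ℕ → V, (∀ i, b (i + n) = b i) ∧ Set.InjOn b (Set.Iio n) ∧
    ∀ x y, L x y ↔ ∃ i, b i = x ∧ b (i + 1) = y

/-- The relation `L` is the successor relation of a path `b 0, ..., b n` with `n ≥ 1` edges and
distinct elements. -/
def PathRel {V : Type*} (L : V → V → Prop) : Prop :=
  ∃ n : ℕ, 1 ≤ n ∧ ∃ b : ℕ → V, Set.InjOn b (Set.Iic n) ∧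
    ∀ x y, L x y ↔ ∃ i < n, b i = x ∧ b (i + 1) = y

/-- An oriented triangulated surface, possibly with boundary, with vertex set `V`.
`face u v w` says that `u, v, w` is a positively oriented face. The link of every vertex is a
cycle (interior vertex) or a path (boundary vertex). -/
structure Tri (V : Type*) where
  face : V → V → V → Prop
  rot : ∀ u v w, face u v w → face v w u
  link : ∀ v, CycleRel (face v) ∨ PathRel (face v)

namespace Tri

variable {V : Type*} (K : Tri V)

/-- `u` and `v` are joined by an edge, that is, they lie on a common face. -/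
def Adj (u v : V) : Prop := ∃ w, K.face u v w ∨ K.face v u w

/-- The link of `v` is a cycle. -/
def Interior (v : V) : Prop := CycleRel (K.face v)

/-- The one-skeleton is connected. -/
def Connected : Prop := ∀ u v, Relation.ReflTransGen K.Adj u v

end Tri

/-- The determinant of `q - p` and `r - p`; positive when `p, q, r` is counterclockwise. -/
noncomputable def orient (p q r : ℂ) : ℝ := ((starRingEnd ℂ) (q - p) * (r - p)).im

/-- A circle packing for `K`. -/
structure Packing {V : Type*} (K : Tri V) where
  c : V → ℂ
  r : V → ℝ
  r_pos : ∀ v, 0 < r v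
  tangent : ∀ u v, K.Adj u v → dist (c u) (c v) = r u + r v
  oriented : ∀ u v w, K.face u v w → 0 < orient (c u) (c v) (c w)

namespace Packing

variable {V : Type*} {K : Tri V} (P : Packing K)

/-- The union of the closed triangles of centres of the faces. -/
def carrier : Set ℂ := {z | ∃ u v w, K.face u v w ∧ z ∈ convexHull ℝ {P.c u, P.c v, P.c w}}

/-- The circles have pairwise disjoint interiors. -/
def Univalent : Prop :=
  ∀ u v, u ≠ v → Disjoint (Metric.ball (P.c u) (P.r u)) (Metric.ball (P.c v) (P.r v))

/-- The maximal packing in the closed unit disc: univalent, inside the unit disc, and either the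
complex is finite and all boundary circles are internally tangent to the unit circle, or it is
infinite without boundary and the carrier is the open unit disc. -/
def Maximal : Prop :=
  P.Univalent ∧ (∀ v, Metric.closedBall (P.c v) (P.r v) ⊆ Metric.closedBall 0 1) ∧
    ((Finite V ∧ ∀ v, ¬ K.Interior v → ‖P.c v‖ + P.r v = 1) ∨
      (Infinite V ∧ (∀ v, K.Interior v) ∧ P.carrier = Metric.ball 0 1))

end Packing

end Pool.Agent.Helper11.Koebe
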