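import Pool.Agent.Helper11.Koebe.Defs

namespace Pool.Agent.Helper11.Koebe

/-- angle at the disc of radius `x` in a mutually tangent triple of radii `x, y, z` -/
noncomputable def ang (x y z : ℝ) : ℝ := 2 * Real.arctan (Real.sqrt (y * z / (x * (x + y + z))))

/-- conductance -/
noncomputable def bb (x y z : ℝ) : ℝ := Real.sqrt (x * y * z / (x + y + z)) / (x + y)

theorem key_sqrt {x y z : ℝ} (hx : 0 < x) (hy : 0 < y) (hz : 0 < z) :
    Real.sqrt (x * y * z / (x + y + z)) = x * Real.sqrt (y * z / (x * (x + y + z))) := by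
  have h : x * y * z / (x + y + z) = x ^ 2 * (y * z / (x * (x + y + z))) := by
    field_simp
  rw [h, Real.sqrt_mul (by positivity), Real.sqrt_sq hx.le]

theorem ang_deriv (a b c a' b' c' t : ℝ) :
    HasDerivAt (fun s : ℝ => ang (Real.exp (a + s * a')) (Real.exp (b + s * b'))
        (Real.exp (c + s * c')))
      (bb (Real.exp (a + t * a')) (Real.exp (b + t * b')) (Real.exp (c + t * c')) * (b' - a')
        + bb (Real.exp (a + t * a')) (Real.exp (c + t * c')) (Real.exp (b + t * b')) * (c' - a'))
      t := by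
  have he : ∀ a a' : ℝ, HasDerivAt (fun s : ℝ => Real.exp (a + s * a'))
      (Real.exp (a + t * a') * a') t := by
    intro a a'
    have h1 : HasDerivAt (fun s : ℝ => a + s * a') a' t := by
      simpa using ((hasDerivAt_id t).mul_const a').const_add a
    exact h1.exp
  have hx := he a a'
  have hy := he b b'
  have hz := he c c'
  have px : 0 < Real.exp (a + t * a') := Real.exp_pos _
  have py : 0 < Real.exp (b + t * b') := Real.exp_pos _
  have pz : 0 < Real.exp (c + t * c') := Real.exp_pos _
  have hT := (hy.mul hz).div (hx.mul ((hx.add hy).add hz)) (by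
    simp only [Pi.add_apply, Pi.mul_apply]; positivity)
  have hT' := hT.sqrt (by simp only [Pi.div_apply, Pi.mul_apply, Pi.add_apply]; positivity)
  have hF := hT'.arctan.const_mul 2
  unfold ang
  refine hF.congr_deriv ?_
  simp only [Pi.div_apply, Pi.mul_apply, Pi.add_apply]
  unfold bb
  rw [key_sqrt px py pz]
  have e2 : Real.sqrt (Real.exp (a + t * a') * Real.exp (c + t * c') * Real.exp (b + t * b') /
      (Real.exp (a + t * a') + Real.exp (c + t * c') + Real.exp (b + t * b'))) =
      Real.exp (a + t * a') * Real.sqrt (Real.exp (b + t * b') * Real.exp (c + t * c') /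
      (Real.exp (a + t * a') * (Real.exp (a + t * a') + Real.exp (b + t * b') + Real.exp (c + t * c')))) := by
    rw [← key_sqrt px py pz]
    congr 1
    ring
  rw [e2]
  generalize Real.exp (a + t * a') = x at *
  generalize Real.exp (b + t * b') = y at *
  generalize Real.exp (c + t * c') = z at *
  have hq0 : 0 < Real.sqrt (y * z / (x * (x + y + z))) := Real.sqrt_pos.2 (by positivity)
  have hq2 : Real.sqrt (y * z / (x * (x + y + z))) ^ 2 = y * z / (x * (x + y + z)) :=
    Real.sq_sqrt (by positivity)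
  generalize Real.sqrt (y * z / (x * (x + y + z))) = q at *
  rw [hq2]
  have h1 : 1 + y * z / (x * (x + y + z)) = (x + y) * (x + z) / (x * (x + y + z)) := by
    field_simp
    ring
  rw [h1]
  have h2 : y * z = q ^ 2 * (x * (x + y + z)) := by
    rw [hq2]; field_simp
  have h3 : (y * b' * z + y * (z * c')) * (x * (x + y + z)) -
      y * z * (x * a' * (x + y + z) + x * (x * a' + y * b' + z * c')) =
      y * z * (x * ((x + z) * (b' - a') + (x + y) * (c' - a'))) := by ring
  rw [h3, h2]
  field_simp

theorem bb_symm (x y z : ℝ) : bb x y z = bb y x z := by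
  unfold bb
  rw [mul_comm x y, add_comm x y]

theorem bb_nonneg {x y z : ℝ} (hx : 0 < x) (hy : 0 < y) (hz : 0 < z) : 0 ≤ bb x y z := by
  unfold bb
  positivity

theorem bb_le {x y z : ℝ} (hx : 0 < x) (hy : 0 < y) (hz : 0 < z) : bb x y z ≤ 1 / 2 := by
  unfold bb
  rw [div_le_iff₀ (by positivity)]
  refine Real.sqrt_le_iff.2 ⟨by positivity, ?_⟩
  rw [div_le_iff₀ (by positivity)]
  have h1 : x * y ≤ (1 / 2 * (x + y)) ^ 2 := by nlinarith [sq_nonneg (x - y)]
  have h2 : x * y * z ≤ x * y * (x + y + z) := by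
    have : 0 < x * y := by positivity
    nlinarith
  calc x * y * z ≤ x * y * (x + y + z) := h2
    _ ≤ _ := mul_le_mul_of_nonneg_right h1 (by positivity)

theorem bb_ge {x y z κ : ℝ} (hκ : 0 < κ) (hκ1 : κ ≤ 1) (hx : 0 < x) (hy : 0 < y) (hz : 0 < z)
    (h1 : κ * x ≤ y) (h2 : κ * x ≤ z) (h3 : κ * y ≤ x) : κ ^ 2 / 4 ≤ bb x y z := by
  unfold bb
  rw [le_div_iff₀ (by positivity)]
  refine Real.le_sqrt_of_sq_le ?_
  have h4 : κ ^ 2 / 4 * (x + y) ≤ κ * x / 2 := by
    have h5 : κ * (x + y) ≤ 2 * x := by nlinarith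
    nlinarith
  have h6 : (κ ^ 2 / 4 * (x + y)) ^ 2 ≤ (κ * x / 2) ^ 2 :=
    pow_le_pow_left₀ (by positivity) h4 2
  refine h6.trans ?_
  rw [le_div_iff₀ (by positivity)]
  have hκx : 0 < κ * x := by positivity
  have e1 : κ * x * (κ * x) ≤ y * z := mul_le_mul h1 h2 hκx.le hy.le
  have e2 : κ * x * (κ * y) ≤ y * z := by
    have : κ * y ≤ y := by nlinarith
    calc κ * x * (κ * y) ≤ z * y := mul_le_mul h2 this (by positivity) hz.le
      _ = y * z := mul_comm _ _
  have e3 : κ * x * (κ * z) ≤ y * z := by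
    have : κ * z ≤ z := by nlinarith
    exact mul_le_mul h1 this (by positivity) hy.le
  have e4 : κ * x * (κ * x) + κ * x * (κ * y) + κ * x * (κ * z) ≤ 3 * (y * z) := by linarith
  have e5 : (κ * x / 2) ^ 2 * (x + y + z) =
      x * (κ * x * (κ * x) + κ * x * (κ * y) + κ * x * (κ * z)) / 4 := by ring
  rw [e5]
  have e6 := mul_le_mul_of_nonneg_left e4 hx.le
  have e7 : 0 < x * (y * z) := by positivity
  nlinarith

theorem ang_pos {x y z : ℝ} (hx : 0 < x) (hy : 0 < y) (hz : 0 < z) : 0 < ang x y z := by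
  unfold ang
  have : 0 < Real.sqrt (y * z / (x * (x + y + z))) := Real.sqrt_pos.2 (by positivity)
  have := Real.arctan_pos.2 this
  positivity

theorem ang_lt {x y z : ℝ} (hx : 0 < x) (hy : 0 < y) (hz : 0 < z) : ang x y z < Real.pi := by
  unfold ang
  have := Real.arctan_lt_pi_div_two (Real.sqrt (y * z / (x * (x + y + z))))
  linarith



lemma kj_sq_dist (a b : ℂ) : (b - a).re ^ 2 + (b - a).im ^ 2 = dist a b ^ 2 := by
  rw [dist_comm, Complex.dist_eq, ← Complex.normSq_eq_norm_sq, Complex.normSq_apply]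
  ring

/-- In a positively oriented triple of mutually tangent discs the direction from the first centre
to the third one is obtained from the direction to the second one by rotation by `ang`. -/
theorem direction {a b c : ℂ} {x y z : ℝ} (hx : 0 < x) (hy : 0 < y) (hz : 0 < z)
    (hab : dist a b = x + y) (hac : dist a c = x + z) (hbc : dist b c = y + z)
    (ho : 0 < orient a b c) :
    (c - a) / ((x + z : ℝ) : ℂ) = Complex.exp (Complex.I * (ang x y z : ℂ)) *
      ((b - a) / ((x + y : ℝ) : ℂ)) := by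
  have h1 := kj_sq_dist a b
  have h2 := kj_sq_dist a c
  have h3 := kj_sq_dist b c
  rw [hab] at h1
  rw [hac] at h2
  rw [hbc] at h3
  have e3 : c - b = (c - a) - (b - a) := by ring
  rw [e3, Complex.sub_re, Complex.sub_im] at h3
  unfold orient at ho
  rw [Complex.mul_im, Complex.conj_re, Complex.conj_im] at ho
  set P := b - a with hP
  set Q := c - a with hQ
  have hp : 0 < x + y := by linarith
  have hq : 0 < x + z := by linarith
  set T : ℝ := y * z / (x * (x + y + z)) with hT
  have hT0 : 0 < T := by positivity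
  have hs0 : 0 < Real.sqrt T := Real.sqrt_pos.2 hT0
  have hs2 : Real.sqrt T ^ 2 = T := Real.sq_sqrt hT0.le
  have hang : ang x y z = 2 * Real.arctan (Real.sqrt T) := rfl
  have hcos : Real.cos (ang x y z) = (P.re * Q.re + P.im * Q.im) / ((x + y) * (x + z)) := by
    rw [hang, Real.cos_two_mul, Real.cos_sq_arctan, hs2]
    have hdot : P.re * Q.re + P.im * Q.im = x * (x + y + z) - y * z := by nlinarith
    rw [hdot, hT]
    have : 0 < x * (x + y + z) := by positivity
    have : 0 < x * (x + y + z) + y * z := by positivity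
    have h5 : (x + y) * (x + z) = x * (x + y + z) + y * z := by ring
    rw [h5]
    field_simp
    ring
  have hsinpos : 0 < Real.sin (ang x y z) := by
    have ha1 : 0 < Real.arctan (Real.sqrt T) := Real.arctan_pos.2 hs0
    have ha2 := Real.arctan_lt_pi_div_two (Real.sqrt T)
    apply Real.sin_pos_of_pos_of_lt_pi
    · rw [hang]; linarith
    · rw [hang]; linarith
  have hsin : Real.sin (ang x y z) = (P.re * Q.im - P.im * Q.re) / ((x + y) * (x + z)) := by
    have h6 := Real.sin_sq_add_cos_sq (ang x y z)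
    have h7 : ((P.re * Q.im - P.im * Q.re) / ((x + y) * (x + z))) ^ 2 +
        ((P.re * Q.re + P.im * Q.im) / ((x + y) * (x + z))) ^ 2 = 1 := by
      rw [div_pow, div_pow, ← add_div, div_eq_one_iff_eq (by positivity)]
      calc _ = (P.re ^ 2 + P.im ^ 2) * (Q.re ^ 2 + Q.im ^ 2) := by ring
        _ = _ := by rw [h1, h2]; ring
    rw [hcos] at h6
    have h8 : Real.sin (ang x y z) ^ 2 = ((P.re * Q.im - P.im * Q.re) / ((x + y) * (x + z))) ^ 2 := by
      linarith
    have h9 : 0 < (P.re * Q.im - P.im * Q.re) / ((x + y) * (x + z)) := by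
      apply div_pos _ (by positivity)
      linarith
    exact (pow_left_inj₀ hsinpos.le h9.le two_ne_zero).1 h8
  have hexp : Complex.exp (Complex.I * (ang x y z : ℂ)) =
      ⟨Real.cos (ang x y z), Real.sin (ang x y z)⟩ := by
    rw [mul_comm]
    apply Complex.ext
    · rw [Complex.exp_ofReal_mul_I_re]
    · rw [Complex.exp_ofReal_mul_I_im]
  rw [hexp, hcos, hsin]
  have hpc : (((x + y : ℝ)) : ℂ) ≠ 0 := by exact_mod_cast hp.ne'
  have hqc : (((x + z : ℝ)) : ℂ) ≠ 0 := by exact_mod_cast hq.ne'
  have key : (x + y) ^ 2 = P.re ^ 2 + P.im ^ 2 := h1.symm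
  apply Complex.ext
  · rw [Complex.div_ofReal_re, Complex.mul_re, Complex.div_ofReal_re, Complex.div_ofReal_im]
    field_simp
    linear_combination (Q.re) * key
  · rw [Complex.div_ofReal_im, Complex.mul_im, Complex.div_ofReal_re, Complex.div_ofReal_im]
    field_simp
    linear_combination (Q.im) * key

/-- distance between the directions -/
theorem direction_dist {a b c : ℂ} {x y z : ℝ} (hx : 0 < x) (hy : 0 < y) (hz : 0 < z)
    (hab : dist a b = x + y) (hac : dist a c = x + z) :
    ‖(b - a) / ((x + y : ℝ) : ℂ) - (c - a) / ((x + z : ℝ) : ℂ)‖ ^ 2 * ((x + y) * (x + z))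
      = (dist b c) ^ 2 - (y - z) ^ 2 := by
  have h1 := kj_sq_dist a b
  have h2 := kj_sq_dist a c
  have h3 := kj_sq_dist b c
  rw [hab] at h1
  rw [hac] at h2
  rw [← h3]
  have e3 : c - b = (c - a) - (b - a) := by ring
  rw [e3, Complex.sub_re, Complex.sub_im]
  set P := b - a with hP
  set Q := c - a with hQ
  have hp : 0 < x + y := by linarith
  have hq : 0 < x + z := by linarith
  rw [← Complex.normSq_eq_norm_sq, Complex.normSq_apply, Complex.sub_re, Complex.sub_im,
    Complex.div_ofReal_re, Complex.div_ofReal_im, Complex.div_ofReal_re, Complex.div_ofReal_im]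
  have hPP : (P.re / (x + y)) ^ 2 + (P.im / (x + y)) ^ 2 = 1 := by
    rw [div_pow, div_pow, ← add_div, h1, div_self (by positivity)]
  have hQQ : (Q.re / (x + z)) ^ 2 + (Q.im / (x + z)) ^ 2 = 1 := by
    rw [div_pow, div_pow, ← add_div, h2, div_self (by positivity)]
  have hPQ : (P.re / (x + y) * (Q.re / (x + z)) + P.im / (x + y) * (Q.im / (x + z))) *
      ((x + y) * (x + z)) = P.re * Q.re + P.im * Q.im := by
    field_simp
  linear_combination ((x + y) * (x + z)) * hPP + ((x + y) * (x + z)) * hQQ - 2 * hPQ - h1 - h2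

theorem chain (n : ℕ) : ∀ η : ℝ, 0 < η → ∃ ε : ℝ, 0 < ε ∧ ∀ (R : ℝ), 0 < R → ∀ m : ℕ, m ≤ n →
    ∀ (y : ℕ → ℝ) (e : ℕ → ℂ), (∀ i ≤ m, 0 < y i) →
    (∀ i j, i < j → j ≤ m → 4 * (y i * y j) ≤ ‖e i - e j‖ ^ 2 * ((R + y i) * (R + y j))) →
    (∀ i < m, ‖e i - e (i + 1)‖ ^ 2 * ((R + y i) * (R + y (i + 1))) = 4 * (y i * y (i + 1))) →
    η * R ≤ y 0 → η * R ≤ y m → ∀ i ≤ m, ε * R ≤ y i := by
  induction n with
  | zero =>
    intro η hη
    refine ⟨η, hη, ?_⟩
    intro R hR m hm y e _ _ _ h0 _ i hi
    have hi0 : i = 0 := by omega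
    subst hi0
    exact h0
  | succ n ih =>
    intro η hη
    set t : ℝ := min η (η ^ 2 / ((1 + η) ^ 2 * ((n : ℝ) + 2) ^ 2 * 2)) with ht
    have hn0 : (0 : ℝ) ≤ n := Nat.cast_nonneg n
    have hden : (0 : ℝ) < (1 + η) ^ 2 * ((n : ℝ) + 2) ^ 2 * 2 := by positivity
    have htpos : 0 < t := lt_min hη (by positivity)
    have htη : t ≤ η := min_le_left _ _
    have ht2 : t ≤ η ^ 2 / ((1 + η) ^ 2 * ((n : ℝ) + 2) ^ 2 * 2) := min_le_right _ _
    obtain ⟨ε, hε, H⟩ := ih t htpos
    refine ⟨min ε η, lt_min hε hη, ?_⟩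
    intro R hR m hm y e hy hge heq h0 hmm i hi
    have hεR : min ε η * R ≤ ε * R := mul_le_mul_of_nonneg_right (min_le_left _ _) hR.le
    have hηR : min ε η * R ≤ η * R := mul_le_mul_of_nonneg_right (min_le_right _ _) hR.le
    have htR : t * R ≤ η * R := mul_le_mul_of_nonneg_right htη hR.le
    rcases Nat.lt_or_ge m (n + 1) with hmn | hmn
    · exact hεR.trans (H R hR m (by omega) y e hy hge heq (htR.trans h0) (htR.trans hmm) i hi)
    have hmeq : m = n + 1 := by omega
    rcases Nat.lt_or_ge m 2 with hm2 | hm2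
    · have : i = 0 ∨ i = m := by omega
      rcases this with h | h
      · subst h; exact hηR.trans h0
      · subst h; exact hηR.trans hmm
    -- claim
    have claim : ∃ l, 0 < l ∧ l < m ∧ t * R ≤ y l := by
      by_contra hcon
      push Not at hcon
      have hstep : ∀ i < m, ‖e i - e (i + 1)‖ ≤ 2 * Real.sqrt t := by
        intro i hi'
        have h1 := heq i hi'
        have hyi := hy i hi'.le
        have hyi1 := hy (i + 1) hi'
        have hsq : ‖e i - e (i + 1)‖ ^ 2 ≤ 4 * t := by
          have hprod : 0 < (R + y i) * (R + y (i + 1)) := by positivity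
          have hkey : 4 * (y i * y (i + 1)) ≤ 4 * t * ((R + y i) * (R + y (i + 1))) := by
            rcases Nat.eq_zero_or_pos i with hi0 | hipos
            · -- i + 1 inner
              have h2 := hcon (i + 1) (by omega) (by omega)
              have h3 : y (i + 1) ≤ t * (R + y (i + 1)) := by nlinarith
              have h4 : y i ≤ R + y i := by linarith
              have : y i * y (i + 1) ≤ (R + y i) * (t * (R + y (i + 1))) :=
                mul_le_mul h4 h3 hyi1.le (by positivity)
              nlinarith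
            · have h2 := hcon i hipos hi'
              have h3 : y i ≤ t * (R + y i) := by nlinarith
              have h4 : y (i + 1) ≤ R + y (i + 1) := by linarith
              have : y i * y (i + 1) ≤ (t * (R + y i)) * (R + y (i + 1)) :=
                mul_le_mul h3 h4 hyi1.le (by positivity)
              nlinarith
          rw [← h1] at hkey
          exact le_of_mul_le_mul_right hkey hprod
        have h5 : ‖e i - e (i + 1)‖ ^ 2 ≤ (2 * Real.sqrt t) ^ 2 := by
          rw [mul_pow, Real.sq_sqrt htpos.le]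
          linarith
        exact abs_le_of_sq_le_sq' h5 (by positivity) |>.2
      have hsum : ∀ k ≤ m, ‖e 0 - e k‖ ≤ (k : ℝ) * (2 * Real.sqrt t) := by
        intro k
        induction k with
        | zero => intro _; simp
        | succ k ihk =>
          intro hk
          have h1 := ihk (by omega)
          have h2 := hstep k (by omega)
          have h3 : e 0 - e (k + 1) = (e 0 - e k) + (e k - e (k + 1)) := by ring
          rw [h3]
          refine (norm_add_le _ _).trans ?_
          push_cast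
          linarith
      have hm0 := hsum m le_rfl
      have hge0 := hge 0 m (by omega) le_rfl
      have hy0 := hy 0 (by omega)
      have hym := hy m le_rfl
      have hsqm : ‖e 0 - e m‖ ^ 2 ≤ (m : ℝ) ^ 2 * (4 * t) := by
        have : ‖e 0 - e m‖ ^ 2 ≤ ((m : ℝ) * (2 * Real.sqrt t)) ^ 2 :=
          pow_le_pow_left₀ (norm_nonneg _) hm0 2
        rw [mul_pow, mul_pow, Real.sq_sqrt htpos.le] at this
        linarith
      -- lower bound
      have ha : η * (R + y 0) ≤ (1 + η) * y 0 := by nlinarith
      have hb : η * (R + y m) ≤ (1 + η) * y m := by nlinarith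
      have hab : (η * (R + y 0)) * (η * (R + y m)) ≤ ((1 + η) * y 0) * ((1 + η) * y m) :=
        mul_le_mul ha hb (by positivity) (by positivity)
      have hprod : 0 < (R + y 0) * (R + y m) := by positivity
      have h6 : η ^ 2 * ((R + y 0) * (R + y m)) ≤
          ((1 + η) ^ 2 * ((m : ℝ) ^ 2 * t)) * ((R + y 0) * (R + y m)) := by
        have h7 : ‖e 0 - e m‖ ^ 2 * ((R + y 0) * (R + y m)) ≤
            ((m : ℝ) ^ 2 * (4 * t)) * ((R + y 0) * (R + y m)) :=
          mul_le_mul_of_nonneg_right hsqm hprod.le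
        have h8 : 4 * (y 0 * y m) ≤ ((m : ℝ) ^ 2 * (4 * t)) * ((R + y 0) * (R + y m)) :=
          hge0.trans h7
        have h9 : (1 + η) ^ 2 * (4 * (y 0 * y m)) ≤
            (1 + η) ^ 2 * (((m : ℝ) ^ 2 * (4 * t)) * ((R + y 0) * (R + y m))) :=
          mul_le_mul_of_nonneg_left h8 (by positivity)
        nlinarith
      have h10 : η ^ 2 ≤ (1 + η) ^ 2 * ((m : ℝ) ^ 2 * t) := le_of_mul_le_mul_right h6 hprod
      have hmcast : (m : ℝ) = (n : ℝ) + 1 := by rw [hmeq]; push_cast; ring
      have h11 : t * ((1 + η) ^ 2 * ((n : ℝ) + 2) ^ 2 * 2) ≤ η ^ 2 := by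
        rw [le_div_iff₀ hden] at ht2
        exact ht2
      rw [hmcast] at h10
      have h12 : ((n : ℝ) + 1) ^ 2 ≤ ((n : ℝ) + 2) ^ 2 := by nlinarith
      have h13 : (1 + η) ^ 2 * (((n : ℝ) + 1) ^ 2 * t) ≤ (1 + η) ^ 2 * (((n : ℝ) + 2) ^ 2 * t) := by
        have : ((n : ℝ) + 1) ^ 2 * t ≤ ((n : ℝ) + 2) ^ 2 * t :=
          mul_le_mul_of_nonneg_right h12 htpos.le
        exact mul_le_mul_of_nonneg_left this (by positivity)
      have h14 : 0 < (1 + η) ^ 2 * (((n : ℝ) + 2) ^ 2 * t) := by positivity
      have h15 : t * ((1 + η) ^ 2 * ((n : ℝ) + 2) ^ 2 * 2) =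
          2 * ((1 + η) ^ 2 * (((n : ℝ) + 2) ^ 2 * t)) := by ring
      rw [h15] at h11
      linarith
    obtain ⟨l, hl0, hlm, hl⟩ := claim
    rcases Nat.lt_or_ge l i with hli | hli
    · have h1 := H R hR (m - l) (by omega) (fun k => y (l + k)) (fun k => e (l + k))
        (fun k hk => hy (l + k) (by omega))
        (fun a b hab hb => hge (l + a) (l + b) (by omega) (by omega))
        (fun k hk => by
          have := heq (l + k) (by omega)
          simpa [add_assoc] using this)
        (by simpa using hl)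
        (by
          have : l + (m - l) = m := by omega
          simpa [this] using htR.trans hmm)
        (i - l) (by omega)
      have h2 : l + (i - l) = i := by omega
      simp only [h2] at h1
      exact hεR.trans h1
    · exact hεR.trans (H R hR l (by omega) y e (fun k hk => hy k (by omega))
        (fun a b hab hb => hge a b hab (by omega)) (fun k hk => heq k (by omega))
        (htR.trans h0) hl i hli)

end Pool.Agent.Helper11.Koebe
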