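import Pool.Agent.Helper11.Koebe.Ring
import Pool.Agent.Helper11.Koebe.Meas

namespace Pool.Agent.Helper11.Koebe

open Metric Packing

theorem rl_alg {x y z A N : ℝ} (hx : 0 < x) (hy : 0 < y) (hz : 0 < z) (hN : 0 < N)
    (hA : 4 / N ≤ A) (h : A ^ 2 * ((x + y) * (x + z)) = 4 * (y * z)) : 4 / N ^ 2 * x ≤ y := by
  have h1 : (4 / N) ^ 2 ≤ A ^ 2 := pow_le_pow_left₀ (by positivity) hA 2
  have h2 : (4 / N) ^ 2 * ((x + y) * (x + z)) ≤ 4 * (y * z) := by
    rw [← h]; exact mul_le_mul_of_nonneg_right h1 (by positivity)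
  have h3 : (4 / N) ^ 2 = 4 * (4 / N ^ 2) := by ring
  rw [h3] at h2
  set c := 4 / N ^ 2 with hc
  have hc0 : 0 < c := by positivity
  by_contra hlt
  push Not at hlt
  have h4 : y * z < c * x * z := by nlinarith
  nlinarith [mul_pos hc0 (mul_pos hx hx), mul_pos hc0 (mul_pos hy hx), mul_pos hc0 (mul_pos hy hz)]

theorem rl_norm {α : ℝ} (h0 : 0 < α) (h1 : α < Real.pi) (u : ℂ) (hu : ‖u‖ = 1) :
    2 * α / Real.pi ≤ ‖u - Complex.exp (Complex.I * (α : ℂ)) * u‖ := by
  have e1 : u - Complex.exp (Complex.I * (α : ℂ)) * u =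
      -((Complex.exp (Complex.I * (α : ℂ)) - 1) * u) := by ring
  rw [e1, norm_neg, norm_mul, hu, mul_one, Complex.norm_exp_I_mul_ofReal_sub_one]
  have h2 := Real.mul_le_sin (x := α / 2) (by linarith) (by linarith)
  have h3 : 2 * α / Real.pi = 2 * (2 / Real.pi * (α / 2)) := by ring
  rw [h3]
  calc 2 * (2 / Real.pi * (α / 2)) ≤ 2 * Real.sin (α / 2) := by linarith
    _ ≤ ‖2 * Real.sin (α / 2)‖ := le_abs_self _

theorem ring_lemma (d : ℕ) : ∃ κ : ℝ, 0 < κ ∧ κ ≤ 1 ∧ ∀ (V : Type) (K : Tri V), K.Connected →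
    ∀ (P : Packing K), P.Univalent → ∀ a, K.Interior a → {w | K.Adj a w}.encard ≤ d →
    ∀ b, K.Adj a b → κ * P.r a ≤ P.r b := by
  set D : ℝ := max (d : ℝ) 1 with hD
  have hD0 : 0 < D := lt_of_lt_of_le one_pos (le_max_right _ _)
  obtain ⟨ε, hε, hch⟩ := chain d (4 / D ^ 2) (by positivity)
  refine ⟨min ε 1, lt_min hε one_pos, min_le_right _ _, ?_⟩
  intro V K hK P hP a ha hdeg w hw
  obtain ⟨n, hn, b, hper, hinj, hL⟩ := ha
  have hface : ∀ i, K.face a (b i) (b (i + 1)) := fun i => (hL _ _).2 ⟨i, rfl, rfl⟩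
  have hadj : ∀ i, K.Adj a (b i) := fun i => Tri.adj12 (hface i)
  have hra := P.r_pos a
  have hrb : ∀ i, 0 < P.r (b i) := fun i => P.r_pos _
  -- n ≤ d
  have hnd : n ≤ d := by
    have h1 : b '' Set.Iio n ⊆ {w | K.Adj a w} := by
      rintro _ ⟨i, _, rfl⟩; exact hadj i
    have h2 : (b '' Set.Iio n).encard = n := by
      rw [hinj.encard_image]
      have e : (Set.Iio n : Set ℕ) = ((Finset.range n : Finset ℕ) : Set ℕ) := by ext x; simp
      rw [e, Set.encard_coe_eq_coe_finsetCard, Finset.card_range]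
    have h3 := (Set.encard_le_encard h1).trans hdeg
    rw [h2] at h3
    exact_mod_cast h3
  have hn0 : (0:ℝ) < n := by positivity
  have hnD : (n:ℝ) ≤ D := le_trans (by exact_mod_cast hnd) (le_max_left _ _)
  have hη : 4 / D ^ 2 ≤ 4 / (n:ℝ) ^ 2 := by
    apply div_le_div_of_nonneg_left (by norm_num) (by positivity)
    exact pow_le_pow_left₀ hn0.le hnD 2
  -- a large angle
  obtain ⟨i, hi, hang⟩ : ∃ i ∈ Finset.range n, 2 * Real.pi / n ≤
      ang (P.r a) (P.r (b i)) (P.r (b (i + 1))) := by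
    by_contra hcon
    push Not at hcon
    have h1 := Finset.sum_lt_sum_of_nonempty (s := Finset.range n)
      (Finset.nonempty_range_iff.mpr (by omega)) hcon
    rw [Packing.angle_sum hK hP hn hper hinj hL, Finset.sum_const, Finset.card_range,
      nsmul_eq_mul] at h1
    have : (n:ℝ) * (2 * Real.pi / n) = 2 * Real.pi := by field_simp
    linarith
  have hα0 := ang_pos hra (hrb i) (hrb (i + 1))
  have hα1 := ang_lt hra (hrb i) (hrb (i + 1))
  have hdist : 4 / (n:ℝ) ≤ ‖P.dir a (b i) - P.dir a (b (i + 1))‖ := by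
    rw [Packing.dir_face (hface i)]
    refine le_trans ?_ (rl_norm hα0 hα1 _ (Packing.dir_norm (hadj i)))
    have hpi := Real.pi_pos
    rw [le_div_iff₀ hpi]
    calc 4 / (n:ℝ) * Real.pi = 2 * (2 * Real.pi / n) := by ring
      _ ≤ _ := by linarith
  have hdf := Packing.dir_dist_face (P := P) (hface i)
  have hy1 : 4 / (n:ℝ) ^ 2 * P.r a ≤ P.r (b i) :=
    rl_alg hra (hrb i) (hrb (i + 1)) hn0 hdist hdf
  have hy2 : 4 / (n:ℝ) ^ 2 * P.r a ≤ P.r (b (i + 1)) :=
    rl_alg hra (hrb (i + 1)) (hrb i) hn0 hdist (by rw [mul_comm (P.r a + P.r (b (i + 1))), hdf]; ring)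
  have hconc := hch (P.r a) hra (n - 1) (by omega) (fun j => P.r (b (i + 1 + j)))
    (fun j => P.dir a (b (i + 1 + j))) (fun j _ => hrb _) (by
      intro j k hjk hk
      refine Packing.dir_dist_ge hP (hadj _) (hadj _) ?_
      intro heq
      rw [cycle_eq_iff hn hper hinj] at heq
      have h1 : (i + 1 + j) ≡ (i + 1 + k) [MOD n] := heq
      have h2 : j ≡ k [MOD n] := Nat.ModEq.add_left_cancel' _ h1
      have h3 : j % n = k % n := h2
      rw [Nat.mod_eq_of_lt (by omega), Nat.mod_eq_of_lt (by omega)] at h3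
      omega) (by
      intro j hj
      exact Packing.dir_dist_face (hface (i + 1 + j))) (by
      simp only [add_zero]
      exact le_trans (mul_le_mul_of_nonneg_right hη hra.le) hy2) (by
      have : i + 1 + (n - 1) = i + n := by omega
      simp only [this, hper]
      exact le_trans (mul_le_mul_of_nonneg_right hη hra.le) hy1)
  -- w is one of them
  obtain ⟨k, hk⟩ : ∃ k, b k = w := by
    obtain ⟨y, hy | hy⟩ := Tri.adj_iff.1 hw
    · obtain ⟨k, hk, _⟩ := (hL _ _).1 hy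
      exact ⟨k, hk⟩
    · obtain ⟨k, _, hk⟩ := (hL _ _).1 hy
      exact ⟨k + 1, hk⟩
  have hj : b (i + 1 + (k + (i + 1) * (n - 1)) % n) = w := by
    rw [← hk, cycle_eq_iff hn hper hinj]
    rw [Nat.add_mod, Nat.mod_mod, ← Nat.add_mod]
    obtain ⟨m, rfl⟩ : ∃ m, n = m + 1 := ⟨n - 1, by omega⟩
    have : i + 1 + (k + (i + 1) * (m + 1 - 1)) = k + (i + 1) * (m + 1) := by
      simp only [Nat.add_sub_cancel]; ring
    rw [this, Nat.add_mul_mod_self_right]
  have hfin := hconc ((k + (i + 1) * (n - 1)) % n) (by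
    have := Nat.mod_lt (k + (i + 1) * (n - 1)) (show 0 < n by omega)
    omega)
  simp only [hj] at hfin
  exact le_trans (mul_le_mul_of_nonneg_right (min_le_left _ _) hra.le) hfin

end Pool.Agent.Helper11.Koebe
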