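import Pool.Agent.Helper11.Koebe.Far
import Pool.Agent.Helper11.Koebe.RingLemma

namespace Pool.Agent.Helper11.Koebe

open Metric Packing

/-- STEP 4 -/
theorem bf_step4 {V : Type} {K : Tri V} (Q : Packing K) {u y : V} {e : ℂ} (he : ‖e‖ = 1)
    (hadj : K.Adj u y) (hcu : Q.c u = ((1 - Q.r u : ℝ) : ℂ) * e) (hR1 : Q.r u ≤ 1 / 2)
    (hy : ‖Q.c y‖ + Q.r y = 1) (hsmall : Q.r y ≤ 1 / 32 * Q.r u) :
    ‖Q.dir u y - e‖ ≤ 1 / 2 := by
  have hR := Q.r_pos u
  have hr := Q.r_pos y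
  set R := Q.r u with hRdef
  set s := Q.r y with hsdef
  have hD := Packing.dir_norm (P := Q) hadj
  set D := Q.dir u y with hDdef
  have hcy : Q.c y = Q.c u + ((R + s : ℝ) : ℂ) * D := Packing.c_eq_dir
  have e1 : ‖Q.c y‖ ^ 2 = (1 - s) ^ 2 := by
    have : ‖Q.c y‖ = 1 - s := by linarith
    rw [this]
  have he2 : e.re ^ 2 + e.im ^ 2 = 1 := by
    have := Complex.sq_norm e
    rw [he, Complex.normSq_apply] at this
    nlinarith
  have hD2 : D.re ^ 2 + D.im ^ 2 = 1 := by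
    have := Complex.sq_norm D
    rw [hD, Complex.normSq_apply] at this
    nlinarith
  have e2 : ‖Q.c y‖ ^ 2 = ((1 - R) * e.re + (R + s) * D.re) ^ 2
      + ((1 - R) * e.im + (R + s) * D.im) ^ 2 := by
    rw [Complex.sq_norm, Complex.normSq_apply, hcy, hcu]
    simp [Complex.add_re, Complex.add_im, Complex.mul_re, Complex.mul_im]
    ring
  have e3 : ‖D - e‖ ^ 2 = (D.re - e.re) ^ 2 + (D.im - e.im) ^ 2 := by
    rw [Complex.sq_norm, Complex.normSq_apply]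
    simp
    ring
  have e4 : (1 - R) * (R + s) * ‖D - e‖ ^ 2 = 4 * s := by
    rw [e3]
    have h5 : ((1 - R) * e.re + (R + s) * D.re) ^ 2
      + ((1 - R) * e.im + (R + s) * D.im) ^ 2 = (1 - s) ^ 2 := by rw [← e2, e1]
    have h6 : (1 - R) * (R + s) * ((D.re - e.re) ^ 2 + (D.im - e.im) ^ 2)
        = (1 - R) * (R + s) * ((D.re ^ 2 + D.im ^ 2) + (e.re ^ 2 + e.im ^ 2))
          - ((((1 - R) * e.re + (R + s) * D.re) ^ 2
      + ((1 - R) * e.im + (R + s) * D.im) ^ 2) - (1 - R) ^ 2 * (e.re ^ 2 + e.im ^ 2)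
          - (R + s) ^ 2 * (D.re ^ 2 + D.im ^ 2)) := by ring
    rw [h6, h5, he2, hD2]
    ring
  have h7 : 1 / 2 * R * ‖D - e‖ ^ 2 ≤ 4 * s := by
    rw [← e4]
    apply mul_le_mul_of_nonneg_right _ (sq_nonneg _)
    nlinarith
  have h8 : ‖D - e‖ ^ 2 ≤ 1 / 4 := by
    have h9 : R * ‖D - e‖ ^ 2 ≤ R * (1 / 4) := by linarith
    exact le_of_mul_le_mul_left h9 hR
  nlinarith [norm_nonneg (D - e)]

/-- STEP 5a -/
theorem bf_step5a {V : Type} {K : Tri V} {u : V} {n : ℕ} (hn : 1 ≤ n) {b : ℕ → V}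
    (hinj : Set.InjOn b (Set.Iic n))
    (hL : ∀ x y, K.face u x y ↔ ∃ i < n, b i = x ∧ b (i + 1) = y) : ¬ K.Interior (b 0) := by
  rintro ⟨m, hm, c, hper, hcinj, hc⟩
  have h1 : K.face u (b 0) (b 1) := (hL _ _).2 ⟨0, by omega, rfl, rfl⟩
  have h2 : K.face (b 0) (b 1) u := K.rot _ _ _ h1
  obtain ⟨i, hi1, hi2⟩ := (hc _ _).1 h2
  have h3 : K.face (b 0) u (c (i + 2)) := (hc _ _).2 ⟨i + 1, hi2, rfl⟩
  have h4 : K.face u (c (i + 2)) (b 0) := K.rot _ _ _ h3
  obtain ⟨j, hj, hj1, hj2⟩ := (hL _ _).1 h4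
  have := hinj (Set.mem_Iic.2 (by omega : j + 1 ≤ n)) (Set.mem_Iic.2 (by omega : 0 ≤ n)) hj2
  omega

theorem bf_step5b {V : Type} {K : Tri V} {u : V} {n : ℕ} (hn : 1 ≤ n) {b : ℕ → V}
    (hinj : Set.InjOn b (Set.Iic n))
    (hL : ∀ x y, K.face u x y ↔ ∃ i < n, b i = x ∧ b (i + 1) = y) : ¬ K.Interior (b n) := by
  rintro ⟨m, hm, c, hper, hcinj, hc⟩
  have h1 : K.face u (b (n - 1)) (b n) := (hL _ _).2 ⟨n - 1, by omega, rfl, by
    congr 1; omega⟩
  have h2 : K.face (b n) u (b (n - 1)) := K.rot _ _ _ (K.rot _ _ _ h1)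
  obtain ⟨i, hi1, hi2⟩ := (hc _ _).1 h2
  have h3 : K.face (b n) (c (i + (m - 1))) u := (hc _ _).2 ⟨i + (m - 1), rfl, by
    rw [← hi1, ← hper i]; congr 1; omega⟩
  have h4 : K.face u (b n) (c (i + (m - 1))) := K.rot _ _ _ (K.rot _ _ _ h3)
  obtain ⟨j, hj, hj1, hj2⟩ := (hL _ _).1 h4
  have := hinj (Set.mem_Iic.2 (by omega : j ≤ n)) (Set.mem_Iic.2 (by omega : n ≤ n)) hj1
  omega

/-- neighbours of a boundary vertex -/
theorem bf_nbr {V : Type} {K : Tri V} {u : V} {n : ℕ} {b : ℕ → V}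
    (hL : ∀ x y, K.face u x y ↔ ∃ i < n, b i = x ∧ b (i + 1) = y) {x : V} (h : K.Adj u x) :
    ∃ k ≤ n, b k = x := by
  obtain ⟨y, hy | hy⟩ := Tri.adj_iff.1 h
  · obtain ⟨i, hi, h1, h2⟩ := (hL _ _).1 hy
    exact ⟨i, by omega, h1⟩
  · obtain ⟨i, hi, h1, h2⟩ := (hL _ _).1 hy
    exact ⟨i + 1, by omega, h2⟩

theorem bf_adj {V : Type} {K : Tri V} {u : V} {n : ℕ} (hn : 1 ≤ n) {b : ℕ → V}
    (hL : ∀ x y, K.face u x y ↔ ∃ i < n, b i = x ∧ b (i + 1) = y) {k : ℕ} (hk : k ≤ n) :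
    K.Adj u (b k) := by
  rcases Nat.lt_or_ge k n with h | h
  · exact Tri.adj12 ((hL (b k) (b (k + 1))).2 ⟨k, h, rfl, rfl⟩)
  · have : k = n := by omega
    subst this
    exact Tri.adj13 ((hL (b (k - 1)) (b k)).2 ⟨k - 1, by omega, rfl, by congr 1; omega⟩)

theorem bf_card {V : Type} {K : Tri V} {u : V} {n d : ℕ} (hn : 1 ≤ n) {b : ℕ → V}
    (hinj : Set.InjOn b (Set.Iic n))
    (hL : ∀ x y, K.face u x y ↔ ∃ i < n, b i = x ∧ b (i + 1) = y)
    (hd : {w | K.Adj u w}.encard ≤ d) : n + 1 ≤ d := by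
  have h1 : b '' (Set.Iic n) ⊆ {w | K.Adj u w} := by
    rintro _ ⟨k, hk, rfl⟩
    exact bf_adj hn hL hk
  have h2 := (Set.encard_le_encard h1).trans hd
  rw [hinj.encard_image] at h2
  have h3 : (Set.Iic n).encard = ((n + 1 : ℕ) : ℕ∞) := by
    rw [← Finset.coe_Iic, Set.encard_coe_eq_coe_finsetCard, Nat.card_Iic]
  rw [h3] at h2
  exact_mod_cast h2

/-- large jump -/
theorem bf_jump (f : ℕ → ℂ) (D : ℝ) (hD : 0 < D) : ∀ m : ℕ, (m : ℝ) ≤ D → ∀ a : ℕ,
    1 ≤ ‖f a - f (a + m)‖ → ∃ i, a ≤ i ∧ i < a + m ∧ 1 / D ≤ ‖f i - f (i + 1)‖ := by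
  intro m hm a h
  by_contra hcon
  push Not at hcon
  have key : ∀ j ≤ m, ‖f a - f (a + j)‖ ≤ j * (1 / D) := by
    intro j
    induction j with
    | zero => intro _; simp
    | succ j ih =>
      intro hj
      have h1 := ih (by omega)
      have h2 := hcon (a + j) (by omega) (by omega)
      have h3 : f a - f (a + (j + 1)) = (f a - f (a + j)) + (f (a + j) - f (a + j + 1)) := by
        rw [← add_assoc]; ring
      rw [h3]
      push_cast
      calc _ ≤ ‖f a - f (a + j)‖ + ‖f (a + j) - f (a + j + 1)‖ := norm_add_le _ _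
        _ ≤ _ := by linarith
  rcases Nat.eq_zero_or_pos m with hm0 | hm0
  · subst hm0
    simp at h
    norm_num at h
  · have h1 := key (m - 1) (by omega)
    have h2 := hcon (a + (m - 1)) (by omega) (by omega)
    have h3 : f a - f (a + m) = (f a - f (a + (m - 1))) + (f (a + (m - 1)) - f (a + (m - 1) + 1)) := by
      have : a + (m - 1) + 1 = a + m := by omega
      rw [this]; ring
    rw [h3] at h
    have h4 := norm_add_le (f a - f (a + (m - 1))) (f (a + (m - 1)) - f (a + (m - 1) + 1))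
    have h5 : ((m - 1 : ℕ) : ℝ) * (1 / D) + 1 / D = m * (1 / D) := by
      rw [Nat.cast_sub hm0]; push_cast; ring
    have h6 : (m : ℝ) * (1 / D) ≤ 1 := by
      rw [mul_one_div, div_le_one hD]; exact hm
    linarith

/-- from a jump to a large radius -/
theorem bf_large {R x y t D : ℝ} (hR : 0 < R) (hx : 0 < x) (hy : 0 < y) (hD : 0 < D)
    (ht : 1 / D ≤ t) (h : t ^ 2 * ((R + x) * (R + y)) = 4 * (x * y)) :
    1 / (4 * D ^ 2) * R ≤ x := by
  have h1 : (1 / D) ^ 2 ≤ t ^ 2 := pow_le_pow_left₀ (by positivity) ht 2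
  have h2 : (1 / D) ^ 2 * ((R + x) * (R + y)) ≤ 4 * (x * y) := by
    rw [← h]; exact mul_le_mul_of_nonneg_right h1 (by positivity)
  have h3 : (1 / D) ^ 2 * R * y ≤ 4 * x * y := by
    have : (1 / D) ^ 2 * R * y ≤ (1 / D) ^ 2 * ((R + x) * (R + y)) := by
      rw [mul_assoc]
      apply mul_le_mul_of_nonneg_left _ (by positivity)
      nlinarith
    linarith
  have h4 := le_of_mul_le_mul_right h3 hy
  have h5 : 1 / (4 * D ^ 2) * R = (1 / D) ^ 2 * R / 4 := by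
    field_simp
  rw [h5]; linarith

/-- TARGET: boundary horocycles stay away from the centre -/
theorem boundary_far (d : ℕ) : ∃ δ0 : ℝ, 0 < δ0 ∧ ∀ (V : Type) (K : Tri V), Finite V →
    K.Connected → (∀ v, {w | K.Adj v w}.encard ≤ d) → ∀ Q : Packing K, Q.Univalent →
    (∀ v, ¬ K.Interior v → ‖Q.c v‖ + Q.r v = 1) → ∀ v0, K.Interior v0 → Q.c v0 = 0 →
    ∀ u, ¬ K.Interior u → δ0 ≤ ‖Q.c u‖ - Q.r u := by
  classical
  obtain ⟨κ, hκ0, hκ1, hring⟩ := ring_lemma d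
  set D : ℝ := max (d : ℝ) 1 with hDdef
  have hD1 : 1 ≤ D := le_max_right _ _
  have hD0 : 0 < D := by linarith
  have hDd : (d : ℝ) ≤ D := le_max_left _ _
  set η : ℝ := min (1 / 32) (1 / (4 * D ^ 2)) with hηdef
  have hη0 : 0 < η := lt_min (by norm_num) (by positivity)
  have hη1 : η ≤ 1 / 32 := min_le_left _ _
  have hη2 : η ≤ 1 / (4 * D ^ 2) := min_le_right _ _
  obtain ⟨ε, hε0, hchain⟩ := chain d η hη0
  refine ⟨min (min (κ / 48) (ε * κ / 16)) (1 / 4), by positivity, ?_⟩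
  intro V K hfin hK hd Q hQ hbd v0 hv0 hc0 u' hu'
  -- minimal choice
  have hfinS : (Set.univ : Set {v : V // ¬ K.Interior v}).Finite := Set.toFinite _
  obtain ⟨⟨u, hu⟩, -, hmin⟩ := Set.exists_min_image (Set.univ : Set {v : V // ¬ K.Interior v})
    (fun v => ‖Q.c v.1‖ - Q.r v.1) hfinS ⟨⟨u', hu'⟩, trivial⟩
  have hmin' : ∀ v, ¬ K.Interior v → ‖Q.c u‖ - Q.r u ≤ ‖Q.c v‖ - Q.r v :=
    fun v hv => hmin ⟨v, hv⟩ trivial
  refine le_trans ?_ (hmin' u' hu')
  by_contra hlt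
  push Not at hlt
  set δ : ℝ := ‖Q.c u‖ - Q.r u with hδdef
  have hδκ : δ < κ / 48 := lt_of_lt_of_le hlt ((min_le_left _ _).trans (min_le_left _ _))
  have hδε : δ < ε * κ / 16 := lt_of_lt_of_le hlt ((min_le_left _ _).trans (min_le_right _ _))
  have hδ4 : δ < 1 / 4 := lt_of_lt_of_le hlt (min_le_right _ _)
  have hne : v0 ≠ u := by rintro rfl; exact hu hv0
  have hr0 := Q.r_pos v0
  have hv0δ : Q.r v0 ≤ δ := by
    have := Packing.sep hQ hne
    rw [hc0, dist_zero_left] at this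
    linarith
  have hδ0 : 0 < δ := by linarith
  have hcu1 := hbd u hu
  have hRpos := Q.r_pos u
  set R := Q.r u with hRdef
  have hR4 : 1 / 4 ≤ R := by linarith
  have hRh : R ≤ 1 / 2 := by linarith
  have hδR : δ = 1 - 2 * R := by linarith
  have hnorm : ‖Q.c u‖ = 1 - R := by linarith
  set e : ℂ := Q.c u / ((1 - R : ℝ) : ℂ) with hedef
  have h1R : (0 : ℝ) < 1 - R := by linarith
  have h1Rc : ((1 - R : ℝ) : ℂ) ≠ 0 := by exact_mod_cast h1R.ne'
  have hcu : Q.c u = ((1 - R : ℝ) : ℂ) * e := by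
    rw [hedef, mul_div_cancel₀ _ h1Rc]
  have he : ‖e‖ = 1 := by
    rw [hedef, norm_div, Complex.norm_real, Real.norm_of_nonneg h1R.le, hnorm, div_self h1R.ne']
  -- STEP 1
  set γ : Set ℂ := (fun t : ℝ => ((t : ℝ) : ℂ) * e) '' Set.Ico 0 δ with hγdef
  have hγc : IsPreconnected γ := by
    apply IsPreconnected.image isPreconnected_Ico
    fun_prop
  have hγn : ∀ z ∈ γ, ‖z‖ < δ := by
    rintro _ ⟨t, ht, rfl⟩
    simp only [norm_mul, Complex.norm_real, he, mul_one]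
    rw [Real.norm_of_nonneg ht.1]; exact ht.2
  set W : Set V := {x | K.Interior x ∧ (Q.disc x ∩ γ).Nonempty} with hWdef
  have h0γ : (0 : ℂ) ∈ γ := ⟨0, ⟨le_rfl, hδ0⟩, by simp⟩
  have h0d : (0 : ℂ) ∈ Q.disc v0 := by
    have := Packing.center_mem_disc Q v0
    rwa [hc0] at this
  have hv0W : v0 ∈ W := ⟨hv0, ⟨0, h0d, h0γ⟩⟩
  have hcl : ∀ x ∈ W, ∀ y, K.Adj x y → (Q.disc y ∩ γ).Nonempty → y ∈ W := by
    intro x hx y hxy hy
    refine ⟨?_, hy⟩
    by_contra hyI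
    obtain ⟨z, hz1, hz2⟩ := hy
    have h1 := hγn z hz2
    have h2 := hmin' y hyI
    have h3 : ‖Q.c y‖ ≤ ‖z‖ + Q.r y := by
      have h4 : dist z (Q.c y) ≤ Q.r y := hz1
      rw [dist_eq_norm] at h4
      have h5 : ‖Q.c y‖ ≤ ‖z‖ + ‖z - Q.c y‖ := by
        have : Q.c y = z - (z - Q.c y) := by ring
        calc ‖Q.c y‖ = ‖z - (z - Q.c y)‖ := by rw [← this]
          _ ≤ _ := norm_sub_le _ _
      linarith
    linarith
  have hcov := Packing.covered hQ W (Set.toFinite W) (fun x hx => hx.1) γ hγc v0 hv0W hv0W.2 hcl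
  have hclosed : IsClosed (⋃ x ∈ W, Q.star x) :=
    (Set.toFinite W).isClosed_biUnion (fun x _ => Packing.star_closed x)
  have hlim : ((δ : ℝ) : ℂ) * e ∈ closure γ := by
    have h1 : δ ∈ closure (Set.Ico (0 : ℝ) δ) := by
      rw [closure_Ico hδ0.ne]
      exact ⟨hδ0.le, le_rfl⟩
    have hcont : Continuous (fun t : ℝ => ((t : ℝ) : ℂ) * e) := by fun_prop
    exact image_closure_subset_closure_image hcont ⟨δ, h1, rfl⟩
  have hin := (closure_minimal hcov hclosed) hlim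
  obtain ⟨x, hx, hxs⟩ : ∃ x ∈ W, ((δ : ℝ) : ℂ) * e ∈ Q.star x := by
    simpa only [Set.mem_iUnion, exists_prop] using hin
  have hud : ((δ : ℝ) : ℂ) * e ∈ Q.disc u := by
    show dist _ _ ≤ Q.r u
    rw [hcu, dist_eq_norm, ← sub_mul, norm_mul, he, mul_one, ← Complex.ofReal_sub,
      Complex.norm_real, Real.norm_eq_abs, abs_le]
    constructor <;> linarith
  have hux : u ≠ x := by rintro rfl; exact hu hx.1
  have hxu : K.Adj x u := (Packing.adj_of_meet_star hK hQ hud hxs).resolve_left hux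
  have hux' : K.Adj u x := Tri.adj_symm hxu
  have hrx := Q.r_pos x
  have hcx : ‖Q.c x‖ < δ + Q.r x := by
    obtain ⟨z, hz1, hz2⟩ := hx.2
    have h1 := hγn z hz2
    have h4 : dist z (Q.c x) ≤ Q.r x := hz1
    rw [dist_eq_norm] at h4
    have h5 : ‖Q.c x‖ ≤ ‖z‖ + ‖z - Q.c x‖ := by
      have : Q.c x = z - (z - Q.c x) := by ring
      calc ‖Q.c x‖ = ‖z - (z - Q.c x)‖ := by rw [← this]
        _ ≤ _ := norm_sub_le _ _
    linarith
  -- STEP 2
  have hrx2 : κ * Q.r x ≤ 2 * δ := by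
    by_cases hxv : x = v0
    · rw [hxv]
      nlinarith
    · have := center_far hK Q hQ hκ0 hκ1 hc0 hx.1 hxv
        (fun b hb => hring V K hK Q hQ x hx.1 (hd x) b hb)
      nlinarith
  -- STEP 3
  have hstep3 : ‖Q.dir u x + e‖ ≤ 1 / 2 := by
    have hpos : 0 < R + Q.r x := by linarith
    have hposc : ((R + Q.r x : ℝ) : ℂ) ≠ 0 := by exact_mod_cast hpos.ne'
    have h1 : Q.dir u x + e = (Q.c x + ((Q.r x - δ : ℝ) : ℂ) * e) / ((R + Q.r x : ℝ) : ℂ) := by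
      rw [Packing.dir, eq_div_iff hposc, add_mul, div_mul_cancel₀ _ hposc, hcu, hδR]
      push_cast
      ring
    rw [h1, norm_div, Complex.norm_real, Real.norm_of_nonneg hpos.le, div_le_iff₀ hpos]
    have h2 : ‖Q.c x + ((Q.r x - δ : ℝ) : ℂ) * e‖ ≤ ‖Q.c x‖ + |Q.r x - δ| := by
      calc _ ≤ ‖Q.c x‖ + ‖((Q.r x - δ : ℝ) : ℂ) * e‖ := norm_add_le _ _
        _ = _ := by rw [norm_mul, he, mul_one, Complex.norm_real, Real.norm_eq_abs]
    have h3 : |Q.r x - δ| ≤ Q.r x + δ := by rw [abs_le]; constructor <;> linarith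
    have h4 : κ * (2 * δ + 2 * Q.r x) ≤ κ * (1 / 8) := by nlinarith
    have h5 := le_of_mul_le_mul_left h4 hκ0
    linarith
  -- STEP 5
  obtain ⟨n, hn, b, hinj, hL⟩ : PathRel (K.face u) := (K.link u).resolve_left hu
  have hb0 := bf_step5a hn hinj hL
  have hbn := bf_step5b hn hinj hL
  obtain ⟨k, hk, hbk⟩ := bf_nbr hL hux'
  have hk0 : k ≠ 0 := by rintro rfl; rw [hbk] at hb0; exact hb0 hx.1
  have hkn : k ≠ n := by rintro rfl; rw [hbk] at hbn; exact hbn hx.1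
  have hnd := bf_card hn hinj hL (hd u)
  have hnD : (n : ℝ) ≤ D := by
    have : (n : ℝ) + 1 ≤ d := by exact_mod_cast hnd
    linarith
  have hfar : ∀ j ≤ n, ¬ K.Interior (b j) → Q.r (b j) < η * R →
      1 ≤ ‖Q.dir u (b j) - Q.dir u x‖ := by
    intro j hj hbj hsm
    have h1 := bf_step4 Q he (bf_adj hn hL hj) hcu hRh (hbd _ hbj) (by
      have : η * R ≤ 1 / 32 * R := mul_le_mul_of_nonneg_right hη1 hRpos.le
      linarith)
    have h2 : (2 : ℝ) = ‖(Q.dir u (b j) - Q.dir u x) - (Q.dir u (b j) - e) + (Q.dir u x + e)‖ := by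
      have : (Q.dir u (b j) - Q.dir u x) - (Q.dir u (b j) - e) + (Q.dir u x + e) = (2 : ℝ) * e := by
        push_cast; ring
      rw [this, norm_mul, he, Complex.norm_real]; norm_num
    have h3 := norm_add_le ((Q.dir u (b j) - Q.dir u x) - (Q.dir u (b j) - e)) (Q.dir u x + e)
    have h4 := norm_sub_le (Q.dir u (b j) - Q.dir u x) (Q.dir u (b j) - e)
    linarith
  -- STEP 6
  obtain ⟨j1, hj1k, hj1⟩ : ∃ j1 < k, η * R ≤ Q.r (b j1) := by
    by_cases h0 : η * R ≤ Q.r (b 0)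
    · exact ⟨0, by omega, h0⟩
    · have h1 := hfar 0 (by omega) hb0 (not_le.1 h0)
      rw [← hbk] at h1
      have hkD : (k : ℝ) ≤ D := by
        have : (k : ℝ) ≤ n := by exact_mod_cast hk
        linarith
      obtain ⟨i, hi0, hi1, hi⟩ := bf_jump (fun i => Q.dir u (b i)) D hD0 k hkD 0 (by simpa using h1)
      refine ⟨i, by omega, ?_⟩
      have hf : K.face u (b i) (b (i + 1)) := (hL _ _).2 ⟨i, by omega, rfl, rfl⟩
      have h2 := bf_large hRpos (Q.r_pos (b i)) (Q.r_pos (b (i + 1))) hD0 hi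
        (Packing.dir_dist_face hf)
      exact (mul_le_mul_of_nonneg_right hη2 hRpos.le).trans h2
  obtain ⟨j2, hj2k, hj2n, hj2⟩ : ∃ j2, k < j2 ∧ j2 ≤ n ∧ η * R ≤ Q.r (b j2) := by
    by_cases h0 : η * R ≤ Q.r (b n)
    · exact ⟨n, by omega, le_rfl, h0⟩
    · have h1 := hfar n le_rfl hbn (not_le.1 h0)
      rw [← hbk, norm_sub_rev] at h1
      have hkD : ((n - k : ℕ) : ℝ) ≤ D := by
        have : ((n - k : ℕ) : ℝ) ≤ n := by exact_mod_cast Nat.sub_le n k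
        linarith
      have hnk : k + (n - k) = n := by omega
      obtain ⟨i, hi0, hi1, hi⟩ := bf_jump (fun i => Q.dir u (b i)) D hD0 (n - k) hkD k
        (by simpa [hnk] using h1)
      refine ⟨i + 1, by omega, by omega, ?_⟩
      have hf : K.face u (b i) (b (i + 1)) := (hL _ _).2 ⟨i, by omega, rfl, rfl⟩
      have h3 := Packing.dir_dist_face (P := Q) hf
      have h2 := bf_large hRpos (Q.r_pos (b (i + 1))) (Q.r_pos (b i)) hD0 hi
        (by rw [mul_comm (Q.r (b (i + 1))), mul_comm (R + Q.r (b (i + 1)))]; exact h3)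
      exact (mul_le_mul_of_nonneg_right hη2 hRpos.le).trans h2
  -- STEP 7
  have hfinal := hchain R hRpos (j2 - j1) (by omega) (fun i => Q.r (b (j1 + i)))
    (fun i => Q.dir u (b (j1 + i))) (fun i _ => Q.r_pos _)
    (by
      intro i j hij hj
      have hne' : b (j1 + i) ≠ b (j1 + j) := by
        intro h
        have := hinj (Set.mem_Iic.2 (by omega : j1 + i ≤ n)) (Set.mem_Iic.2 (by omega : j1 + j ≤ n)) h
        omega
      exact Packing.dir_dist_ge hQ (bf_adj hn hL (by omega)) (bf_adj hn hL (by omega)) hne')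
    (by
      intro i hi
      have hf : K.face u (b (j1 + i)) (b (j1 + (i + 1))) := (hL _ _).2 ⟨j1 + i, by omega, rfl, rfl⟩
      exact Packing.dir_dist_face hf)
    (by simpa using hj1)
    (by
      have : j1 + (j2 - j1) = j2 := by omega
      simpa [this] using hj2)
    (k - j1) (by omega)
  have hkj : j1 + (k - j1) = k := by omega
  simp only [hkj, hbk] at hfinal
  have h1 : κ * (ε * R) ≤ 2 * δ := (mul_le_mul_of_nonneg_left hfinal hκ0.le).trans hrx2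
  have h2 : κ * (ε * (1 / 4)) ≤ κ * (ε * R) := by
    apply mul_le_mul_of_nonneg_left _ hκ0.le
    exact mul_le_mul_of_nonneg_left hR4 hε0.le
  have h3 : 0 < ε * κ := by positivity
  nlinarith

end Pool.Agent.Helper11.Koebe
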