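import Mathlib

namespace Pool.Agent.Helper11.Koebe

theorem pw_core (dl E D Y : ℝ) (hdl : 0 ≤ dl) (h1 : dl ≤ E - 1) (h2 : E - 1 ≤ dl * E) :
    0 ≤ Y ^ 2 * (dl * (E ^ 2 - 1) - (E - 1) ^ 2 / 2) + D * Y * (2 * dl - (E - 1))
      + D ^ 2 * (9 / 2 + 4 * dl) := by
  have hE : 1 ≤ E := by linarith
  have hA : (E - 1) ^ 2 / 2 ≤ dl * (E ^ 2 - 1) - (E - 1) ^ 2 / 2 := by
    -- dl (E^2-1) ≥ (E-1)^2
    have h3 : (E - 1) * (E - 1) * (E + 1) ≤ dl * E * ((E - 1) * (E + 1)) := by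
      have : 0 ≤ (E - 1) * (E + 1) := mul_nonneg (by linarith) (by linarith)
      nlinarith [mul_le_mul_of_nonneg_right h2 this]
    have h4 : E * (E - 1) ^ 2 ≤ E * (dl * (E ^ 2 - 1)) := by
      have : 0 ≤ (E - 1) ^ 2 := sq_nonneg _
      nlinarith
    have h5 : (E - 1) ^ 2 ≤ dl * (E ^ 2 - 1) := le_of_mul_le_mul_left h4 (by linarith)
    linarith
  have hB1 : 2 * dl - (E - 1) ≤ E - 1 := by linarith
  have hB2 : -(E - 1) ≤ 2 * dl - (E - 1) := by linarith
  have hY : 0 ≤ Y ^ 2 := sq_nonneg _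
  have hD : 0 ≤ D ^ 2 := sq_nonneg _
  have t1 := mul_le_mul_of_nonneg_left hA hY
  have t2 : -( |D * Y| * (E - 1)) ≤ D * Y * (2 * dl - (E - 1)) := by
    have : |D * Y * (2 * dl - (E - 1))| ≤ |D * Y| * (E - 1) := by
      rw [abs_mul]
      exact mul_le_mul_of_nonneg_left (abs_le.mpr ⟨hB2, hB1⟩) (abs_nonneg _)
    exact (abs_le.mp this).1
  have t3 : D ^ 2 * (9 / 2) ≤ D ^ 2 * (9 / 2 + 4 * dl) :=
    mul_le_mul_of_nonneg_left (by linarith) hD
  have t4 : 0 ≤ Y ^ 2 * ((E - 1) ^ 2 / 2) - |D * Y| * (E - 1) + D ^ 2 * (9 / 2) := by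
    have e1 : Y ^ 2 = |Y| ^ 2 := (sq_abs Y).symm
    have e2 : D ^ 2 = |D| ^ 2 := (sq_abs D).symm
    rw [abs_mul, e1, e2]
    nlinarith [sq_nonneg (|Y| * (E - 1) - |D|), sq_nonneg (|D|)]
  linarith

theorem pw_le (a b X Y : ℝ) (hab : a ≤ b) :
    (1 / 2) * (Y * Real.exp b - X * Real.exp a) ^ 2
      - 5 * (1 + |b - a|) * (Y - X) ^ 2 * Real.exp (2 * a)
      ≤ (Y ^ 2 * Real.exp (2 * b) - X ^ 2 * Real.exp (2 * a)) * (b - a) := by
  obtain ⟨d, hd⟩ : ∃ d, d = b - a := ⟨_, rfl⟩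
  have hb : b = a + d := by linarith
  have hd0 : 0 ≤ d := by linarith
  subst hb
  have e0 : a + d - a = d := by ring
  have h1 : d ≤ Real.exp d - 1 := by linarith [Real.add_one_le_exp d]
  have h2 : Real.exp d - 1 ≤ d * Real.exp d := by
    have := Real.add_one_le_exp (-d)
    have h3 : Real.exp d * Real.exp (-d) = 1 := by rw [← Real.exp_add]; simp
    nlinarith [Real.exp_pos d]
  have key := pw_core d (Real.exp d) (Y - X) Y hd0 h1 h2
  have ea : Real.exp (2 * a) = Real.exp a ^ 2 := by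
    rw [← Real.exp_nat_mul]; norm_num
  have eb : Real.exp (2 * (a + d)) = Real.exp a ^ 2 * Real.exp d ^ 2 := by
    rw [mul_add, Real.exp_add, ea]
    congr 1
    rw [← Real.exp_nat_mul]; norm_num
  rw [e0, abs_of_nonneg hd0, eb, ea, Real.exp_add]
  have := mul_nonneg (sq_nonneg (Real.exp a)) key
  nlinarith [this]

theorem pointwise (a b X Y : ℝ) (hX : 0 ≤ X) (hY : 0 ≤ Y) :
    (1 / 2) * (Y * Real.exp b - X * Real.exp a) ^ 2
      - 5 * (1 + |b - a|) * (Y - X) ^ 2 * min (Real.exp (2 * a)) (Real.exp (2 * b))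
      ≤ (Y ^ 2 * Real.exp (2 * b) - X ^ 2 * Real.exp (2 * a)) * (b - a) := by
  rcases le_total a b with h | h
  · rw [min_eq_left (Real.exp_le_exp.mpr (by linarith))]
    exact pw_le a b X Y h
  · rw [min_eq_right (Real.exp_le_exp.mpr (by linarith))]
    have := pw_le b a Y X h
    rw [abs_sub_comm a b] at this
    have e1 : (X * Real.exp a - Y * Real.exp b) ^ 2 = (Y * Real.exp b - X * Real.exp a) ^ 2 := by ring
    have e2 : (X - Y) ^ 2 = (Y - X) ^ 2 := by ring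
    rw [e1, e2] at this
    linarith

open Classical in
theorem caccioppoli {V : Type*} (S F : Finset V) (adj : V → V → Prop)
    (hsym : ∀ u v, adj u v → adj v u) (c : V → V → ℝ) (h χ : V → ℝ) (q Λ κ : ℝ)
    (hq : 0 < q) (hΛ0 : 0 ≤ Λ) (hκ : 0 < κ) (hcs : ∀ u v, c u v = c v u)
    (hc0 : ∀ u v, 0 ≤ c u v) (hc1 : ∀ u v, c u v ≤ 1)
    (hcl : ∀ u ∈ S, ∀ v, adj u v → κ ^ 2 / 4 ≤ c u v) (hca : ∀ u v, ¬ adj u v → c u v = 0)
    (hχ0 : ∀ v, 0 ≤ χ v) (hχS : ∀ v, v ∉ S → χ v = 0)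
    (hΛ : ∀ u ∈ S, ∀ v, adj u v → |h v - h u| ≤ Λ)
    (hsum : ∑ u ∈ F, ∑ v ∈ F, c u v * (χ v ^ 2 * Real.exp (2 * (q * h v))
      - χ u ^ 2 * Real.exp (2 * (q * h u))) * (h v - h u) = 0) :
    ∑ u ∈ F, ∑ v ∈ F.filter (fun v => adj u v),
        (χ v * Real.exp (q * h v) - χ u * Real.exp (q * h u)) ^ 2
      ≤ (40 * (1 + q * Λ) / κ ^ 2) * ∑ u ∈ F, ∑ v ∈ F.filter (fun v => adj u v),
        (χ v - χ u) ^ 2 * min (Real.exp (2 * (q * h u))) (Real.exp (2 * (q * h v))) := by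
  -- per-pair inequality
  have hpair : ∀ u v, (κ ^ 2 / 8) * (if adj u v then
        (χ v * Real.exp (q * h v) - χ u * Real.exp (q * h u)) ^ 2 else 0)
      - 5 * (1 + q * Λ) * (if adj u v then
        (χ v - χ u) ^ 2 * min (Real.exp (2 * (q * h u))) (Real.exp (2 * (q * h v))) else 0)
      ≤ q * (c u v * (χ v ^ 2 * Real.exp (2 * (q * h v))
      - χ u ^ 2 * Real.exp (2 * (q * h u))) * (h v - h u)) := by
    intro u v
    by_cases had : adj u v
    · rw [if_pos had, if_pos had]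
      by_cases hS : u ∈ S ∨ v ∈ S
      · have hcl' : κ ^ 2 / 4 ≤ c u v := by
          rcases hS with hu | hv
          · exact hcl u hu v had
          · rw [hcs]; exact hcl v hv u (hsym _ _ had)
        have hΛ' : |h v - h u| ≤ Λ := by
          rcases hS with hu | hv
          · exact hΛ u hu v had
          · rw [abs_sub_comm]; exact hΛ v hv u (hsym _ _ had)
        have hp := pointwise (q * h u) (q * h v) (χ u) (χ v) (hχ0 u) (hχ0 v)
        have hm : 0 ≤ min (Real.exp (2 * (q * h u))) (Real.exp (2 * (q * h v))) :=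
          le_min (Real.exp_pos _).le (Real.exp_pos _).le
        have habs : |q * h v - q * h u| ≤ q * Λ := by
          rw [← mul_sub, abs_mul, abs_of_pos hq]
          exact mul_le_mul_of_nonneg_left hΛ' hq.le
        have hp2 := mul_le_mul_of_nonneg_left hp (hc0 u v)
        have s1 : (κ ^ 2 / 4) * (χ v * Real.exp (q * h v) - χ u * Real.exp (q * h u)) ^ 2
            ≤ c u v * (χ v * Real.exp (q * h v) - χ u * Real.exp (q * h u)) ^ 2 :=
          mul_le_mul_of_nonneg_right hcl' (sq_nonneg _)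
        have s2 : c u v * ((1 + |q * h v - q * h u|) * ((χ v - χ u) ^ 2 *
            min (Real.exp (2 * (q * h u))) (Real.exp (2 * (q * h v)))))
            ≤ 1 * ((1 + q * Λ) * ((χ v - χ u) ^ 2 *
            min (Real.exp (2 * (q * h u))) (Real.exp (2 * (q * h v))))) := by
          apply mul_le_mul (hc1 u v) _ _ zero_le_one
          · exact mul_le_mul_of_nonneg_right (by linarith) (mul_nonneg (sq_nonneg _) hm)
          · exact mul_nonneg (by positivity) (mul_nonneg (sq_nonneg _) hm)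
        nlinarith [hp2, s1, s2]
      · push Not at hS
        rw [hχS u hS.1, hχS v hS.2]
        simp
    · rw [if_neg had, if_neg had, hca u v had]
      simp
  have hs := Finset.sum_le_sum (fun u (_ : u ∈ F) =>
    Finset.sum_le_sum (fun v (_ : v ∈ F) => hpair u v))
  simp only [Finset.sum_sub_distrib, ← Finset.mul_sum] at hs
  rw [hsum, mul_zero] at hs
  simp only [Finset.sum_filter]
  have hk : 0 < κ ^ 2 := by positivity
  rw [div_mul_eq_mul_div, le_div_iff₀ hk]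
  linarith

end Pool.Agent.Helper11.Koebe
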