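import Pool.Agent.Helper11.Koebe.Far

namespace Pool.Agent.Helper11.Koebe

open Metric Packing

variable {V : Type} {K : Tri V}

theorem norm_le_of_mem_disc {P : Packing K} {u : V} {p : ℂ} (hp : p ∈ P.disc u) :
    ‖p‖ ≤ ‖P.c u‖ + P.r u := by
  rw [disc, mem_closedBall, dist_eq_norm] at hp
  calc ‖p‖ = ‖P.c u + (p - P.c u)‖ := by congr 1; ring
    _ ≤ ‖P.c u‖ + ‖p - P.c u‖ := norm_add_le _ _
    _ ≤ _ := by linarith

theorem le_norm_of_mem_disc {P : Packing K} {u : V} {p : ℂ} (hp : p ∈ P.disc u) :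
    ‖P.c u‖ - P.r u ≤ ‖p‖ := by
  rw [disc, mem_closedBall, dist_eq_norm] at hp
  have : ‖P.c u‖ ≤ ‖p‖ + ‖p - P.c u‖ := by
    calc ‖P.c u‖ = ‖p - (p - P.c u)‖ := by congr 1; ring
      _ ≤ ‖p‖ + ‖p - P.c u‖ := norm_sub_le _ _
  linarith

theorem disc_meets_sphere (P : Packing K) (u : V) {a : ℝ} (ha : 0 ≤ a)
    (h1 : ‖P.c u‖ - P.r u ≤ a) (h2 : a ≤ ‖P.c u‖ + P.r u) :
    (P.disc u ∩ sphere 0 a).Nonempty := by
  by_cases h0 : P.c u = 0
  · refine ⟨(a : ℂ), ?_, ?_⟩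
    · rw [disc, mem_closedBall, h0, dist_zero_right, Complex.norm_real, Real.norm_of_nonneg ha]
      rw [h0, norm_zero, zero_add] at h2
      exact h2
    · rw [mem_sphere, dist_zero_right, Complex.norm_real, Real.norm_of_nonneg ha]
  · have hn : 0 < ‖P.c u‖ := norm_pos_iff.2 h0
    refine ⟨((a / ‖P.c u‖ : ℝ) : ℂ) * P.c u, ?_, ?_⟩
    · rw [disc, mem_closedBall, dist_eq_norm]
      have : ((a / ‖P.c u‖ : ℝ) : ℂ) * P.c u - P.c u = ((a / ‖P.c u‖ - 1 : ℝ) : ℂ) * P.c u := by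
        push_cast; ring
      rw [this, norm_mul, Complex.norm_real, Real.norm_eq_abs]
      have e : |a / ‖P.c u‖ - 1| * ‖P.c u‖ = |a - ‖P.c u‖| := by
        rw [← abs_of_pos hn, ← abs_mul, abs_of_pos hn]
        congr 1
        field_simp
      rw [e, abs_le]
      constructor <;> linarith
    · rw [mem_sphere, dist_zero_right, norm_mul, Complex.norm_real,
        Real.norm_of_nonneg (by positivity)]
      field_simp

/-- escape lemma -/
theorem escape {P : Packing K} (hP : P.Univalent) (Q : Packing K) {a : ℝ}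
    (hfin : {x | ‖Q.c x‖ - Q.r x ≤ a}.Finite)
    (hint : ∀ x, ‖Q.c x‖ - Q.r x ≤ a → K.Interior x) (γ : Set ℂ) (hγ : IsPreconnected γ) {v1 : V}
    (hv1 : ‖Q.c v1‖ + Q.r v1 < a) (hv1γ : (P.disc v1 ∩ γ).Nonempty)
    (hno : ∀ u, ‖Q.c u‖ - Q.r u ≤ a → a ≤ ‖Q.c u‖ + Q.r u → ¬ (P.disc u ∩ γ).Nonempty) :
    γ ⊆ ⋃ x ∈ {x | ‖Q.c x‖ + Q.r x < a}, P.star x := by
  have hle : ∀ x, ‖Q.c x‖ + Q.r x < a → ‖Q.c x‖ - Q.r x ≤ a := by
    intro x hx
    have := Q.r_pos x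
    linarith
  refine covered hP {x | ‖Q.c x‖ + Q.r x < a} (hfin.subset fun x hx => hle x hx)
    (fun x hx => hint x (hle x hx)) γ hγ v1 hv1 hv1γ ?_
  intro x hx y hxy hyγ
  have hx' : ‖Q.c x‖ + Q.r x < a := hx
  by_contra hy
  have hy' : a ≤ ‖Q.c y‖ + Q.r y := not_lt.1 hy
  have h1 := abs_norm_sub_le Q hxy
  exact hno y (by linarith) hy' hyγ

theorem circle_cover (hK : K.Connected) {P Q : Packing K} (hP : P.Univalent) (hQ : Q.Univalent)
    {a : ℝ} (ha : 0 < a) (hfin : {x | ‖Q.c x‖ - Q.r x ≤ a}.Finite)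
    (hint : ∀ x, ‖Q.c x‖ - Q.r x ≤ a → K.Interior x) {v0 v1 : V}
    (h0 : ‖Q.c v0‖ + Q.r v0 < a) (h0P : P.c v0 = 0) (h1 : ‖Q.c v1‖ + Q.r v1 < a) {w : ℂ}
    (hw : w ∉ P.carrier) {t : ℝ} (ht1 : ‖w‖ ≤ t) (ht2 : t ≤ ‖P.c v1‖ + P.r v1) :
    ∃ u, (‖Q.c u‖ - Q.r u ≤ a ∧ a ≤ ‖Q.c u‖ + Q.r u) ∧
      (‖P.c u‖ - P.r u ≤ t ∧ t ≤ ‖P.c u‖ + P.r u) := by
  have hfin' : {x | ‖Q.c x‖ + Q.r x < a}.Finite := hfin.subset fun x hx => by
    have h2 : ‖Q.c x‖ + Q.r x < a := hx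
    have := Q.r_pos x
    change ‖Q.c x‖ - Q.r x ≤ a
    linarith
  -- first vertex
  have hu1 : ∃ u, (‖Q.c u‖ - Q.r u ≤ a ∧ a ≤ ‖Q.c u‖ + Q.r u) ∧ ‖P.c u‖ - P.r u ≤ t := by
    by_contra hcon
    push Not at hcon
    have := escape hP Q hfin hint (segment ℝ (0 : ℂ) w) (convex_segment _ _).isPreconnected h0
      ⟨0, by rw [← h0P]; exact P.center_mem_disc v0, left_mem_segment _ _ _⟩ (by
        rintro u hu1 hu2 ⟨p, hp, hpγ⟩
        have h2 := hcon u ⟨hu1, hu2⟩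
        have h3 := le_norm_of_mem_disc hp
        have h4 : ‖p‖ ≤ ‖w‖ := by
          rw [segment_eq_image] at hpγ
          obtain ⟨s, ⟨hs0, hs1⟩, rfl⟩ := hpγ
          simp only [smul_zero, zero_add, norm_smul, Real.norm_of_nonneg hs0]
          calc s * ‖w‖ ≤ 1 * ‖w‖ := by gcongr
            _ = ‖w‖ := one_mul _
        linarith)
    have h2 := this (right_mem_segment ℝ (0 : ℂ) w)
    simp only [Set.mem_iUnion] at h2
    obtain ⟨x, _, hx⟩ := h2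
    exact hw (star_subset_carrier x hx)
  -- second vertex
  have hu2 : ∃ u, (‖Q.c u‖ - Q.r u ≤ a ∧ a ≤ ‖Q.c u‖ + Q.r u) ∧ t ≤ ‖P.c u‖ + P.r u := by
    by_contra hcon
    push Not at hcon
    obtain ⟨e, he, hce⟩ : ∃ e : ℂ, ‖e‖ = 1 ∧ P.c v1 = (‖P.c v1‖ : ℂ) * e := by
      by_cases h0 : P.c v1 = 0
      · exact ⟨1, norm_one, by simp [h0]⟩
      · have hn : ‖P.c v1‖ ≠ 0 := norm_ne_zero_iff.2 h0
        have hn' : (‖P.c v1‖ : ℂ) ≠ 0 := by exact_mod_cast hn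
        refine ⟨P.c v1 / (‖P.c v1‖ : ℂ), ?_, ?_⟩
        · rw [norm_div, Complex.norm_real, norm_norm, div_self hn]
        · field_simp
    set M := ‖P.c v1‖ + P.r v1 with hM
    have hr1 := P.r_pos v1
    have hM0 : 0 ≤ M := by positivity
    have hnorm : ∀ s : ℝ, 0 ≤ s → ‖(s : ℂ) * e‖ = s := by
      intro s hs
      rw [norm_mul, he, mul_one, Complex.norm_real, Real.norm_of_nonneg hs]
    have hsub := escape hP Q hfin hint ((fun s : ℝ => (s : ℂ) * e) '' Set.Ici M)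
      (isPreconnected_Ici.image _ (by fun_prop)) h1
      ⟨(M : ℂ) * e, by
        rw [disc, mem_closedBall, dist_eq_norm]
        have : (M : ℂ) * e - P.c v1 = (P.r v1 : ℂ) * e := by
          rw [hM]
          nth_rewrite 2 [hce]
          push_cast
          ring
        rw [this, hnorm _ hr1.le], ⟨M, Set.self_mem_Ici, rfl⟩⟩ (by
        rintro u hu1 hu2 ⟨p, hp, s, hs, rfl⟩
        have h2 := hcon u ⟨hu1, hu2⟩
        have h3 := norm_le_of_mem_disc hp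
        have hs' : M ≤ s := hs
        simp only at h3
        rw [hnorm s (by linarith)] at h3
        linarith)
    have hb : IsCompact (⋃ x ∈ {x | ‖Q.c x‖ + Q.r x < a}, P.star x) :=
      hfin'.isCompact_biUnion fun x _ => star_compact x
    obtain ⟨B, hB⟩ := hb.isBounded.exists_norm_le
    have h3 := hB _ (hsub ⟨max M (B+1), le_max_left M (B+1), rfl⟩)
    simp only at h3
    rw [hnorm _ (hM0.trans (le_max_left _ _))] at h3
    have := le_max_right M (B+1)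
    linarith
  obtain ⟨u1, hu1a, hu1t⟩ := hu1
  obtain ⟨u2, hu2a, hu2t⟩ := hu2
  by_contra hcon
  push Not at hcon
  have hM1 : ‖P.c u1‖ + P.r u1 < t := by
    by_contra h
    exact absurd (hcon u1 hu1a hu1t) (by linarith)
  have hm2 : t < ‖P.c u2‖ - P.r u2 := by
    by_contra h
    exact absurd (hcon u2 hu2a (not_lt.1 h)) (by linarith)
  have hsph : IsPreconnected (sphere (0 : ℂ) a) :=
    isPreconnected_sphere (by rw [Complex.rank_real_complex]; exact Cardinal.one_lt_two) 0 a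
  have hcov := covered hQ {u | (‖Q.c u‖ - Q.r u ≤ a ∧ a ≤ ‖Q.c u‖ + Q.r u) ∧
      ‖P.c u‖ + P.r u < t} (hfin.subset fun x hx => hx.1.1) (fun x hx => hint x hx.1.1)
      (sphere 0 a) hsph u1 ⟨hu1a, hM1⟩ (disc_meets_sphere Q u1 ha.le hu1a.1 hu1a.2) (by
      rintro x ⟨hxa, hxt⟩ y hxy ⟨p, hp, hpa⟩
      rw [mem_sphere, dist_zero_right] at hpa
      have h3 := norm_le_of_mem_disc hp
      have h4 := le_norm_of_mem_disc hp
      have hya : ‖Q.c y‖ - Q.r y ≤ a ∧ a ≤ ‖Q.c y‖ + Q.r y := ⟨by linarith, by linarith⟩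
      refine ⟨hya, ?_⟩
      obtain ⟨q, hq1, hq2⟩ := P.touch hxy
      have h5 := norm_le_of_mem_disc hq1
      have h6 := le_norm_of_mem_disc hq2
      by_contra h
      exact absurd (hcon y hya (by linarith)) (by linarith))
  obtain ⟨p, hp, hpa⟩ := disc_meets_sphere Q u2 ha.le hu2a.1 hu2a.2
  have h2 := hcov hpa
  simp only [Set.mem_iUnion] at h2
  obtain ⟨x, ⟨hxa, hxt⟩, hx⟩ := h2
  rcases adj_of_meet_star hK hQ hp hx with h3 | h3
  · rw [h3] at hu2t; linarith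
  · obtain ⟨q, hq1, hq2⟩ := P.touch h3
    have h5 := norm_le_of_mem_disc hq1
    have h6 := le_norm_of_mem_disc hq2
    linarith

end Pool.Agent.Helper11.Koebe
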