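import Pool.Agent.Helper11.Koebe.Defs

namespace Pool.Agent.Helper11.Koebe

section rel

variable {V : Type*} {L : V → V → Prop}

theorem cycle_mod {n : ℕ} {b : ℕ → V} (hper : ∀ i, b (i + n) = b i) (i : ℕ) :
    b (i % n) = b i := by
  have key : ∀ k j, b (j + n * k) = b j := by
    intro k
    induction k with
    | zero => intro j; simp
    | succ k ih => intro j; rw [Nat.mul_succ, ← add_assoc, hper, ih]
  conv_rhs => rw [← Nat.mod_add_div i n]
  rw [key]

theorem cycle_eq_iff {n : ℕ} {b : ℕ → V} (hn : 3 ≤ n) (hper : ∀ i, b (i + n) = b i)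
    (hinj : Set.InjOn b (Set.Iio n)) (i j : ℕ) : b i = b j ↔ i % n = j % n := by
  constructor
  · intro h
    rw [← cycle_mod hper i, ← cycle_mod hper j] at h
    exact hinj (Nat.mod_lt _ (by omega)) (Nat.mod_lt _ (by omega)) h
  · intro h
    rw [← cycle_mod hper i, ← cycle_mod hper j, h]

theorem cyc_succ_unique (h : CycleRel L) {x y z : V} (h1 : L x y) (h2 : L x z) : y = z := by
  obtain ⟨n, hn, b, hper, hinj, hL⟩ := h
  obtain ⟨i, hi, hi'⟩ := (hL _ _).1 h1
  obtain ⟨j, hj, hj'⟩ := (hL _ _).1 h2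
  rw [← hi', ← hj', cycle_eq_iff hn hper hinj]
  have := (cycle_eq_iff hn hper hinj i j).1 (hi.trans hj.symm)
  exact Nat.ModEq.add_right 1 this

theorem cyc_pred_unique (h : CycleRel L) {x y z : V} (h1 : L y x) (h2 : L z x) : y = z := by
  obtain ⟨n, hn, b, hper, hinj, hL⟩ := h
  obtain ⟨i, hi, hi'⟩ := (hL _ _).1 h1
  obtain ⟨j, hj, hj'⟩ := (hL _ _).1 h2
  rw [← hi, ← hj, cycle_eq_iff hn hper hinj]
  have := (cycle_eq_iff hn hper hinj (i+1) (j+1)).1 (hi'.trans hj'.symm)
  exact Nat.ModEq.add_right_cancel' 1 this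

theorem path_succ_unique (h : PathRel L) {x y z : V} (h1 : L x y) (h2 : L x z) : y = z := by
  obtain ⟨n, hn, b, hinj, hL⟩ := h
  obtain ⟨i, hin, hi, hi'⟩ := (hL _ _).1 h1
  obtain ⟨j, hjn, hj, hj'⟩ := (hL _ _).1 h2
  have : i = j := hinj (by simp; omega) (by simp; omega) (hi.trans hj.symm)
  subst this
  exact hi'.symm.trans hj'

theorem path_pred_unique (h : PathRel L) {x y z : V} (h1 : L y x) (h2 : L z x) : y = z := by
  obtain ⟨n, hn, b, hinj, hL⟩ := h
  obtain ⟨i, hin, hi, hi'⟩ := (hL _ _).1 h1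
  obtain ⟨j, hjn, hj, hj'⟩ := (hL _ _).1 h2
  have : i + 1 = j + 1 := hinj (by simp; omega) (by simp; omega) (hi'.trans hj'.symm)
  have : i = j := by omega
  subst this
  exact hi.symm.trans hj

theorem cyc_ne (h : CycleRel L) {x y : V} (h1 : L x y) : x ≠ y := by
  obtain ⟨n, hn, b, hper, hinj, hL⟩ := h
  obtain ⟨i, hi, hi'⟩ := (hL _ _).1 h1
  intro hxy
  have := (cycle_eq_iff hn hper hinj i (i+1)).1 (hi.trans (hxy.trans hi'.symm))
  have h3 : (i + 0) % n = (i + 1) % n := by simpa using this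
  have h4 : 0 % n = 1 % n := Nat.ModEq.add_left_cancel' i h3
  rw [Nat.zero_mod, Nat.mod_eq_of_lt (by omega)] at h4
  omega

theorem path_ne (h : PathRel L) {x y : V} (h1 : L x y) : x ≠ y := by
  obtain ⟨n, hn, b, hinj, hL⟩ := h
  obtain ⟨i, hin, hi, hi'⟩ := (hL _ _).1 h1
  intro hxy
  have := hinj (by simp; omega) (by simp; omega) (hi.trans (hxy.trans hi'.symm))
  omega

theorem cyc_asymm (h : CycleRel L) {x y : V} (h1 : L x y) : ¬ L y x := by
  obtain ⟨n, hn, b, hper, hinj, hL⟩ := h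
  intro h2
  obtain ⟨i, hi, hi'⟩ := (hL _ _).1 h1
  obtain ⟨j, hj, hj'⟩ := (hL _ _).1 h2
  have e1 := (cycle_eq_iff hn hper hinj (i+1) j).1 (hi'.trans hj.symm)
  have e2 := (cycle_eq_iff hn hper hinj i (j+1)).1 (hi.trans hj'.symm)
  have e3 : (i + 1 + 1) % n = (j + 1) % n := Nat.ModEq.add_right 1 e1
  have e4 : (i + 2) % n = (i + 0) % n := by rw [show i + 2 = i + 1 + 1 by ring, e3, ← e2]; simp
  have h4 : 2 % n = 0 % n := Nat.ModEq.add_left_cancel' i e4
  rw [Nat.zero_mod, Nat.mod_eq_of_lt (by omega)] at h4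
  omega

theorem path_asymm (h : PathRel L) {x y : V} (h1 : L x y) : ¬ L y x := by
  obtain ⟨n, hn, b, hinj, hL⟩ := h
  intro h2
  obtain ⟨i, hin, hi, hi'⟩ := (hL _ _).1 h1
  obtain ⟨j, hjn, hj, hj'⟩ := (hL _ _).1 h2
  have e1 := hinj (by simp; omega) (by simp; omega) (hi'.trans hj.symm)
  have e2 := hinj (by simp; omega) (by simp; omega) (hi.trans hj'.symm)
  omega

/-- propagation of a property around a link -/
theorem cyc_prop (h : CycleRel L) {b0 c0 : V} (hbc : L b0 c0) (p : V → Prop)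
    (h1 : ∀ c', L c0 c' → p c') (h2 : ∀ x y, L x y → x ≠ b0 → x ≠ c0 → y ≠ b0 → y ≠ c0 → p x → p y)
    (x : V) (hx : ∃ y, L x y ∨ L y x) (hxb : x ≠ b0) (hxc : x ≠ c0) : p x := by
  obtain ⟨n, hn, b, hper, hinj, hL⟩ := h
  obtain ⟨i, hi, hi'⟩ := (hL _ _).1 hbc
  have hne : ∀ k, k % n ≠ i % n → b k ≠ b0 := by
    intro k hk hk'
    exact hk ((cycle_eq_iff hn hper hinj k i).1 (hk'.trans hi.symm))
  have hne' : ∀ k, k % n ≠ (i+1) % n → b k ≠ c0 := by
    intro k hk hk'
    exact hk ((cycle_eq_iff hn hper hinj k (i+1)).1 (hk'.trans hi'.symm))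
  have hmod : ∀ k, k < n → k ≠ 0 → (i + k) % n ≠ i % n := by
    intro k hk hk0 e
    have : (i + k) % n = (i + 0) % n := by simpa using e
    have h4 : k % n = 0 % n := Nat.ModEq.add_left_cancel' i this
    rw [Nat.zero_mod, Nat.mod_eq_of_lt hk] at h4
    exact hk0 h4
  have hmod' : ∀ k, k < n → k ≠ 1 → (i + k) % n ≠ (i+1) % n := by
    intro k hk hk0 e
    have h4 : k % n = 1 % n := Nat.ModEq.add_left_cancel' i e
    rw [Nat.mod_eq_of_lt (by omega : 1 < n), Nat.mod_eq_of_lt hk] at h4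
    exact hk0 h4
  have main : ∀ k, k + 2 < n → p (b (i + 2 + k)) := by
    intro k
    induction k with
    | zero =>
      intro _
      exact h1 _ ((hL _ _).2 ⟨i+1, hi', by simp [add_assoc]⟩)
    | succ k ih =>
      intro hk
      have e : i + 2 + (k + 1) = i + (k + 3) := by ring
      have e' : i + 2 + k = i + (k + 2) := by ring
      refine h2 (b (i + 2 + k)) _ ((hL _ _).2 ⟨i + 2 + k, rfl, rfl⟩) ?_ ?_ ?_ ?_ (ih (by omega))
      · rw [e']; exact hne _ (hmod _ (by omega) (by omega))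
      · rw [e']; exact hne' _ (hmod' _ (by omega) (by omega))
      · rw [e]; exact hne _ (hmod _ (by omega) (by omega))
      · rw [e]; exact hne' _ (hmod' _ (by omega) (by omega))
  have hxj : ∃ j, b j = x := by
    obtain ⟨y, hy | hy⟩ := hx
    · obtain ⟨j, hj, _⟩ := (hL _ _).1 hy; exact ⟨j, hj⟩
    · obtain ⟨j, _, hj⟩ := (hL _ _).1 hy; exact ⟨j+1, hj⟩
  obtain ⟨j, hj⟩ := hxj
  -- choose the representative of `j` in `[i, i+n)`
  obtain ⟨k, hk, hjk⟩ : ∃ k < n, (i + k) % n = j % n := by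
    refine ⟨(j + (n - i % n)) % n, Nat.mod_lt _ (by omega), ?_⟩
    have hi0 : i % n < n := Nat.mod_lt _ (by omega)
    have : (i + (j + (n - i % n)) % n) % n = (i % n + (j + (n - i % n))) % n := by
      simp [Nat.add_mod]
    rw [this, show i % n + (j + (n - i % n)) = j + n by omega, Nat.add_mod_right]
  have hbk : b (i + k) = x := by
    rw [← hj]; exact (cycle_eq_iff hn hper hinj _ _).2 hjk
  have hk0 : k ≠ 0 := by
    rintro rfl; exact hxb (by rw [← hbk]; simpa using hi)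
  have hk1 : k ≠ 1 := by
    rintro rfl; exact hxc (by rw [← hbk]; exact hi')
  have := main (k - 2) (by omega)
  rw [show i + 2 + (k - 2) = i + k by omega, hbk] at this
  exact this

theorem path_prop (h : PathRel L) {b0 c0 : V} (hbc : L b0 c0) (p : V → Prop)
    (h1 : ∀ c', L c0 c' → p c') (h1' : ∀ b', L b' b0 → p b')
    (h2 : ∀ x y, L x y → x ≠ b0 → x ≠ c0 → y ≠ b0 → y ≠ c0 → (p x ↔ p y))
    (x : V) (hx : ∃ y, L x y ∨ L y x) (hxb : x ≠ b0) (hxc : x ≠ c0) : p x := by
  obtain ⟨n, hn, b, hinj, hL⟩ := h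
  obtain ⟨i, hin, hi, hi'⟩ := (hL _ _).1 hbc
  have hne : ∀ k ≤ n, k ≠ i → b k ≠ b0 := by
    intro k hkn hk hk'
    exact hk (hinj hkn (by simp; omega) (hk'.trans hi.symm))
  have hne' : ∀ k ≤ n, k ≠ i+1 → b k ≠ c0 := by
    intro k hkn hk hk'
    exact hk (hinj hkn (by simp; omega) (hk'.trans hi'.symm))
  have main : ∀ k, i + 2 + k ≤ n → p (b (i + 2 + k)) := by
    intro k
    induction k with
    | zero =>
      intro hk
      exact h1 _ ((hL _ _).2 ⟨i+1, by omega, hi', by simp [add_assoc]⟩)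
    | succ k ih =>
      intro hk
      refine (h2 (b (i + 2 + k)) _ ((hL _ _).2 ⟨i + 2 + k, by omega, rfl, rfl⟩) ?_ ?_ ?_ ?_).1
        (ih (by omega))
      · exact hne _ (by omega) (by omega)
      · exact hne' _ (by omega) (by omega)
      · exact hne _ (by omega) (by omega)
      · exact hne' _ (by omega) (by omega)
  have main' : ∀ k, k + 1 ≤ i → p (b (i - 1 - k)) := by
    intro k
    induction k with
    | zero =>
      intro hk
      refine h1' _ ((hL _ _).2 ⟨i-1, by omega, by simp, ?_⟩)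
      rw [← hi]; congr 1; omega
    | succ k ih =>
      intro hk
      have e : i - 1 - (k+1) + 1 = i - 1 - k := by omega
      refine (h2 _ (b (i - 1 - k)) ((hL _ _).2 ⟨i - 1 - (k+1), by omega, rfl, by rw [e]⟩)
        ?_ ?_ ?_ ?_).2 (ih (by omega))
      · exact hne _ (by omega) (by omega)
      · exact hne' _ (by omega) (by omega)
      · exact hne _ (by omega) (by omega)
      · exact hne' _ (by omega) (by omega)
  have hxj : ∃ j ≤ n, b j = x := by
    obtain ⟨y, hy | hy⟩ := hx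
    · obtain ⟨j, hjn, hj, _⟩ := (hL _ _).1 hy; exact ⟨j, by omega, hj⟩
    · obtain ⟨j, hjn, _, hj⟩ := (hL _ _).1 hy; exact ⟨j+1, by omega, hj⟩
  obtain ⟨j, hjn, hj⟩ := hxj
  have hji : j ≠ i := by rintro rfl; exact hxb (hj.symm.trans hi)
  have hji' : j ≠ i + 1 := by rintro rfl; exact hxc (hj.symm.trans hi')
  rcases lt_or_gt_of_ne hji with h | h
  · have := main' (i - 1 - j) (by omega)
    rw [show i - 1 - (i - 1 - j) = j by omega, hj] at this
    exact this
  · have := main (j - (i + 2)) (by omega)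
    rw [show i + 2 + (j - (i+2)) = j by omega, hj] at this
    exact this

theorem rel_finite (h : CycleRel L ∨ PathRel L) : {x | ∃ y, L x y ∨ L y x}.Finite := by
  rcases h with h | h
  · obtain ⟨n, hn, b, hper, hinj, hL⟩ := h
    refine ((Set.finite_Iio n).image b).subset ?_
    rintro x ⟨y, hy | hy⟩
    · obtain ⟨i, hi, _⟩ := (hL _ _).1 hy
      exact ⟨i % n, Nat.mod_lt _ (by omega), by rw [cycle_mod hper, hi]⟩
    · obtain ⟨i, _, hi⟩ := (hL _ _).1 hy
      exact ⟨(i+1) % n, Nat.mod_lt _ (by omega), by rw [cycle_mod hper, hi]⟩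
  · obtain ⟨n, hn, b, hinj, hL⟩ := h
    refine ((Set.finite_Iic n).image b).subset ?_
    rintro x ⟨y, hy | hy⟩
    · obtain ⟨i, hin, hi, _⟩ := (hL _ _).1 hy
      exact ⟨i, by simp; omega, hi⟩
    · obtain ⟨i, hin, _, hi⟩ := (hL _ _).1 hy
      exact ⟨i+1, by simp; omega, hi⟩

end rel

namespace Tri

variable {V : Type*} (K : Tri V)

variable {K}

theorem succ_unique {a x y z : V} (h1 : K.face a x y) (h2 : K.face a x z) : y = z := by
  rcases K.link a with h | h
  · exact cyc_succ_unique h h1 h2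
  · exact path_succ_unique h h1 h2

theorem pred_unique {a x y z : V} (h1 : K.face a y x) (h2 : K.face a z x) : y = z := by
  rcases K.link a with h | h
  · exact cyc_pred_unique h h1 h2
  · exact path_pred_unique h h1 h2

theorem face_ne23 {a x y : V} (h1 : K.face a x y) : x ≠ y := by
  rcases K.link a with h | h
  · exact cyc_ne h h1
  · exact path_ne h h1

theorem face_ne12 {a x y : V} (h1 : K.face a x y) : a ≠ x :=
  face_ne23 (K.rot _ _ _ (K.rot _ _ _ h1))

theorem face_ne13 {a x y : V} (h1 : K.face a x y) : a ≠ y :=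
  (face_ne23 (K.rot _ _ _ h1)).symm

theorem face_asymm {a x y : V} (h1 : K.face a x y) : ¬ K.face a y x := by
  rcases K.link a with h | h
  · exact cyc_asymm h h1
  · exact path_asymm h h1

theorem adj_symm {u v : V} (h : K.Adj u v) : K.Adj v u := by
  obtain ⟨w, h | h⟩ := h
  · exact ⟨w, Or.inr h⟩
  · exact ⟨w, Or.inl h⟩

theorem adj_ne {u v : V} (h : K.Adj u v) : u ≠ v := by
  obtain ⟨w, h | h⟩ := h
  · exact face_ne12 h
  · exact (face_ne12 h).symm

theorem adj12 {a x y : V} (h : K.face a x y) : K.Adj a x := ⟨y, Or.inl h⟩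

theorem adj13 {a x y : V} (h : K.face a x y) : K.Adj a y :=
  ⟨x, Or.inr (K.rot _ _ _ (K.rot _ _ _ h))⟩

theorem adj23 {a x y : V} (h : K.face a x y) : K.Adj x y := adj12 (K.rot _ _ _ h)

theorem adj_iff {a x : V} : K.Adj a x ↔ ∃ y, K.face a x y ∨ K.face a y x := by
  constructor
  · rintro ⟨w, h | h⟩
    · exact ⟨w, Or.inl h⟩
    · exact ⟨w, Or.inr (K.rot _ _ _ h)⟩
  · rintro ⟨w, h | h⟩
    · exact ⟨w, Or.inl h⟩
    · exact adj13 h

theorem nbrs_finite (a : V) : {x | K.Adj a x}.Finite := by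
  have := rel_finite (K.link a)
  refine this.subset ?_
  intro x hx
  exact adj_iff.1 hx

/-- propagation around the link of `a`, starting from the face `a b c` -/
theorem link_prop {a b c : V} (hf : K.face a b c) (p : V → Prop)
    (h1 : ∀ c', K.face a c c' → p c') (h1' : ∀ b', K.face a b' b → p b')
    (h2 : ∀ x y, K.face a x y → x ≠ b → x ≠ c → y ≠ b → y ≠ c → (p x ↔ p y))
    (x : V) (hx : K.Adj a x) (hxb : x ≠ b) (hxc : x ≠ c) : p x := by
  rcases K.link a with h | h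
  · exact cyc_prop h hf p h1 (fun x y hxy a1 a2 a3 a4 => (h2 x y hxy a1 a2 a3 a4).1) x
      (adj_iff.1 hx) hxb hxc
  · exact path_prop h hf p h1 h1' h2 x (adj_iff.1 hx) hxb hxc

end Tri

end Pool.Agent.Helper11.Koebe
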