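import Pool.Agent.Helper11.Koebe.Ring

namespace Pool.Agent.Helper11.Koebe

open Metric Packing

/-- interior discs other than the one at the origin are small compared with their distance -/
theorem center_far {V : Type} {K : Tri V} (hK : K.Connected) (P : Packing K)
    (hP : P.Univalent) {κ : ℝ} (hκ0 : 0 < κ) (hκ1 : κ ≤ 1) {v0 u : V} (h0 : P.c v0 = 0)
    (hu : K.Interior u) (hne : u ≠ v0) (hring : ∀ b, K.Adj u b → κ * P.r u ≤ P.r b) :
    (1 + κ / 2) * P.r u ≤ ‖P.c u‖ := by
  have hru := P.r_pos u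
  by_cases hadj : K.Adj u v0
  · have h1 := P.tangent _ _ hadj
    rw [h0, dist_zero_right] at h1
    have h2 := hring v0 hadj
    rw [h1]
    nlinarith
  · have h1 : (0 : ℂ) ∉ P.star u := by
      intro h
      have h2 : (0 : ℂ) ∈ P.disc v0 := by rw [← h0]; exact P.center_mem_disc v0
      rcases adj_of_meet_star hK hP h2 h with h3 | h3
      · exact hne h3.symm
      · exact hadj h3
    have h2 := ball_subset_star' (P := P) hu (m := κ * P.r u) (by positivity) hring
    have h3 : (0 : ℂ) ∉ ball (P.c u) (Real.sqrt ((P.r u) ^ 2 + 2 * P.r u * (κ * P.r u))) :=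
      fun h => h1 (h2 h)
    rw [mem_ball, dist_comm, dist_zero_right, not_lt] at h3
    refine le_trans ?_ h3
    apply Real.le_sqrt_of_sq_le
    have : 0 ≤ κ * (P.r u) ^ 2 := by positivity
    nlinarith [mul_nonneg (mul_nonneg hκ0.le (sub_nonneg.2 hκ1)) (sq_nonneg (P.r u))]

/-- the disc of a vertex different from `v0` does not contain the centre of `v0` -/
theorem norm_ge_of_ne {V : Type} {K : Tri V} (P : Packing K) (hP : P.Univalent) {v0 u : V}
    (h0 : P.c v0 = 0) (hne : u ≠ v0) : P.r u + P.r v0 ≤ ‖P.c u‖ := by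
  have := sep hP hne
  rwa [h0, dist_zero_right] at this

theorem abs_norm_sub_le {V : Type} {K : Tri V} (P : Packing K) {u v : V} (h : K.Adj u v) :
    ‖P.c v‖ ≤ ‖P.c u‖ + (P.r u + P.r v) := by
  rw [← P.tangent _ _ h, dist_eq_norm]
  calc ‖P.c v‖ = ‖P.c u - (P.c u - P.c v)‖ := by congr 1; ring
    _ ≤ ‖P.c u‖ + ‖P.c u - P.c v‖ := norm_sub_le _ _

end Pool.Agent.Helper11.Koebe
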