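import Pool.Agent.Helper11.Koebe.Far
import Pool.Agent.Helper11.Koebe.Meas

namespace Pool.Agent.Helper11.Koebe

open Metric Packing

/-- TARGET: local finiteness in the infinite case -/
theorem locally_finite {V : Type} {K : Tri V} (hK : K.Connected) (Q : Packing K)
    (hQ : Q.Univalent) (hint : ∀ v, K.Interior v) (hcarr : Q.carrier = Metric.ball 0 1)
    (ρ : ℝ) (hρ0 : 0 ≤ ρ) (hρ : ρ < 1) : {v | ‖Q.c v‖ - Q.r v ≤ ρ}.Finite := by
  have hcov : Metric.closedBall (0 : ℂ) ρ ⊆ ⋃ v, interior (Q.star v) := by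
    intro p hp
    have hp1 : p ∈ Metric.ball (0 : ℂ) 1 := Metric.closedBall_subset_ball hρ hp
    rw [← hcarr] at hp1
    obtain ⟨u, v, w, hf, hpt⟩ := hp1
    have hpt : p ∈ Q.tri u v w := hpt
    rw [Set.mem_iUnion]
    rcases Packing.interior_or_disc hf hpt with h | h | h | h
    · exact ⟨u, interior_mono (Packing.tri_subset_star hf) h⟩
    · exact ⟨u, Packing.disc_subset_interior_star hQ (hint u) h⟩
    · exact ⟨v, Packing.disc_subset_interior_star hQ (hint v) h⟩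
    · exact ⟨w, Packing.disc_subset_interior_star hQ (hint w) h⟩
  obtain ⟨W, hW⟩ := (isCompact_closedBall (0 : ℂ) ρ).elim_finite_subcover
    (fun v => interior (Q.star v)) (fun v => isOpen_interior) hcov
  have hfin : ((W : Set V) ∪ ⋃ x ∈ W, {y | K.Adj x y}).Finite := by
    apply W.finite_toSet.union
    exact W.finite_toSet.biUnion (fun x _ => Tri.nbrs_finite x)
  apply hfin.subset
  intro v hv
  have hv : ‖Q.c v‖ - Q.r v ≤ ρ := hv
  obtain ⟨p, hp1, hp2⟩ : ∃ p, p ∈ Q.disc v ∧ p ∈ Metric.closedBall (0 : ℂ) ρ := by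
    by_cases hc : ‖Q.c v‖ ≤ ρ
    · exact ⟨Q.c v, Packing.center_mem_disc Q v, by rw [mem_closedBall_zero_iff]; exact hc⟩
    · push Not at hc
      have hcpos : 0 < ‖Q.c v‖ := lt_of_le_of_lt hρ0 hc
      refine ⟨((ρ / ‖Q.c v‖ : ℝ) : ℂ) * Q.c v, ?_, ?_⟩
      · have h1 : ((ρ / ‖Q.c v‖ : ℝ) : ℂ) * Q.c v - Q.c v = ((ρ / ‖Q.c v‖ - 1 : ℝ) : ℂ) * Q.c v := by
          push_cast; ring
        unfold Packing.disc
        rw [Metric.mem_closedBall, dist_eq_norm, h1, norm_mul, Complex.norm_real, Real.norm_eq_abs]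
        have h2 : ρ / ‖Q.c v‖ - 1 ≤ 0 := by
          rw [sub_nonpos, div_le_one hcpos]; exact hc.le
        rw [abs_of_nonpos h2]
        have h3 : -(ρ / ‖Q.c v‖ - 1) * ‖Q.c v‖ = ‖Q.c v‖ - ρ := by
          field_simp
          ring
        rw [h3]; linarith
      · rw [mem_closedBall_zero_iff, norm_mul, Complex.norm_real, Real.norm_eq_abs,
          abs_of_nonneg (div_nonneg hρ0 hcpos.le), div_mul_cancel₀ _ hcpos.ne']
  have hp3 := hW hp2
  rw [Set.mem_iUnion₂] at hp3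
  obtain ⟨x, hx, hpx⟩ := hp3
  rcases Packing.adj_of_meet_star hK hQ hp1 (interior_subset hpx) with h | h
  · left
    rw [h]
    exact hx
  · right
    rw [Set.mem_iUnion₂]
    exact ⟨x, hx, h⟩

end Pool.Agent.Helper11.Koebe
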