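import Pool.Agent.Helper11.Koebe.Circle
import Pool.Agent.Helper11.Koebe.RingLemma

namespace Pool.Agent.Helper11.Koebe

open Metric Packing

/-- length-area step: if a point close to the origin is omitted by the carrier of `P`, then all
discs of `P` corresponding to central discs of `Q` are close to the origin. -/
theorem partB (d : ℕ) (ρ0 : ℝ) (hρ0 : 0 < ρ0) : ∃ C : ℝ, 0 < C ∧ ∀ (V : Type) (K : Tri V),
    K.Connected → (∀ v, {w | K.Adj v w}.encard ≤ d) → ∀ Q P : Packing K, Q.Univalent →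
    P.Univalent → (∀ v, ‖Q.c v‖ + Q.r v ≤ 1) → {x | ‖Q.c x‖ - Q.r x ≤ ρ0}.Finite →
    (∀ x, ‖Q.c x‖ - Q.r x ≤ ρ0 → K.Interior x) → ∀ v0, Q.c v0 = 0 → P.c v0 = 0 →
    Q.r v0 < ρ0 / 8 → ∀ w, w ∉ P.carrier → ∀ v1, ‖Q.c v1‖ < ρ0 / 8 →
    ‖P.c v1‖ + P.r v1 ≤ C * ‖w‖ := by
  classical
  obtain ⟨κ, hκ0, hκ1, hring⟩ := ring_lemma d
  obtain ⟨C0, hC0, hlog⟩ := log_len_sq (κ / 2) (by positivity)
  set A := 16 * C0 / ρ0 ^ 2 with hA
  have hA0 : 0 < A := by positivity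
  refine ⟨Real.exp (A + 1), Real.exp_pos _, ?_⟩
  intro V K hK hdeg Q P hQ hP hQ1 hfin hint v0 hQ0 hP0 hr0 w hw v1 hv1
  have hv0int : K.Interior v0 := hint v0 (by
    rw [hQ0, norm_zero]; have := Q.r_pos v0; linarith)
  have hw0 : 0 < ‖w‖ := by
    rw [norm_pos_iff]
    rintro rfl
    apply hw
    apply star_subset_carrier v0
    apply disc_subset_star hP hv0int
    have := P.center_mem_disc v0
    rwa [hP0] at this
  set R := ‖P.c v1‖ + P.r v1 with hR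
  have hexp1 : 1 ≤ Real.exp (A + 1) := Real.one_le_exp (by positivity)
  rcases le_or_gt R ‖w‖ with hRw | hRw
  · calc R ≤ 1 * ‖w‖ := by rw [one_mul]; exact hRw
      _ ≤ _ := by gcongr
  set s := ‖w‖ with hs
  set L := Real.log R - Real.log s with hL
  have hR0 : 0 < R := hw0.trans hRw
  set F := hfin.toFinset.filter
    (fun u => u ≠ v0 ∧ s ≤ ‖P.c u‖ + P.r u ∧ ‖P.c u‖ - P.r u ≤ R) with hF
  have hFmem : ∀ u, u ∈ F ↔ ‖Q.c u‖ - Q.r u ≤ ρ0 ∧ u ≠ v0 ∧ s ≤ ‖P.c u‖ + P.r u ∧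
      ‖P.c u‖ - P.r u ≤ R := by
    intro u
    rw [hF, Finset.mem_filter, Set.Finite.mem_toFinset]
    rfl
  have hfar : ∀ u ∈ F, (1 + κ / 2) * P.r u ≤ ‖P.c u‖ := by
    intro u hu
    obtain ⟨h1, h2, _, _⟩ := (hFmem u).1 hu
    exact center_far hK P hP hκ0 hκ1 hP0 (hint u h1) h2
      (fun b hb => hring V K hK P hP u (hint u h1) (hdeg u) b hb)
  have hmpos : ∀ u ∈ F, 0 < ‖P.c u‖ - P.r u := by
    intro u hu
    have h1 := hfar u hu
    have h2 := P.r_pos u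
    nlinarith [mul_pos hκ0 h2]
  set l : V → ℝ := fun u => Real.log (‖P.c u‖ + P.r u) - Real.log (‖P.c u‖ - P.r u) with hl
  have hl0 : ∀ u ∈ F, 0 ≤ l u := by
    intro u hu
    have h1 := hmpos u hu
    have h2 := P.r_pos u
    have : Real.log (‖P.c u‖ - P.r u) ≤ Real.log (‖P.c u‖ + P.r u) :=
      Real.log_le_log h1 (by linarith)
    simp only [hl]
    linarith
  have hmain := interval_avg F (fun u => ‖Q.c u‖ - Q.r u) (fun u => ‖Q.c u‖ + Q.r u) l hl0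
    (fun u _ => by have := Q.r_pos u; linarith) (ρ0 / 2) ρ0 L (by linarith) (by
      intro t ht
      have ht1 := ht.1
      have ht2 := ht.2
      refine cover_len (F.filter (fun u => ‖Q.c u‖ - Q.r u ≤ t ∧ t ≤ ‖Q.c u‖ + Q.r u))
        (fun u => ‖P.c u‖ - P.r u) (fun u => ‖P.c u‖ + P.r u)
        (fun u hu => hmpos u (Finset.mem_filter.1 hu).1)
        (fun u _ => by have := P.r_pos u; linarith) s R hw0 ?_ hR0
      intro τ hτ
      have hτ1 := hτ.1
      have hτ2 := hτ.2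
      have h1t : ‖Q.c v1‖ + Q.r v1 < t := by
        by_cases h : v1 = v0
        · rw [h, hQ0, norm_zero, zero_add]; linarith
        · have := norm_ge_of_ne Q hQ hQ0 h
          have := Q.r_pos v0
          linarith
      obtain ⟨u, hu1, hu2⟩ := circle_cover hK hP hQ (a := t) (by linarith)
        (hfin.subset fun x hx => le_trans hx ht2.le) (fun x hx => hint x (le_trans hx ht2.le))
        (v0 := v0) (v1 := v1) (by rw [hQ0, norm_zero, zero_add]; linarith) hP0 h1t hw hτ1 hτ2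
      refine ⟨u, Finset.mem_filter.2 ⟨(hFmem u).2 ⟨hu1.1.trans ht2.le, ?_, ?_, ?_⟩, hu1⟩, hu2⟩
      · rintro rfl
        have := hu1.2
        rw [hQ0, norm_zero, zero_add] at this
        linarith
      · exact hτ1.trans hu2.2
      · exact hu2.1.trans hτ2)
  have hsq := hlog V F P.c P.r s R hw0 hRw.le (fun u _ => P.r_pos u)
    (fun i _ j _ hij => sep hP hij) hfar
    (fun u hu => ((hFmem u).1 hu).2.2.1) (fun u hu => ((hFmem u).1 hu).2.2.2)
  rw [Real.log_div hR0.ne' hw0.ne'] at hsq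
  have harea := area_le F Q.c Q.r (fun u _ => Q.r_pos u) (fun i _ j _ hij => sep hQ hij) 0 1
    zero_le_one (fun u _ => by rw [dist_zero_right]; exact hQ1 u)
  have hcs : (∑ u ∈ F, l u * (‖Q.c u‖ + Q.r u - (‖Q.c u‖ - Q.r u))) ^ 2 ≤
      4 * ((∑ u ∈ F, l u ^ 2) * ∑ u ∈ F, Q.r u ^ 2) := by
    have e1 : ∑ u ∈ F, l u * (‖Q.c u‖ + Q.r u - (‖Q.c u‖ - Q.r u)) =
        2 * ∑ u ∈ F, l u * Q.r u := by
      rw [Finset.mul_sum]
      exact Finset.sum_congr rfl fun u _ => by ring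
    rw [e1, mul_pow]
    have := Finset.sum_mul_sq_le_sq_mul_sq F l Q.r
    linarith
  have hL0 : 0 ≤ L := by
    rw [hL]
    have := Real.log_le_log hw0 hRw.le
    linarith
  have hl2 : 0 ≤ ∑ u ∈ F, l u ^ 2 := Finset.sum_nonneg fun u _ => sq_nonneg _
  have hfinal : (L * (ρ0 - ρ0 / 2)) ^ 2 ≤ 4 * (C0 * (L + 1)) := by
    calc (L * (ρ0 - ρ0 / 2)) ^ 2
        ≤ (∑ u ∈ F, l u * (‖Q.c u‖ + Q.r u - (‖Q.c u‖ - Q.r u))) ^ 2 := by
          apply pow_le_pow_left₀ _ hmain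
          apply mul_nonneg hL0; linarith
      _ ≤ 4 * ((∑ u ∈ F, l u ^ 2) * ∑ u ∈ F, Q.r u ^ 2) := hcs
      _ ≤ 4 * ((∑ u ∈ F, l u ^ 2) * 1) := by
          have : ∑ u ∈ F, Q.r u ^ 2 ≤ 1 := by simpa using harea
          gcongr
      _ = 4 * ∑ u ∈ F, l u ^ 2 := by ring
      _ ≤ 4 * (C0 * (L + 1)) := by
          have : ∑ u ∈ F, l u ^ 2 ≤ C0 * (L + 1) := hsq
          linarith
  have hLA : L ≤ A + 1 := by
    by_contra hcon
    push Not at hcon
    have h1 : L ^ 2 ≤ A * (L + 1) := by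
      have h2 : L ^ 2 * ρ0 ^ 2 ≤ 16 * C0 * (L + 1) := by nlinarith
      rw [hA, div_mul_eq_mul_div, le_div_iff₀ (by positivity)]
      exact h2
    nlinarith
  have h1 : Real.log R ≤ A + 1 + Real.log s := by linarith
  calc R = Real.exp (Real.log R) := (Real.exp_log hR0).symm
    _ ≤ Real.exp (A + 1 + Real.log s) := Real.exp_le_exp.2 h1
    _ = Real.exp (A + 1) * s := by rw [Real.exp_add, Real.exp_log hw0]

end Pool.Agent.Helper11.Koebe
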