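import Pool.Agent.Helper11.Koebe.PartA
import Pool.Agent.Helper11.Koebe.PartB
import Pool.Agent.Helper11.Koebe.LocFin
import Pool.Agent.Helper11.Koebe.Boundary

namespace Pool.Agent.Helper11.Koebe

open Metric Packing

open Classical in
/-- the sum of squares of the radii of the central discs of `P` is bounded below -/
theorem partA (d : ℕ) : ∃ C : ℝ, 0 < C ∧ ∀ (V : Type) (K : Tri V), K.Connected →
    (∀ v, {w | K.Adj v w}.encard ≤ d) → ∀ Q P : Packing K, Q.Univalent → P.Univalent →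
    ∀ (ρ : ℝ), 0 < ρ → ∀ (hfin : {x | ‖Q.c x‖ - Q.r x ≤ 2 * ρ}.Finite),
    (∀ x, ‖Q.c x‖ - Q.r x ≤ 2 * ρ → K.Interior x) → ∀ v0, Q.c v0 = 0 → P.r v0 = Q.r v0 →
    Q.r v0 < ρ →
    ρ ^ 2 ≤ C * ∑ v ∈ hfin.toFinset.filter (fun v => ‖Q.c v‖ < ρ), (P.r v) ^ 2 := by
  obtain ⟨κ, hκ0, hκ1, hring⟩ := ring_lemma (d + 1)
  set D := d + 1 with hD
  have hDpos : (0 : ℝ) < D := by rw [hD]; positivity
  set Λ := 2 * Real.log (1 / κ) with hΛ
  have hlogκ : 0 ≤ Real.log (1 / κ) := Real.log_nonneg (by rw [le_div_iff₀ hκ0]; linarith)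
  have hΛ0 : 0 ≤ Λ := by positivity
  refine ⟨8 * (163840 * D ^ 2 * (1 + Λ) / κ ^ 6), by positivity, ?_⟩
  intro V K hK hdeg' Q P hQ hP ρ hρ hfin hint v0 hQ0 hPr hr0
  have hdeg : ∀ v, {w | K.Adj v w}.encard ≤ D := fun v => (hdeg' v).trans (by
    rw [hD]; exact_mod_cast Nat.le_succ d)
  have hrP : ∀ a, K.Interior a → ∀ b, K.Adj a b → κ * P.r a ≤ P.r b :=
    fun a ha b hb => hring V K hK P hP a ha (hdeg a) b hb
  have hrQ : ∀ a, K.Interior a → ∀ b, K.Adj a b → κ * Q.r a ≤ Q.r b :=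
    fun a ha b hb => hring V K hK Q hQ a ha (hdeg a) b hb
  set F := hfin.toFinset with hF
  have hFmem : ∀ v, v ∈ F ↔ ‖Q.c v‖ - Q.r v ≤ 2 * ρ := by
    intro v; rw [hF, Set.Finite.mem_toFinset]; rfl
  have hr0pos := Q.r_pos v0
  -- radii
  set R : ℕ → ℝ := fun j => ρ * (1 + (1 / 2) ^ j) / 2 with hR
  have hRle : ∀ j, R j ≤ ρ := by
    intro j
    have : ((1 : ℝ) / 2) ^ j ≤ 1 := pow_le_one₀ (by norm_num) (by norm_num)
    simp only [hR]
    nlinarith
  have hRpos : ∀ j, 0 < R j := fun j => by simp only [hR]; positivity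
  have hRdiff : ∀ j, R j - R (j+1) = ρ * (1 / 2) ^ j / 4 := by
    intro j; simp only [hR, pow_succ]; ring
  set h : V → ℝ := fun v => Real.log (P.r v / Q.r v) with hh
  set M : ℕ → ℝ := fun j => ∑ v ∈ F.filter (fun v => ‖Q.c v‖ < R j), (Q.r v) ^ 2 *
        Real.exp (2 * (2 ^ j * h v)) with hM
  set K0 := 163840 * D ^ 2 * (1 + Λ) / κ ^ 6 / ρ ^ 2 with hK0
  have hK0pos : 0 < K0 := by positivity
  have hM0 : ∀ j, 0 ≤ M j := fun j => Finset.sum_nonneg fun v _ => by positivity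
  have hMlow : ∀ j, (Q.r v0) ^ 2 ≤ M j := by
    intro j
    have hmem : v0 ∈ F.filter (fun v => ‖Q.c v‖ < R j) := by
      rw [Finset.mem_filter, hFmem, hQ0, norm_zero]
      exact ⟨by linarith, hRpos j⟩
    have h0 : h v0 = 0 := by
      simp only [hh, hPr]
      rw [div_self hr0pos.ne', Real.log_one]
    have := Finset.single_le_sum (f := fun v => (Q.r v) ^ 2 * Real.exp (2 * (2 ^ j * h v)))
      (fun v _ => by positivity) hmem
    simp only [h0, mul_zero, Real.exp_zero, mul_one] at this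
    exact this
  have hstep : ∀ j, M (j + 1) ≤ K0 * 8 ^ j * (M j) ^ 2 := by
    intro j
    have hd0 : R (j+1) < R j := by
      have := hRdiff j
      have h2 : 0 < ρ * (1 / 2) ^ j / 4 := by positivity
      linarith
    have hms := moser_step hK P Q hP hQ D hdeg hκ0 hκ1 hrP hrQ F (R j) (R (j+1)) (2 ^ j) hd0
      (by positivity) (by
        intro v hv
        rw [hFmem, not_le] at hv
        have h1 := Q.r_pos v
        have h2 := hRle j
        linarith) (by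
        intro u hu
        have h2 := hRle j
        have hru := Q.r_pos u
        refine ⟨hint u (by linarith), fun v huv => ?_⟩
        have h3 := abs_norm_sub_le Q huv
        have h4 : Q.r u ≤ ρ := by
          by_cases hu0 : u = v0
          · rw [hu0]; exact hr0.le
          · have := norm_ge_of_ne Q hQ hQ0 hu0
            linarith
        have h5 : ‖Q.c v‖ - Q.r v ≤ 2 * ρ := by linarith
        exact ⟨hint v h5, (hFmem v).2 h5⟩)
    have e1 : M (j+1) = ∑ v ∈ F.filter (fun v => ‖Q.c v‖ < R (j+1)), (Q.r v) ^ 2 *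
        Real.exp (2 * ((2 * 2 ^ j) * Real.log (P.r v / Q.r v))) := by
      simp only [hM, hh]
      apply Finset.sum_congr rfl
      intro v _
      rw [pow_succ]
      ring_nf
    rw [e1]
    refine hms.trans ?_
    have hMj : (∑ v ∈ F.filter (fun v => ‖Q.c v‖ < R j), (Q.r v) ^ 2 *
        Real.exp (2 * (2 ^ j * Real.log (P.r v / Q.r v)))) = M j := rfl
    rw [hMj, hRdiff j]
    have h2j : (1 : ℝ) ≤ 2 ^ j := one_le_pow₀ (by norm_num)
    have e2 : 1 + 2 ^ j * (2 * Real.log (1 / κ)) ≤ 2 ^ j * (1 + Λ) := by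
      rw [mul_add, mul_one, hΛ]
      linarith
    have e3 : (2 : ℝ) / (ρ * (1 / 2) ^ j / 4) ^ 2 = 32 * 4 ^ j / ρ ^ 2 := by
      have : ((1 : ℝ) / 2) ^ j = 1 / 2 ^ j := by rw [div_pow, one_pow]
      rw [this]
      have h4 : (4 : ℝ) ^ j = (2 ^ j) ^ 2 := by
        rw [← pow_mul, mul_comm j 2, pow_mul]; norm_num
      rw [h4]
      have h2 : (2 : ℝ) ^ j ≠ 0 := by positivity
      field_simp
      norm_num
    rw [e3]
    calc (2560 * (D : ℝ) ^ 2 / κ ^ 6) * ((1 + 2 ^ j * (2 * Real.log (1 / κ))) *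
          (32 * 4 ^ j / ρ ^ 2)) * (2 * (M j) ^ 2)
        ≤ (2560 * (D : ℝ) ^ 2 / κ ^ 6) * ((2 ^ j * (1 + Λ)) *
          (32 * 4 ^ j / ρ ^ 2)) * (2 * (M j) ^ 2) := by
          gcongr
      _ = K0 * 8 ^ j * (M j) ^ 2 := by
          have h8 : (8 : ℝ) ^ j = 2 ^ j * 4 ^ j := by rw [← mul_pow]; norm_num
          rw [h8, hK0]
          field_simp
          ring
  have hmoser := moser K0 ((Q.r v0) ^ 2) hK0pos (by positivity) M hMlow hstep
  have hM00 : M 0 = ∑ v ∈ F.filter (fun v => ‖Q.c v‖ < ρ), (P.r v) ^ 2 := by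
    have hR0 : R 0 = ρ := by simp only [hR, pow_zero]; ring
    simp only [hM, hR0]
    apply Finset.sum_congr rfl
    intro v _
    have h1 := P.r_pos v
    have h2 := Q.r_pos v
    have e : (2 : ℝ) * (2 ^ 0 * h v) = ((2 : ℕ) : ℝ) * Real.log (P.r v / Q.r v) := by
      simp only [hh, pow_zero, one_mul]; norm_num
    rw [e, Real.exp_nat_mul, Real.exp_log (by positivity)]
    field_simp
  rw [hM00] at hmoser
  have e4 : 8 * K0 * ∑ v ∈ F.filter (fun v => ‖Q.c v‖ < ρ), (P.r v) ^ 2 =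
      (8 * (163840 * D ^ 2 * (1 + Λ) / κ ^ 6) *
        ∑ v ∈ F.filter (fun v => ‖Q.c v‖ < ρ), (P.r v) ^ 2) / ρ ^ 2 := by
    rw [hK0]; ring
  rw [e4, le_div_iff₀ (by positivity), one_mul] at hmoser
  exact hmoser

/-- central discs of a maximal packing: uniform depth -/
theorem good_radius (d : ℕ) : ∃ ρ0 : ℝ, 0 < ρ0 ∧ ρ0 < 1 ∧ ∀ (V : Type) (K : Tri V), K.Connected →
    (∀ v, {w | K.Adj v w}.encard ≤ d) → ∀ Q : Packing K, Q.Maximal → ∀ v0, K.Interior v0 →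
    Q.c v0 = 0 → {x | ‖Q.c x‖ - Q.r x ≤ ρ0}.Finite ∧
      ∀ x, ‖Q.c x‖ - Q.r x ≤ ρ0 → K.Interior x := by
  obtain ⟨δ0, hδ0, hbd⟩ := boundary_far d
  refine ⟨min (δ0 / 2) (1 / 2), by positivity, (min_le_right _ _).trans_lt (by norm_num), ?_⟩
  intro V K hK hdeg Q hQ v0 hv0 hQ0
  obtain ⟨hQu, _, hQm⟩ := hQ
  rcases hQm with ⟨hVfin, hQb⟩ | ⟨_, hQi, hQc⟩
  · refine ⟨Set.toFinite _, fun x hx => ?_⟩
    by_contra hcon
    have h1 := hbd V K hVfin hK hdeg Q hQu hQb v0 hv0 hQ0 x hcon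
    have h2 := hx.trans (min_le_left _ _)
    linarith
  · refine ⟨?_, fun x _ => hQi x⟩
    exact locally_finite hK Q hQu hQi hQc _ (by positivity)
      ((min_le_right _ _).trans_lt (by norm_num))

theorem norm_add_r_le {V : Type} {K : Tri V} {Q : Packing K} {v : V}
    (h : closedBall (Q.c v) (Q.r v) ⊆ closedBall 0 1) : ‖Q.c v‖ + Q.r v ≤ 1 := by
  have hr := Q.r_pos v
  by_cases h0 : Q.c v = 0
  · have : ((Q.r v : ℝ) : ℂ) ∈ closedBall (Q.c v) (Q.r v) := by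
      rw [mem_closedBall, h0, dist_zero_right, Complex.norm_real, Real.norm_of_nonneg hr.le]
    have h1 := h this
    rw [mem_closedBall, dist_zero_right, Complex.norm_real, Real.norm_of_nonneg hr.le] at h1
    rw [h0, norm_zero, zero_add]
    exact h1
  · have hn : 0 < ‖Q.c v‖ := norm_pos_iff.2 h0
    have hmem : ((1 + Q.r v / ‖Q.c v‖ : ℝ) : ℂ) * Q.c v ∈ closedBall (Q.c v) (Q.r v) := by
      rw [mem_closedBall, dist_eq_norm]
      have : ((1 + Q.r v / ‖Q.c v‖ : ℝ) : ℂ) * Q.c v - Q.c v =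
          ((Q.r v / ‖Q.c v‖ : ℝ) : ℂ) * Q.c v := by push_cast; ring
      rw [this, norm_mul, Complex.norm_real, Real.norm_of_nonneg (by positivity)]
      rw [div_mul_cancel₀ _ hn.ne']
    have h1 := h hmem
    rw [mem_closedBall, dist_zero_right, norm_mul, Complex.norm_real,
      Real.norm_of_nonneg (by positivity)] at h1
    have : (1 + Q.r v / ‖Q.c v‖) * ‖Q.c v‖ = ‖Q.c v‖ + Q.r v := by field_simp
    rw [this] at h1
    exact h1

/-- Discrete Koebe quarter theorem for circle packings of bounded degree. -/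
theorem koebe (d : ℕ) : ∃ s : ℝ, 0 < s ∧ ∀ (V : Type) (K : Tri V), K.Connected →
    (∀ v, {w | K.Adj v w}.encard ≤ d) → ∀ Q P : Packing K, Q.Maximal → P.Univalent →
    ∀ v0, K.Interior v0 → Q.c v0 = 0 → P.c v0 = 0 → P.r v0 = Q.r v0 →
    Metric.ball 0 s ⊆ P.carrier := by
  classical
  obtain ⟨ρ0, hρ0, hρ1, hgood⟩ := good_radius d
  obtain ⟨CA, hCA, hA⟩ := partA d
  obtain ⟨CB, hCB, hB⟩ := partB d ρ0 hρ0
  set ρ := ρ0 / 8 with hρ
  have hρpos : 0 < ρ := by positivity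
  have hsA : 0 < Real.sqrt CA := Real.sqrt_pos.2 hCA
  refine ⟨min ρ (ρ / (Real.sqrt CA * CB)), by positivity, ?_⟩
  intro V K hK hdeg Q P hQ hP v0 hv0 hQ0 hP0 hr
  obtain ⟨hfin, hint⟩ := hgood V K hK hdeg Q hQ v0 hv0 hQ0
  have hQu := hQ.1
  have hQ1 : ∀ v, ‖Q.c v‖ + Q.r v ≤ 1 := fun v => norm_add_r_le (hQ.2.1 v)
  intro w hw
  rw [mem_ball, dist_zero_right] at hw
  have hw1 : ‖w‖ < ρ := hw.trans_le (min_le_left _ _)
  have hw2 : ‖w‖ < ρ / (Real.sqrt CA * CB) := hw.trans_le (min_le_right _ _)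
  by_contra hwc
  rcases le_or_gt ρ (Q.r v0) with hcase | hcase
  · apply hwc
    apply star_subset_carrier v0
    apply disc_subset_star hP hv0
    rw [disc, mem_closedBall, hP0, dist_zero_right, hr]
    linarith
  · have hPw : ∀ v1, ‖Q.c v1‖ < ρ0 / 8 → ‖P.c v1‖ + P.r v1 ≤ CB * ‖w‖ :=
      hB V K hK hdeg Q P hQu hP hQ1 hfin hint v0 hQ0 hP0 hcase w hwc
    have h2ρ : ∀ x, ‖Q.c x‖ - Q.r x ≤ 2 * ρ → ‖Q.c x‖ - Q.r x ≤ ρ0 := by
      intro x hx
      rw [hρ] at hx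
      linarith
    have hfin2 : {x | ‖Q.c x‖ - Q.r x ≤ 2 * ρ}.Finite := hfin.subset fun x hx => h2ρ x hx
    have h1 := hA V K hK hdeg Q P hQu hP ρ hρpos hfin2 (fun x hx => hint x (h2ρ x hx)) v0 hQ0 hr
      hcase
    have h2 := area_le (hfin2.toFinset.filter (fun v => ‖Q.c v‖ < ρ)) P.c P.r
      (fun u _ => P.r_pos u) (fun i _ j _ hij => sep hP hij) 0 (CB * ‖w‖) (by positivity)
      (fun u hu => by
        rw [dist_zero_right]
        exact hPw u (Finset.mem_filter.1 hu).2)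
    have h3 : ρ ^ 2 ≤ CA * (CB * ‖w‖) ^ 2 := h1.trans (by gcongr)
    have h4 : ρ ^ 2 ≤ (Real.sqrt CA * CB * ‖w‖) ^ 2 := by
      calc ρ ^ 2 ≤ CA * (CB * ‖w‖) ^ 2 := h3
        _ = (Real.sqrt CA) ^ 2 * (CB * ‖w‖) ^ 2 := by rw [Real.sq_sqrt hCA.le]
        _ = _ := by ring
    have h5 : ρ ≤ Real.sqrt CA * CB * ‖w‖ :=
      le_of_sq_le_sq h4 (by positivity)
    rw [lt_div_iff₀ (by positivity)] at hw2
    linarith

end Pool.Agent.Helper11.Koebe
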