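import Pool.Agent.Helper11.Koebe.Defs

namespace Pool.Agent.Helper11.Koebe


theorem orient_eq (p q r : ℂ) :
    orient p q r = (q.re - p.re) * (r.im - p.im) - (q.im - p.im) * (r.re - p.re) := by
  simp [orient, Complex.mul_im]
  ring

theorem orient_cyc (p q r : ℂ) : orient q r p = orient p q r := by
  rw [orient_eq, orient_eq]; ring

theorem orient_swap (p q r : ℂ) : orient q p r = - orient p q r := by
  rw [orient_eq, orient_eq]; ring

theorem orient_combo (p q x y : ℂ) {s t : ℝ} (hst : s + t = 1) :
    orient p q (s • x + t • y) = s * orient p q x + t * orient p q y := by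
  have : s = 1 - t := by linarith
  subst this
  simp only [orient_eq, Complex.add_re, Complex.add_im, Complex.real_smul, Complex.mul_re,
    Complex.mul_im, Complex.ofReal_re, Complex.ofReal_im]
  ring

theorem orient_self (p q : ℂ) : orient p q p = 0 := by
  rw [orient_eq]; ring

theorem orient_self' (p q : ℂ) : orient p q q = 0 := by
  rw [orient_eq]; ring

theorem continuous_orient (p q : ℂ) : Continuous (orient p q) := by
  unfold orient
  fun_prop

theorem bary {p q r : ℂ} (h : 0 < orient p q r) (x : ℂ) :
    (orient q r x / orient p q r) • p + (orient r p x / orient p q r) • q +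
      (orient p q x / orient p q r) • r = x := by
  have hD : orient p q r ≠ 0 := h.ne'
  apply Complex.ext
  · simp only [Complex.add_re, Complex.real_smul, Complex.mul_re, Complex.ofReal_re,
      Complex.ofReal_im]
    field_simp
    simp only [orient_eq]
    ring
  · simp only [Complex.add_im, Complex.real_smul, Complex.mul_im, Complex.ofReal_re,
      Complex.ofReal_im]
    field_simp
    simp only [orient_eq]
    ring

theorem bary_sum {p q r : ℂ} (h : 0 < orient p q r) (x : ℂ) :
    (orient q r x / orient p q r) + (orient r p x / orient p q r) +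
      (orient p q x / orient p q r) = 1 := by
  have hD : orient p q r ≠ 0 := h.ne'
  field_simp
  simp only [orient_eq]
  ring

theorem mem_tri_iff {p q r : ℂ} (h : 0 < orient p q r) (x : ℂ) :
    x ∈ convexHull ℝ {p, q, r} ↔ 0 ≤ orient p q x ∧ 0 ≤ orient q r x ∧ 0 ≤ orient r p x := by
  constructor
  · intro hx
    have hconv : Convex ℝ {x : ℂ | 0 ≤ orient p q x ∧ 0 ≤ orient q r x ∧ 0 ≤ orient r p x} := by
      intro x hx y hy s t hs ht hst
      simp only [Set.mem_ofPred_eq] at hx hy ⊢
      rw [orient_combo _ _ _ _ hst, orient_combo _ _ _ _ hst, orient_combo _ _ _ _ hst]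
      obtain ⟨h1, h2, h3⟩ := hx
      obtain ⟨h1', h2', h3'⟩ := hy
      refine ⟨?_, ?_, ?_⟩ <;> positivity
    have hsub : ({p, q, r} : Set ℂ) ⊆
        {x : ℂ | 0 ≤ orient p q x ∧ 0 ≤ orient q r x ∧ 0 ≤ orient r p x} := by
      intro y hy
      simp only [Set.mem_insert_iff, Set.mem_singleton_iff] at hy
      rcases hy with rfl | rfl | rfl
      · refine ⟨by rw [orient_self], ?_, by rw [orient_self']⟩
        rw [orient_cyc]; exact h.le
      · refine ⟨by rw [orient_self'], by rw [orient_self], ?_⟩
        rw [orient_cyc, orient_cyc]; exact h.le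
      · exact ⟨h.le, by rw [orient_self'], by rw [orient_self]⟩
    exact convexHull_min hsub hconv hx
  · rintro ⟨h1, h2, h3⟩
    have hc := convex_convexHull ℝ ({p, q, r} : Set ℂ)
    have hs := subset_convexHull ℝ ({p, q, r} : Set ℂ)
    have hsum := hc.sum_mem (t := Finset.univ)
      (w := ![orient q r x / orient p q r, orient r p x / orient p q r, orient p q x / orient p q r])
      (z := ![p, q, r]) ?_ ?_ ?_
    · rw [Fin.sum_univ_three] at hsum
      simp only [Matrix.cons_val_zero, Matrix.cons_val_one, Matrix.cons_val] at hsum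
      rw [bary h] at hsum
      exact hsum
    · intro i _
      fin_cases i
      · exact div_nonneg h2 h.le
      · exact div_nonneg h3 h.le
      · exact div_nonneg h1 h.le
    · rw [Fin.sum_univ_three]
      exact bary_sum h x
    · intro i _
      fin_cases i
      · exact hs (by simp)
      · exact hs (by simp)
      · exact hs (by simp)

theorem mem_interior_tri {p q r : ℂ} (h : 0 < orient p q r) {x : ℂ} (h1 : 0 < orient p q x)
    (h2 : 0 < orient q r x) (h3 : 0 < orient r p x) : x ∈ interior (convexHull ℝ {p, q, r}) := by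
  rw [mem_interior]
  refine ⟨{x : ℂ | 0 < orient p q x} ∩ ({x : ℂ | 0 < orient q r x} ∩ {x : ℂ | 0 < orient r p x}),
    ?_, ?_, ⟨h1, h2, h3⟩⟩
  · rintro y ⟨hy1, hy2, hy3⟩
    rw [mem_tri_iff h]
    exact ⟨le_of_lt hy1, le_of_lt hy2, le_of_lt hy3⟩
  · exact (isOpen_lt continuous_const (continuous_orient _ _)).inter
      ((isOpen_lt continuous_const (continuous_orient _ _)).inter
        (isOpen_lt continuous_const (continuous_orient _ _)))

theorem mem_segment_of_orient_zero {p q r : ℂ} (h : 0 < orient p q r) {x : ℂ}
    (hx : x ∈ convexHull ℝ {p, q, r}) (h0 : orient p q x = 0) : x ∈ segment ℝ p q := by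
  obtain ⟨_, h2, h3⟩ := (mem_tri_iff h x).1 hx
  refine ⟨orient q r x / orient p q r, orient r p x / orient p q r, div_nonneg h2 h.le,
    div_nonneg h3 h.le, ?_, ?_⟩
  · have := bary_sum h x
    rw [h0, zero_div, add_zero] at this
    exact this
  · have := bary h x
    rw [h0, zero_div, zero_smul, add_zero] at this
    exact this

theorem tri_rot (p q r : ℂ) : ({p, q, r} : Set ℂ) = {q, r, p} := by
  ext x
  simp only [Set.mem_insert_iff, Set.mem_singleton_iff]
  tauto

/-- a segment leaving a triangle meets one of its sides -/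
theorem crossing {p q r : ℂ} (h : 0 < orient p q r) {x y : ℂ}
    (hx : x ∈ convexHull ℝ {p, q, r}) (hy : y ∉ convexHull ℝ {p, q, r}) :
    ∃ z ∈ segment ℝ x y, z ∈ segment ℝ p q ∨ z ∈ segment ℝ q r ∨ z ∈ segment ℝ r p := by
  set γ : ℝ → ℂ := fun t => (1 - t) • x + t • y with hγ
  have hγc : Continuous γ := by
    rw [hγ]; fun_prop
  set f : ℝ → ℝ := fun t => min (orient p q (γ t)) (min (orient q r (γ t)) (orient r p (γ t)))
    with hf
  have hfc : Continuous f := by
    apply Continuous.min
    · exact (continuous_orient _ _).comp hγc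
    · exact Continuous.min ((continuous_orient _ _).comp hγc) ((continuous_orient _ _).comp hγc)
  have hγ0 : γ 0 = x := by simp [hγ]
  have hγ1 : γ 1 = y := by simp [hγ]
  rw [mem_tri_iff h] at hx hy
  have hf0 : 0 ≤ f 0 := by
    simp only [hf, hγ0]
    exact le_min hx.1 (le_min hx.2.1 hx.2.2)
  have hf1 : f 1 ≤ 0 := by
    by_contra hcon
    rw [not_le] at hcon
    apply hy
    simp only [hf, hγ1] at hcon
    rw [lt_min_iff, lt_min_iff] at hcon
    exact ⟨hcon.1.le, hcon.2.1.le, hcon.2.2.le⟩
  obtain ⟨t, ht, hft⟩ := intermediate_value_Icc' (zero_le_one) hfc.continuousOn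
    (show (0 : ℝ) ∈ Set.Icc (f 1) (f 0) from ⟨hf1, hf0⟩)
  have hz1 : 0 ≤ orient p q (γ t) := by
    rw [← hft]; exact min_le_left _ _
  have hz2 : 0 ≤ orient q r (γ t) := by
    rw [← hft]; exact (min_le_right _ _).trans (min_le_left _ _)
  have hz3 : 0 ≤ orient r p (γ t) := by
    rw [← hft]; exact (min_le_right _ _).trans (min_le_right _ _)
  have hzm : γ t ∈ convexHull ℝ {p, q, r} := (mem_tri_iff h _).2 ⟨hz1, hz2, hz3⟩
  refine ⟨γ t, ⟨1 - t, t, by linarith [ht.2], ht.1, by ring, rfl⟩, ?_⟩
  simp only [hf] at hft
  rcases min_choice (orient p q (γ t)) (min (orient q r (γ t)) (orient r p (γ t))) with h1 | h1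
  · left
    exact mem_segment_of_orient_zero h hzm (by rw [← h1, hft])
  · rw [h1] at hft
    rcases min_choice (orient q r (γ t)) (orient r p (γ t)) with h2 | h2
    · right; left
      rw [h2] at hft
      rw [tri_rot] at hzm
      exact mem_segment_of_orient_zero (by rw [orient_cyc]; exact h) hzm hft
    · right; right
      rw [h2] at hft
      rw [tri_rot, tri_rot] at hzm
      exact mem_segment_of_orient_zero (by rw [orient_cyc, orient_cyc]; exact h) hzm hft

/-- two triangles glued along `[a, b]` cover a neighbourhood of each point of the open side -/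
theorem edge_nhds {a b c d : ℂ} (h1 : 0 < orient a b c) (h2 : 0 < orient a d b) {p : ℂ}
    (hp : p ∈ segment ℝ a b) (hpa : p ≠ a) (hpb : p ≠ b) :
    p ∈ interior (convexHull ℝ {a, b, c} ∪ convexHull ℝ {a, d, b}) := by
  obtain ⟨s, t, hs, ht, hst, rfl⟩ := hp
  have hs' : 0 < s := by
    rcases hs.eq_or_lt with h | h
    · exfalso
      apply hpb
      subst h
      have : t = 1 := by linarith
      subst this
      simp
    · exact h
  have ht' : 0 < t := by
    rcases ht.eq_or_lt with h | h
    · exfalso
      apply hpa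
      subst h
      have : s = 1 := by linarith
      subst this
      simp
    · exact h
  rw [mem_interior]
  refine ⟨({x : ℂ | 0 < orient b c x} ∩ {x : ℂ | 0 < orient c a x}) ∩
    ({x : ℂ | 0 < orient a d x} ∩ {x : ℂ | 0 < orient d b x}), ?_, ?_, ⟨?_, ?_⟩, ⟨?_, ?_⟩⟩
  · rintro y ⟨⟨hy1, hy2⟩, ⟨hy3, hy4⟩⟩
    rcases le_total 0 (orient a b y) with h | h
    · left
      rw [mem_tri_iff h1]
      exact ⟨h, le_of_lt hy1, le_of_lt hy2⟩
    · right
      rw [mem_tri_iff h2]
      refine ⟨le_of_lt hy3, le_of_lt hy4, ?_⟩
      rw [orient_swap]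
      linarith
  · exact ((isOpen_lt continuous_const (continuous_orient _ _)).inter
      (isOpen_lt continuous_const (continuous_orient _ _))).inter
      ((isOpen_lt continuous_const (continuous_orient _ _)).inter
        (isOpen_lt continuous_const (continuous_orient _ _)))
  · simp only [Set.mem_ofPred_eq]
    rw [orient_combo _ _ _ _ hst, orient_self, orient_cyc]
    positivity
  · simp only [Set.mem_ofPred_eq]
    rw [orient_combo _ _ _ _ hst, orient_self', orient_cyc, orient_cyc]
    positivity
  · simp only [Set.mem_ofPred_eq]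
    rw [orient_combo _ _ _ _ hst, orient_self]
    positivity
  · simp only [Set.mem_ofPred_eq]
    rw [orient_combo _ _ _ _ hst, orient_self', orient_cyc]
    positivity

theorem punctured_preconnected (a : ℂ) (ρ : ℝ) : IsPreconnected (Metric.ball a ρ \ {a}) := by
  have h : Metric.ball a ρ \ {a} =
      (fun q : ℝ × ℝ => a + q.1 * Complex.exp (q.2 * Complex.I)) '' (Set.Ioo 0 ρ ×ˢ Set.univ) := by
    ext x
    simp only [Set.mem_sdiff, Metric.mem_ball, Set.mem_singleton_iff, Set.mem_image, Set.mem_prod,
      Set.mem_Ioo, Set.mem_univ, and_true, Prod.exists]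
    constructor
    · rintro ⟨h1, h2⟩
      refine ⟨‖x - a‖, Complex.arg (x - a), ⟨?_, ?_⟩, ?_⟩
      · exact norm_pos_iff.2 (sub_ne_zero.2 h2)
      · rwa [← dist_eq_norm]
      · rw [Complex.norm_mul_exp_arg_mul_I]
        ring
    · rintro ⟨r, t, ⟨h1, h2⟩, rfl⟩
      have : ‖(r : ℂ) * Complex.exp (t * Complex.I)‖ = r := by
        rw [norm_mul, Complex.norm_exp_ofReal_mul_I, mul_one, Complex.norm_real,
          Real.norm_eq_abs, abs_of_pos h1]
      constructor
      · rw [dist_eq_norm, add_sub_cancel_left, this]
        exact h2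
      · intro h
        rw [add_eq_left] at h
        rw [h, norm_zero] at this
        linarith
  rw [h]
  apply IsPreconnected.image
  · exact isPreconnected_Ioo.prod isPreconnected_univ
  · apply Continuous.continuousOn
    fun_prop

/-- a closed polygonal fan around `a` covers the ball inscribed in it -/
theorem star_covers (a : ℂ) (n : ℕ) (hn : 1 ≤ n) (b : ℕ → ℂ) (hper : ∀ i, b (i + n) = b i)
    (ho : ∀ i, 0 < orient a (b i) (b (i + 1))) (ρ : ℝ) (hρ : 0 < ρ)
    (hd : ∀ i, ∀ p ∈ segment ℝ (b i) (b (i + 1)), ρ ≤ dist p a) :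
    Metric.ball a ρ ⊆ ⋃ i ∈ Finset.range n, convexHull ℝ {a, b i, b (i + 1)} := by
  set E : Set ℂ := ⋃ i ∈ Finset.range n, convexHull ℝ {a, b i, b (i + 1)} with hE
  -- all triangles are in E
  have hperT : ∀ i, convexHull ℝ {a, b (i + n), b (i + n + 1)} = convexHull ℝ {a, b i, b (i + 1)} := by
    intro i
    rw [hper, show i + n + 1 = (i + 1) + n by ring, hper]
  have hmem : ∀ i, convexHull ℝ {a, b i, b (i + 1)} ⊆ E := by
    intro i
    induction i using Nat.strong_induction_on with
    | _ i ih =>
      by_cases hi : i < n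
      · intro x hx
        rw [hE]
        simp only [Set.mem_iUnion]
        exact ⟨i, Finset.mem_range.2 hi, hx⟩
      · have e : i = (i - n) + n := by omega
        have := ih (i - n) (by omega)
        rw [← hperT, ← e] at this
        exact this
  have hclosed : IsClosed E := by
    rw [hE]
    apply Set.Finite.isClosed_biUnion (Finset.finite_toSet _)
    intro i _
    have hf : Set.Finite ({a, b i, b (i + 1)} : Set ℂ) := by simp
    exact hf.isCompact_convexHull (𝕜 := ℝ) |>.isClosed
  have hbd : ∀ i, ρ ≤ dist (b i) a := fun i => hd i _ (left_mem_segment ℝ _ _)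
  -- interior points
  have hint : ∀ p ∈ Metric.ball a ρ \ {a}, p ∈ E → p ∈ interior E := by
    rintro p ⟨hp1, hp2⟩ hpE
    rw [Metric.mem_ball] at hp1
    rw [Set.mem_singleton_iff] at hp2
    obtain ⟨i, hi⟩ : ∃ i, p ∈ convexHull ℝ {a, b (i + 1), b (i + 1 + 1)} := by
      rw [hE] at hpE
      simp only [Set.mem_iUnion] at hpE
      obtain ⟨i, _, hi⟩ := hpE
      rw [← hperT] at hi
      refine ⟨i + n - 1, ?_⟩
      have e : i + n - 1 + 1 = i + n := by omega
      rw [e]
      exact hi
    have hD := ho (i + 1)
    obtain ⟨h1, h2, h3⟩ := (mem_tri_iff hD p).1 hi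
    have hne : ∀ j, p ≠ b j := by
      intro j hj
      have := hbd j
      rw [← hj] at this
      linarith
    rcases h1.eq_or_lt with h1' | h1'
    · have hs := mem_segment_of_orient_zero hD hi h1'.symm
      have := edge_nhds hD (ho i) hs hp2 (hne _)
      refine interior_mono ?_ this
      exact Set.union_subset (hmem (i + 1)) (hmem i)
    rcases h3.eq_or_lt with h3' | h3'
    · have hi' := hi
      rw [tri_rot, tri_rot] at hi'
      have hs := mem_segment_of_orient_zero (by rw [orient_cyc, orient_cyc]; exact hD) hi' h3'.symm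
      rw [segment_symm] at hs
      have := edge_nhds (ho (i + 1 + 1)) hD hs hp2 (hne _)
      refine interior_mono ?_ this
      exact Set.union_subset (hmem (i + 1 + 1)) (hmem (i + 1))
    rcases h2.eq_or_lt with h2' | h2'
    · exfalso
      have hi' := hi
      rw [tri_rot] at hi'
      have hs := mem_segment_of_orient_zero (by rw [orient_cyc]; exact hD) hi' h2'.symm
      have := hd _ _ hs
      linarith
    · exact interior_mono (hmem (i + 1)) (mem_interior_tri hD h1' h2' h3')
  have hconn := punctured_preconnected a ρ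
  have hsub : Metric.ball a ρ \ {a} ⊆ interior E := by
    apply hconn.subset_left_of_subset_union isOpen_interior hclosed.isOpen_compl
    · rw [Set.disjoint_compl_right_iff_subset]
      exact interior_subset
    · intro p hp
      by_cases hpE : p ∈ E
      · exact Or.inl (hint p hp hpE)
      · exact Or.inr hpE
    · -- a point near a on the segment to b 0
      have hb0 := hbd 0
      have hpos : 0 < dist (b 0) a := lt_of_lt_of_le hρ hb0
      set s : ℝ := ρ / (2 * dist (b 0) a) with hs
      have hs0 : 0 < s := by positivity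
      have hs1 : s ≤ 1 := by
        rw [hs, div_le_one (by positivity)]
        linarith
      set x : ℂ := (1 - s) • a + s • b 0 with hx
      have hxa : x - a = s • (b 0 - a) := by
        rw [hx, smul_sub, sub_smul, one_smul]
        ring
      have hnx : ‖x - a‖ = ρ / 2 := by
        rw [hxa, norm_smul, Real.norm_eq_abs, abs_of_pos hs0, ← dist_eq_norm, hs]
        field_simp
      have hxU : x ∈ Metric.ball a ρ \ {a} := by
        constructor
        · rw [Metric.mem_ball, dist_eq_norm, hnx]
          linarith
        · intro h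
          rw [Set.mem_singleton_iff] at h
          rw [h, sub_self, norm_zero] at hnx
          linarith
      refine ⟨x, hxU, hint x hxU ?_⟩
      apply hmem 0
      have hsa : a ∈ convexHull ℝ ({a, b 0, b (0 + 1)} : Set ℂ) :=
        subset_convexHull ℝ _ (by simp)
      have hsb : b 0 ∈ convexHull ℝ ({a, b 0, b (0 + 1)} : Set ℂ) :=
        subset_convexHull ℝ _ (by simp)
      exact (convex_convexHull ℝ _) hsa hsb (by linarith) hs0.le (by ring)
  intro x hx
  by_cases hxa : x = a
  · rw [hxa]
    exact hmem 0 (subset_convexHull ℝ _ (by simp))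
  · exact interior_subset (hsub ⟨hx, hxa⟩)

end Pool.Agent.Helper11.Koebe
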