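import Pool.Agent.Helper11.Koebe.Comb
import Pool.Agent.Helper11.Koebe.TriGeo

namespace Pool.Agent.Helper11.Koebe

open Metric

theorem orient_rot (p q r : ℂ) : orient q r p = orient p q r := by
  simp only [orient, map_sub, Complex.mul_im, Complex.sub_re, Complex.sub_im, Complex.conj_re,
    Complex.conj_im]
  ring

theorem orient_swap23 (p q x : ℂ) : orient p x q = - orient p q x := by
  simp only [orient, map_sub, Complex.mul_im, Complex.sub_re, Complex.sub_im, Complex.conj_re,
    Complex.conj_im]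
  ring

theorem dist_sq (x y : ℂ) : dist x y ^ 2 = (x.re - y.re) ^ 2 + (x.im - y.im) ^ 2 := by
  rw [Complex.dist_eq, Complex.sq_norm, Complex.normSq_apply]
  simp only [Complex.sub_re, Complex.sub_im]
  ring

theorem seg_dist_sq (a b x : ℂ) (t : ℝ) :
    dist x ((1 - t) • a + t • b) ^ 2 =
      (1 - t) * dist x a ^ 2 + t * dist x b ^ 2 - t * (1 - t) * dist a b ^ 2 := by
  simp only [dist_sq, Complex.add_re, Complex.add_im, Complex.real_smul, Complex.mul_re,
    Complex.mul_im, Complex.ofReal_re, Complex.ofReal_im]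
  simp
  ring

/-- distance of a point to an edge between tangent discs -/
theorem edge_far {a b x : ℂ} {α β ξ : ℝ} (_hα : 0 < α) (_hβ : 0 < β) (hξ : 0 < ξ)
    (hab : dist a b = α + β) (hxa : α + ξ ≤ dist x a) (hxb : β + ξ ≤ dist x b) {m : ℝ}
    (hm1 : m ≤ α) (hm2 : m ≤ β) {p : ℂ} (hp : p ∈ segment ℝ a b) :
    ξ ^ 2 + 2 * ξ * m ≤ dist x p ^ 2 := by
  rw [segment_eq_image] at hp
  obtain ⟨t, ⟨ht0, ht1⟩, rfl⟩ := hp
  simp only
  rw [seg_dist_sq, hab]
  have e1 : (α + ξ) ^ 2 ≤ dist x a ^ 2 := by gcongr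
  have e2 : (β + ξ) ^ 2 ≤ dist x b ^ 2 := by gcongr
  have e3 : (1 - t) * (α + ξ) ^ 2 ≤ (1 - t) * dist x a ^ 2 :=
    mul_le_mul_of_nonneg_left e1 (by linarith)
  have e4 : t * (β + ξ) ^ 2 ≤ t * dist x b ^ 2 := mul_le_mul_of_nonneg_left e2 ht0
  have e5 : (1 - t) * m ≤ (1 - t) * α := mul_le_mul_of_nonneg_left hm1 (by linarith)
  have e6 : t * m ≤ t * β := mul_le_mul_of_nonneg_left hm2 ht0
  have e7 : ξ * m ≤ ξ * ((1 - t) * α + t * β) := by
    apply mul_le_mul_of_nonneg_left _ hξ.le
    linarith
  nlinarith [sq_nonneg ((1 - t) * α - t * β)]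

theorem edge_disjoint {a b x : ℂ} {α β ξ : ℝ} (hα : 0 < α) (hβ : 0 < β) (hξ : 0 < ξ)
    (hab : dist a b = α + β) (hxa : α + ξ ≤ dist x a) (hxb : β + ξ ≤ dist x b) {p : ℂ}
    (hp : p ∈ segment ℝ a b) : ξ < dist x p := by
  have hm : 0 < min α β := lt_min hα hβ
  have := edge_far hα hβ hξ hab hxa hxb (min_le_left α β) (min_le_right α β) hp
  have h2 : ξ ^ 2 < dist x p ^ 2 := by
    have : 0 < ξ * min α β := mul_pos hξ hm
    nlinarith
  exact lt_of_pow_lt_pow_left₀ 2 dist_nonneg h2

/-- the edge between two tangent discs is covered by the discs -/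
theorem edge_cover {a b : ℂ} {α β : ℝ} (hα : 0 < α) (hβ : 0 < β) (hab : dist a b = α + β) {p : ℂ}
    (hp : p ∈ segment ℝ a b) : p ∈ closedBall a α ∨ p ∈ closedBall b β := by
  have h := dist_add_dist_of_mem_segment hp
  rw [hab] at h
  rw [mem_closedBall, mem_closedBall, dist_comm p a]
  by_contra hcon
  push Not at hcon
  linarith [hcon.1, hcon.2]

namespace Packing

variable {V : Type*} {K : Tri V} {P : Packing K}

/-- the closed disc of the vertex `v` -/
def disc (P : Packing K) (v : V) : Set ℂ := closedBall (P.c v) (P.r v)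

/-- the closed triangle of a face -/
def tri (P : Packing K) (a b c : V) : Set ℂ := convexHull ℝ {P.c a, P.c b, P.c c}

/-- the closed star of a vertex -/
def star (P : Packing K) (a : V) : Set ℂ := {z | ∃ b c, K.face a b c ∧ z ∈ P.tri a b c}

theorem sep (hP : P.Univalent) {u v : V} (h : u ≠ v) :
    P.r u + P.r v ≤ dist (P.c u) (P.c v) :=
  (disjoint_ball_ball_iff (P.r_pos u) (P.r_pos v)).1 (hP u v h)

theorem tri_rot (a b c : V) : P.tri b c a = P.tri a b c := by
  unfold tri
  congr 1
  ext x
  simp only [Set.mem_insert_iff, Set.mem_singleton_iff]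
  tauto

theorem tri_closed (a b c : V) : IsClosed (P.tri a b c) := by
  unfold tri
  exact (Set.Finite.isCompact_convexHull ℝ (Set.toFinite _)).isClosed

theorem tri_compact (a b c : V) : IsCompact (P.tri a b c) := by
  unfold tri
  exact Set.Finite.isCompact_convexHull ℝ (Set.toFinite _)

theorem edge_not_disc (hP : P.Univalent) {a b x : V} (hab : K.Adj a b) (hxa : x ≠ a)
    (hxb : x ≠ b) {p : ℂ} (hp : p ∈ segment ℝ (P.c a) (P.c b)) : p ∉ P.disc x := by
  intro h
  have := edge_disjoint (P.r_pos a) (P.r_pos b) (P.r_pos x) (P.tangent a b hab)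
    (x := P.c x) (by have := sep hP hxa; linarith) (by have := sep hP hxb; linarith) hp
  rw [disc, mem_closedBall, dist_comm] at h
  linarith

theorem disc_tri_iff (hP : P.Univalent) {a b c x : V} (hf : K.face a b c)
    (hxa : x ≠ a) (hxb : x ≠ b) (hxc : x ≠ c) {y z : ℂ} (hy : y ∈ P.disc x) (hz : z ∈ P.disc x)
    (hyt : y ∈ P.tri a b c) : z ∈ P.tri a b c := by
  by_contra hzt
  obtain ⟨w, hw, hw'⟩ := crossing (P.oriented _ _ _ hf) hyt hzt
  have hwd : w ∈ P.disc x := (convex_closedBall _ _).segment_subset hy hz hw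
  rcases hw' with h | h | h
  · exact edge_not_disc hP (Tri.adj12 hf) hxa hxb h hwd
  · exact edge_not_disc hP (Tri.adj23 hf) hxb hxc h hwd
  · exact edge_not_disc hP (Tri.adj_symm (Tri.adj13 hf)) hxc hxa h hwd

theorem touch (P : Packing K) {x y : V} (h : K.Adj x y) : ∃ q, q ∈ P.disc x ∧ q ∈ P.disc y := by
  have ht := P.tangent x y h
  have hx := P.r_pos x
  have hy := P.r_pos y
  have hs : (P.r x + P.r y) ≠ 0 := by positivity
  refine ⟨(1 - P.r x / (P.r x + P.r y)) • P.c x + (P.r x / (P.r x + P.r y)) • P.c y, ?_, ?_⟩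
  · rw [disc, mem_closedBall, dist_eq_norm]
    have : (1 - P.r x / (P.r x + P.r y)) • P.c x + (P.r x / (P.r x + P.r y)) • P.c y - P.c x
        = (P.r x / (P.r x + P.r y)) • (P.c y - P.c x) := by
      simp only [sub_smul, smul_sub, one_smul]; ring
    rw [this, norm_smul, ← dist_eq_norm, dist_comm, ht, Real.norm_of_nonneg (by positivity)]
    rw [div_mul_cancel₀ _ hs]
  · rw [disc, mem_closedBall, dist_eq_norm]
    have : (1 - P.r x / (P.r x + P.r y)) • P.c x + (P.r x / (P.r x + P.r y)) • P.c y - P.c y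
        = (P.r y / (P.r x + P.r y)) • (P.c x - P.c y) := by
      have e : P.r y / (P.r x + P.r y) = 1 - P.r x / (P.r x + P.r y) := by
        field_simp; ring
      rw [e]
      simp only [sub_smul, smul_sub, one_smul]; ring
    rw [this, norm_smul, ← dist_eq_norm, ht, Real.norm_of_nonneg (by positivity)]
    rw [div_mul_cancel₀ _ hs]

theorem center_mem_disc (P : Packing K) (x : V) : P.c x ∈ P.disc x :=
  mem_closedBall_self (P.r_pos x).le

/-- step 4: neighbours of a vertex of the face lie outside the triangle -/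
theorem nbr_outside (hP : P.Univalent) {a b c : V} (hf : K.face a b c) {x : V} (hx : K.Adj a x)
    (hxb : x ≠ b) (hxc : x ≠ c) : P.c x ∉ P.tri a b c := by
  refine Tri.link_prop hf (fun x => P.c x ∉ P.tri a b c) ?_ ?_ ?_ x hx hxb hxc
  · intro c' hc' hmem
    have h1 := (mem_tri_iff (P.oriented _ _ _ hf) _).1 hmem
    have h2 := P.oriented _ _ _ hc'
    have h3 := orient_swap (P.c a) (P.c c) (P.c c')
    linarith [h1.2.2]
  · intro b' hb' hmem
    have h1 := (mem_tri_iff (P.oriented _ _ _ hf) _).1 hmem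
    have h2 := P.oriented _ _ _ hb'
    have h3 := orient_swap23 (P.c a) (P.c b) (P.c b')
    linarith [h1.1]
  · intro x y hxy hxb hxc hyb hyc
    have hxa : x ≠ a := (Tri.face_ne12 hxy).symm
    have hya : y ≠ a := (Tri.face_ne13 hxy).symm
    obtain ⟨q, hq1, hq2⟩ := P.touch (Tri.adj23 hxy)
    rw [not_iff_not]
    constructor
    · intro h
      exact disc_tri_iff hP hf hya hyb hyc hq2 (P.center_mem_disc y)
        (disc_tri_iff hP hf hxa hxb hxc (P.center_mem_disc x) hq1 h)
    · intro h
      exact disc_tri_iff hP hf hxa hxb hxc hq1 (P.center_mem_disc x)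
        (disc_tri_iff hP hf hya hyb hyc (P.center_mem_disc y) hq2 h)

/-- Lemma N: discs of other vertices do not meet the triangle of a face -/
theorem lemmaN (hK : K.Connected) (hP : P.Univalent) {a b c x : V} (hf : K.face a b c)
    (hxa : x ≠ a) (hxb : x ≠ b) (hxc : x ≠ c) : Disjoint (P.disc x) (P.tri a b c) := by
  have key : ∀ y, Relation.ReflTransGen K.Adj y a → y ≠ a → y ≠ b → y ≠ c →
      P.c y ∉ P.tri a b c := by
    intro y hy
    induction hy using Relation.ReflTransGen.head_induction_on with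
    | refl => intro h; exact absurd rfl h
    | @head y z hyz _ ih =>
      intro hya hyb hyc
      by_cases hza : z = a
      · subst hza
        exact nbr_outside hP hf (Tri.adj_symm hyz) hyb hyc
      by_cases hzb : z = b
      · subst hzb
        have := nbr_outside hP (K.rot _ _ _ hf) (Tri.adj_symm hyz) hyc hya
        rwa [tri_rot] at this
      by_cases hzc : z = c
      · subst hzc
        have := nbr_outside hP (K.rot _ _ _ (K.rot _ _ _ hf)) (Tri.adj_symm hyz) hya hyb
        rwa [tri_rot, tri_rot] at this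
      have := ih hza hzb hzc
      intro hmem
      obtain ⟨q, hq1, hq2⟩ := P.touch hyz
      exact this (disc_tri_iff hP hf hza hzb hzc hq2 (P.center_mem_disc z)
        (disc_tri_iff hP hf hya hyb hyc (P.center_mem_disc y) hq1 hmem))
  rw [Set.disjoint_left]
  intro p hp hpt
  exact key x (hK x a) hxa hxb hxc (disc_tri_iff hP hf hxa hxb hxc hp (P.center_mem_disc x) hpt)

/-- version: if the disc of `y` meets the triangle then `y` is a vertex of it -/
theorem mem_face_of_meet (hK : K.Connected) (hP : P.Univalent) {a b c y : V} (hf : K.face a b c)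
    {p : ℂ} (hp : p ∈ P.disc y) (hpt : p ∈ P.tri a b c) : y = a ∨ y = b ∨ y = c := by
  by_contra hcon
  push Not at hcon
  exact Set.disjoint_left.1 (lemmaN hK hP hf hcon.1 hcon.2.1 hcon.2.2) hp hpt

/-- if the disc of `y` meets the star of `x` then `y = x` or `y` is adjacent to `x` -/
theorem adj_of_meet_star (hK : K.Connected) (hP : P.Univalent) {x y : V} {p : ℂ}
    (hp : p ∈ P.disc y) (hps : p ∈ P.star x) : y = x ∨ K.Adj x y := by
  obtain ⟨b, c, hf, hpt⟩ := hps
  rcases mem_face_of_meet hK hP hf hp hpt with h | h | h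
  · exact Or.inl h
  · subst h; exact Or.inr (Tri.adj12 hf)
  · subst h; exact Or.inr (Tri.adj13 hf)

/-- a point of a triangle is interior to it or lies in the disc of one of its vertices -/
theorem interior_or_disc {a b c : V} (hf : K.face a b c) {p : ℂ} (hp : p ∈ P.tri a b c) :
    p ∈ interior (P.tri a b c) ∨ p ∈ P.disc a ∨ p ∈ P.disc b ∨ p ∈ P.disc c := by
  have ho := P.oriented _ _ _ hf
  have h := (mem_tri_iff ho p).1 hp
  rcases h.1.lt_or_eq with h1 | h1
  · rcases h.2.1.lt_or_eq with h2 | h2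
    · rcases h.2.2.lt_or_eq with h3 | h3
      · exact Or.inl (mem_interior_tri ho h1 h2 h3)
      · have ho' : 0 < orient (P.c c) (P.c a) (P.c b) := by rw [orient_rot, orient_rot]; rwa [orient_rot, orient_rot, orient_rot]
        have hp' : p ∈ convexHull ℝ {P.c c, P.c a, P.c b} := by
          have := (tri_rot (P := P) b c a).symm ▸ (tri_rot (P := P) a b c).symm ▸ hp
          exact this
        have := mem_segment_of_orient_zero ho' hp' h3.symm
        rcases edge_cover (P.r_pos c) (P.r_pos a) (P.tangent _ _ (Tri.adj_symm (Tri.adj13 hf)))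
          this with h | h
        · exact Or.inr (Or.inr (Or.inr h))
        · exact Or.inr (Or.inl h)
    · have ho' : 0 < orient (P.c b) (P.c c) (P.c a) := by rwa [orient_rot]
      have hp' : p ∈ convexHull ℝ {P.c b, P.c c, P.c a} := by
        have := (tri_rot (P := P) a b c).symm ▸ hp
        exact this
      have := mem_segment_of_orient_zero ho' hp' h2.symm
      rcases edge_cover (P.r_pos b) (P.r_pos c) (P.tangent _ _ (Tri.adj23 hf)) this with h | h
      · exact Or.inr (Or.inr (Or.inl h))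
      · exact Or.inr (Or.inr (Or.inr h))
  · have := mem_segment_of_orient_zero ho hp h1.symm
    rcases edge_cover (P.r_pos a) (P.r_pos b) (P.tangent _ _ (Tri.adj12 hf)) this with h | h
    · exact Or.inr (Or.inl h)
    · exact Or.inr (Or.inr (Or.inl h))

theorem tri_subset_star {a b c : V} (hf : K.face a b c) : P.tri a b c ⊆ P.star a :=
  fun _ hz => ⟨b, c, hf, hz⟩

theorem star_subset_carrier (a : V) : P.star a ⊆ P.carrier := by
  rintro z ⟨b, c, hf, hz⟩
  exact ⟨a, b, c, hf, hz⟩

theorem star_eq (a : V) : P.star a =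
    ⋃ b ∈ {x | K.Adj a x}, ⋃ c ∈ {x | K.Adj a x}, ⋃ (_ : K.face a b c), P.tri a b c := by
  ext z
  simp only [star, Set.mem_ofPred_eq, Set.mem_iUnion]
  constructor
  · rintro ⟨b, c, hf, hz⟩
    exact ⟨b, Tri.adj12 hf, c, Tri.adj13 hf, hf, hz⟩
  · rintro ⟨b, _, c, _, hf, hz⟩
    exact ⟨b, c, hf, hz⟩

theorem star_compact (a : V) : IsCompact (P.star a) := by
  rw [star_eq]
  apply (Tri.nbrs_finite a).isCompact_biUnion
  intro b _
  apply (Tri.nbrs_finite a).isCompact_biUnion
  intro c _
  by_cases h : K.face a b c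
  · simp only [h, Set.iUnion_true]; exact tri_compact a b c
  · simp only [h, Set.iUnion_false]; exact isCompact_empty

theorem star_closed (a : V) : IsClosed (P.star a) := (star_compact a).isClosed

/-- the star of an interior vertex contains the ball inscribed in the link -/
theorem ball_subset_star {a : V} (ha : K.Interior a) {ρ : ℝ} (hρ : 0 < ρ)
    (hd : ∀ b c, K.face a b c → ∀ p ∈ segment ℝ (P.c b) (P.c c), ρ ≤ dist p (P.c a)) :
    ball (P.c a) ρ ⊆ P.star a := by
  obtain ⟨n, hn, b, hper, hinj, hL⟩ := ha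
  have hface : ∀ i, K.face a (b i) (b (i+1)) := fun i => (hL _ _).2 ⟨i, rfl, rfl⟩
  have := star_covers (P.c a) n (by omega) (fun i => P.c (b i)) (fun i => by simp [hper])
    (fun i => P.oriented _ _ _ (hface i)) ρ hρ (fun i p hp => hd _ _ (hface i) p hp)
  refine this.trans ?_
  intro z hz
  simp only [Set.mem_iUnion] at hz
  obtain ⟨i, _, hz⟩ := hz
  exact ⟨b i, b (i+1), hface i, hz⟩

/-- quantitative version: if all neighbours have radius at least `m` -/
theorem ball_subset_star' {a : V} (ha : K.Interior a) {m : ℝ} (hm : 0 ≤ m)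
    (h : ∀ b, K.Adj a b → m ≤ P.r b) :
    ball (P.c a) (Real.sqrt ((P.r a) ^ 2 + 2 * P.r a * m)) ⊆ P.star a := by
  have hra := P.r_pos a
  apply ball_subset_star ha (Real.sqrt_pos.2 (by positivity))
  intro b c hf p hp
  have hab := P.tangent _ _ (Tri.adj12 hf)
  have hac := P.tangent _ _ (Tri.adj13 hf)
  have := edge_far (P.r_pos b) (P.r_pos c) hra (P.tangent _ _ (Tri.adj23 hf))
    (x := P.c a) (by linarith) (by linarith) (h b (Tri.adj12 hf)) (h c (Tri.adj13 hf)) hp
  rw [dist_comm]
  exact Real.sqrt_le_iff.2 ⟨dist_nonneg, this⟩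

theorem exists_min_nbr (a : V) : ∃ m, 0 < m ∧ ∀ b, K.Adj a b → m ≤ P.r b := by
  by_cases hne : {x | K.Adj a x}.Nonempty
  · obtain ⟨b, hb, hb'⟩ := Set.exists_min_image _ P.r (Tri.nbrs_finite a) hne
    exact ⟨P.r b, P.r_pos b, fun c hc => hb' c hc⟩
  · refine ⟨1, one_pos, fun b hb => absurd ⟨b, hb⟩ hne⟩

theorem disc_subset_interior_star (hP : P.Univalent) {a : V} (ha : K.Interior a) :
    P.disc a ⊆ interior (P.star a) := by
  obtain ⟨m, hm, h⟩ := exists_min_nbr (P := P) a
  have hra := P.r_pos a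
  have h1 := ball_subset_star' ha hm.le h
  have h2 : P.r a < Real.sqrt ((P.r a) ^ 2 + 2 * P.r a * m) := by
    apply Real.lt_sqrt_of_sq_lt
    have : 0 < P.r a * m := mul_pos hra hm
    linarith
  exact (closedBall_subset_ball h2).trans (interior_maximal h1 isOpen_ball)

theorem disc_subset_star (hP : P.Univalent) {a : V} (ha : K.Interior a) :
    P.disc a ⊆ P.star a := (disc_subset_interior_star hP ha).trans interior_subset

/-- a connected set which leaves the family of stars only through discs of the family -/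
theorem covered (hP : P.Univalent) (W : Set V) (hW : W.Finite) (hint : ∀ x ∈ W, K.Interior x)
    (γ : Set ℂ) (hγ : IsPreconnected γ) (x0 : V) (hx0 : x0 ∈ W) (hx0' : (P.disc x0 ∩ γ).Nonempty)
    (hcl : ∀ x ∈ W, ∀ y, K.Adj x y → (P.disc y ∩ γ).Nonempty → y ∈ W) :
    γ ⊆ ⋃ x ∈ W, P.star x := by
  set E := ⋃ x ∈ W, P.star x with hE
  have hEc : IsClosed E := hW.isClosed_biUnion (fun x _ => star_closed x)
  have hint' : ∀ x ∈ W, interior (P.star x) ⊆ interior E := by
    intro x hx
    apply interior_mono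
    exact Set.subset_biUnion_of_mem hx
  have key : ∀ p ∈ γ, p ∈ E → p ∈ interior E := by
    intro p hp hpE
    simp only [hE, Set.mem_iUnion] at hpE
    obtain ⟨x, hx, b, c, hf, hpt⟩ := hpE
    rcases interior_or_disc hf hpt with h | h | h | h
    · exact interior_mono ((tri_subset_star hf).trans (Set.subset_biUnion_of_mem hx)) h
    · exact hint' x hx (disc_subset_interior_star hP (hint x hx) h)
    · have hb : b ∈ W := hcl x hx b (Tri.adj12 hf) ⟨p, h, hp⟩
      exact hint' b hb (disc_subset_interior_star hP (hint b hb) h)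
    · have hc : c ∈ W := hcl x hx c (Tri.adj13 hf) ⟨p, h, hp⟩
      exact hint' c hc (disc_subset_interior_star hP (hint c hc) h)
  have := hγ.subset_left_of_subset_union (u := interior E) (v := Eᶜ) isOpen_interior
    hEc.isOpen_compl (Set.disjoint_left.2 fun z hz hz' => hz' (interior_subset hz)) (by
      intro p hp
      by_cases h : p ∈ E
      · exact Or.inl (key p hp h)
      · exact Or.inr h) (by
      obtain ⟨p, hp, hpγ⟩ := hx0'
      exact ⟨p, hpγ, hint' x0 hx0 (disc_subset_interior_star hP (hint x0 hx0) hp)⟩)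
  exact this.trans interior_subset

end Packing

end Pool.Agent.Helper11.Koebe
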