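import Pool.Agent.Helper11.Koebe.LineSum
import Pool.Agent.Helper11.Koebe.Meas

namespace Pool.Agent.Helper11.Koebe

open Metric Packing

open Classical in
theorem double_bound {V : Type} (Adj : V → V → Prop) (hsym : ∀ u v, Adj u v → Adj v u)
    (S F : Finset V) (hSF : S ⊆ F) (d : ℕ) (r f : V → ℝ) {κ : ℝ} (hκ0 : 0 < κ) (hκ1 : κ ≤ 1)
    (hr : ∀ v, 0 < r v) (hdeg : ∀ u, (((F.filter (fun v => Adj u v)).card : ℕ) : ℝ) ≤ d)
    (hrr : ∀ w ∈ S, ∀ u, Adj w u → κ * r u ≤ r w) (hf : ∀ v, v ∉ S → f v = 0) :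
    ∑ u ∈ F, ∑ w ∈ F.filter (fun v => Adj u v), (r u) ^ 2 * (f u + f w) ^ 2 ≤
      (4 * d / κ ^ 2) * ∑ v ∈ S, (r v) ^ 2 * (f v) ^ 2 := by
  obtain ⟨M, hM⟩ : ∃ M, M = ∑ v ∈ S, (r v) ^ 2 * (f v) ^ 2 := ⟨_, rfl⟩
  have hMF : ∑ v ∈ F, (r v) ^ 2 * (f v) ^ 2 = M := by
    rw [hM]
    symm
    apply Finset.sum_subset hSF
    intro v _ hv
    rw [hf v hv]; ring
  have M0 : 0 ≤ M := by rw [hM]; exact Finset.sum_nonneg (fun v _ => by positivity)
  have d0 : (0 : ℝ) ≤ d := Nat.cast_nonneg d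
  have A1 : ∑ u ∈ F, ∑ w ∈ F.filter (fun v => Adj u v), (r u) ^ 2 * (f u) ^ 2 ≤ d * M := by
    rw [← hMF, Finset.mul_sum]
    apply Finset.sum_le_sum
    intro u _
    rw [Finset.sum_const, nsmul_eq_mul]
    exact mul_le_mul_of_nonneg_right (hdeg u) (by positivity)
  have A2 : ∑ u ∈ F, ∑ w ∈ F.filter (fun v => Adj u v), (r u) ^ 2 * (f w) ^ 2 ≤ (d / κ ^ 2) * M := by
    have e : ∑ u ∈ F, ∑ w ∈ F.filter (fun v => Adj u v), (r u) ^ 2 * (f w) ^ 2 =
        ∑ w ∈ F, ∑ u ∈ F.filter (fun v => Adj w v), (r u) ^ 2 * (f w) ^ 2 := by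
      rw [Finset.sum_sigma', Finset.sum_sigma']
      apply Finset.sum_nbij' (fun x => ⟨x.2, x.1⟩) (fun x => ⟨x.2, x.1⟩)
      · rintro ⟨u, w⟩ h
        simp only [Finset.mem_sigma, Finset.mem_filter] at h ⊢
        exact ⟨h.2.1, h.1, hsym _ _ h.2.2⟩
      · rintro ⟨u, w⟩ h
        simp only [Finset.mem_sigma, Finset.mem_filter] at h ⊢
        exact ⟨h.2.1, h.1, hsym _ _ h.2.2⟩
      · rintro ⟨u, w⟩ _; rfl
      · rintro ⟨u, w⟩ _; rfl
      · rintro ⟨u, w⟩ _; rfl
    rw [e, ← hMF, Finset.mul_sum]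
    apply Finset.sum_le_sum
    intro w _
    by_cases hw : w ∈ S
    · calc ∑ u ∈ F.filter (fun v => Adj w v), (r u) ^ 2 * (f w) ^ 2
          ≤ ∑ u ∈ F.filter (fun v => Adj w v), (r w ^ 2 / κ ^ 2) * (f w) ^ 2 := by
            apply Finset.sum_le_sum
            intro u hu
            have hu' := (Finset.mem_filter.mp hu).2
            have h1 := hrr w hw u hu'
            have h2 : r u ^ 2 ≤ r w ^ 2 / κ ^ 2 := by
              rw [le_div_iff₀ (by positivity)]
              have h3 := mul_pos hκ0 (hr u)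
              nlinarith
            exact mul_le_mul_of_nonneg_right h2 (by positivity)
        _ = ((F.filter (fun v => Adj w v)).card : ℝ) * ((r w ^ 2 / κ ^ 2) * (f w) ^ 2) := by
            rw [Finset.sum_const, nsmul_eq_mul]
        _ ≤ d * ((r w ^ 2 / κ ^ 2) * (f w) ^ 2) :=
            mul_le_mul_of_nonneg_right (hdeg w) (by positivity)
        _ = _ := by ring
    · rw [hf w hw]
      simp
  have A3 : ∑ u ∈ F, ∑ w ∈ F.filter (fun v => Adj u v), (r u) ^ 2 * (f u + f w) ^ 2 ≤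
      2 * (∑ u ∈ F, ∑ w ∈ F.filter (fun v => Adj u v), (r u) ^ 2 * (f u) ^ 2) +
      2 * (∑ u ∈ F, ∑ w ∈ F.filter (fun v => Adj u v), (r u) ^ 2 * (f w) ^ 2) := by
    simp only [Finset.mul_sum, ← Finset.sum_add_distrib]
    apply Finset.sum_le_sum
    intro u _
    apply Finset.sum_le_sum
    intro w _
    have h1 : (f u + f w) ^ 2 ≤ 2 * f u ^ 2 + 2 * f w ^ 2 := by nlinarith [sq_nonneg (f u - f w)]
    have h2 := mul_le_mul_of_nonneg_left h1 (sq_nonneg (r u))
    linarith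
  rw [← hM]
  have h3 : d * M ≤ (d / κ ^ 2) * M := by
    apply mul_le_mul_of_nonneg_right _ M0
    rw [le_div_iff₀ (by positivity)]
    have : κ ^ 2 ≤ 1 := by nlinarith
    nlinarith
  have h4 : (4 * d / κ ^ 2) * M = 4 * ((d / κ ^ 2) * M) := by ring
  rw [h4]
  linarith

theorem cs_double {V : Type} (F : Finset V) (N : V → Finset V) (a b : V → V → ℝ) :
    (∑ u ∈ F, ∑ w ∈ N u, a u w * b u w) ^ 2 ≤
      (∑ u ∈ F, ∑ w ∈ N u, a u w ^ 2) * (∑ u ∈ F, ∑ w ∈ N u, b u w ^ 2) := by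
  rw [Finset.sum_sigma', Finset.sum_sigma', Finset.sum_sigma']
  exact Finset.sum_mul_sq_le_sq_mul_sq _ (fun x : (_ : V) × V => a x.1 x.2) (fun x => b x.1 x.2)

theorem line_re (t : ℝ) : IsPreconnected {z : ℂ | z.re = t} ∧
    ¬ Bornology.IsBounded {z : ℂ | z.re = t} := by
  constructor
  · apply Convex.isPreconnected
    intro x hx y hy a b _ _ hab
    have hx' : x.re = t := hx
    have hy' : y.re = t := hy
    show (a • x + b • y).re = t
    simp only [Complex.add_re, Complex.real_smul, Complex.mul_re, Complex.ofReal_re,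
      Complex.ofReal_im, zero_mul, sub_zero, hx', hy']
    rw [← add_mul, hab, one_mul]
  · intro hb
    obtain ⟨C, hC⟩ := hb.exists_norm_le
    have h1 := hC ⟨t, |C| + 1⟩ rfl
    have h2 := Complex.abs_im_le_norm (⟨t, |C| + 1⟩ : ℂ)
    simp only at h2
    rw [abs_of_nonneg (by positivity)] at h2
    linarith [le_abs_self C]

theorem line_im (t : ℝ) : IsPreconnected {z : ℂ | z.im = t} ∧
    ¬ Bornology.IsBounded {z : ℂ | z.im = t} := by
  constructor
  · apply Convex.isPreconnected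
    intro x hx y hy a b _ _ hab
    have hx' : x.im = t := hx
    have hy' : y.im = t := hy
    show (a • x + b • y).im = t
    simp only [Complex.add_im, Complex.real_smul, Complex.mul_im, Complex.ofReal_re,
      Complex.ofReal_im, zero_mul, add_zero, hx', hy']
    rw [← add_mul, hab, one_mul]
  · intro hb
    obtain ⟨C, hC⟩ := hb.exists_norm_le
    have h1 := hC ⟨|C| + 1, t⟩ rfl
    have h2 := Complex.abs_re_le_norm (⟨|C| + 1, t⟩ : ℂ)
    simp only at h2
    rw [abs_of_nonneg (by positivity)] at h2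
    linarith [le_abs_self C]

open Classical in
/-- TARGET 2: discrete Ladyzhenskaya inequality -/
theorem lady_packing {V : Type} {K : Tri V} (hK : K.Connected) (Q : Packing K)
    (hQ : Q.Univalent) (d : ℕ) (hd : ∀ v, {w | K.Adj v w}.encard ≤ d) {κ : ℝ} (hκ0 : 0 < κ)
    (hκ1 : κ ≤ 1) (hrQ : ∀ a, K.Interior a → ∀ b, K.Adj a b → κ * Q.r a ≤ Q.r b)
    (S F : Finset V) (hSF : S ⊆ F)
    (hS : ∀ u ∈ S, K.Interior u ∧ ∀ v, K.Adj u v → K.Interior v ∧ v ∈ F)
    (f : V → ℝ) (hf : ∀ v, v ∉ S → f v = 0) :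
    ∑ v ∈ S, (Q.r v) ^ 2 * (f v) ^ 4 ≤ (8 * d / κ ^ 2) *
      (∑ u ∈ F, ∑ v ∈ F.filter (fun v => K.Adj u v), (f v - f u) ^ 2) *
      (∑ v ∈ S, (Q.r v) ^ 2 * (f v) ^ 2) := by
  have hS' : ∀ u ∈ S, K.Interior u ∧ ∀ v, K.Adj u v → v ∈ F := fun u hu =>
    ⟨(hS u hu).1, fun v hv => ((hS u hu).2 v hv).2⟩
  obtain ⟨g, hg⟩ : ∃ g : V → ℝ, g = fun v => (f v) ^ 2 := ⟨_, rfl⟩
  obtain ⟨G, hG⟩ : ∃ G : V → ℝ, G = fun u => ∑ w ∈ F.filter (fun v => K.Adj u v), |g u - g w| :=
    ⟨_, rfl⟩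
  have g0 : ∀ v, v ∉ S → g v = 0 := by
    intro v hv
    rw [hg]; simp only; rw [hf v hv]; ring
  have gn : ∀ v, 0 ≤ g v := by
    intro v; rw [hg]; positivity
  have G0 : ∀ u, 0 ≤ G u := by
    intro u; rw [hG]; exact Finset.sum_nonneg (fun _ _ => abs_nonneg _)
  have hGle : ∀ u ∈ F, ∀ w ∈ F, K.Adj u w → |g u - g w| ≤ G u := by
    intro u _ w hw huw
    rw [hG]
    exact Finset.single_le_sum (f := fun w => |g u - g w|) (fun _ _ => abs_nonneg _)
      (Finset.mem_filter.mpr ⟨hw, huw⟩)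
  have L := lady S F Q.c Q.r (fun i _ => Q.r_pos i) (fun i _ => Q.r_pos i)
    (fun i _ j _ hij => Packing.sep hQ hij) g G (fun i _ => gn i) (fun i _ => G0 i)
    (by
      intro v hv t ht
      have hne : (Q.disc v ∩ {z : ℂ | z.re = t}).Nonempty := by
        refine ⟨⟨t, (Q.c v).im⟩, ?_, rfl⟩
        rw [Packing.disc, Metric.mem_closedBall, Complex.dist_eq]
        have : (⟨t, (Q.c v).im⟩ : ℂ) - Q.c v = ((t - (Q.c v).re : ℝ) : ℂ) := by
          apply Complex.ext <;> simp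
        rw [this, Complex.norm_real, Real.norm_eq_abs]
        exact ht.le
      exact line_sum hK Q hQ S F hSF hS' g g0 _ (line_re t).1 (line_re t).2 v hv hne G G0 hGle _
        (by
          rintro u hu ⟨z, hz, hzt⟩
          have hzt' : z.re = t := hzt
          rw [Packing.disc, Metric.mem_closedBall, Complex.dist_eq] at hz
          refine Finset.mem_filter.mpr ⟨hu, ?_⟩
          have := Complex.abs_re_le_norm (z - Q.c u)
          rw [Complex.sub_re, hzt'] at this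
          exact this.trans hz))
    (by
      intro v hv t ht
      have hne : (Q.disc v ∩ {z : ℂ | z.im = t}).Nonempty := by
        refine ⟨⟨(Q.c v).re, t⟩, ?_, rfl⟩
        rw [Packing.disc, Metric.mem_closedBall, Complex.dist_eq]
        have : (⟨(Q.c v).re, t⟩ : ℂ) - Q.c v = ((t - (Q.c v).im : ℝ) : ℂ) * Complex.I := by
          apply Complex.ext <;> simp
        rw [this, norm_mul, Complex.norm_I, mul_one, Complex.norm_real, Real.norm_eq_abs]
        exact ht.le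
      exact line_sum hK Q hQ S F hSF hS' g g0 _ (line_im t).1 (line_im t).2 v hv hne G G0 hGle _
        (by
          rintro u hu ⟨z, hz, hzt⟩
          have hzt' : z.im = t := hzt
          rw [Packing.disc, Metric.mem_closedBall, Complex.dist_eq] at hz
          refine Finset.mem_filter.mpr ⟨hu, ?_⟩
          have := Complex.abs_im_le_norm (z - Q.c u)
          rw [Complex.sub_im, hzt'] at this
          exact this.trans hz))
  have e1 : ∑ v ∈ S, (Q.r v) ^ 2 * (g v) ^ 2 = ∑ v ∈ S, (Q.r v) ^ 2 * (f v) ^ 4 := by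
    apply Finset.sum_congr rfl
    intro v _
    rw [hg]; ring
  rw [e1] at L
  have e2 : ∑ u ∈ F, Q.r u * G u = ∑ u ∈ F, ∑ w ∈ F.filter (fun v => K.Adj u v),
      |f w - f u| * (Q.r u * |f u + f w|) := by
    apply Finset.sum_congr rfl
    intro u _
    rw [hG]
    simp only
    rw [Finset.mul_sum]
    apply Finset.sum_congr rfl
    intro w _
    rw [hg]
    simp only
    have : f u ^ 2 - f w ^ 2 = -((f w - f u) * (f u + f w)) := by ring
    rw [this, abs_neg, abs_mul]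
    ring
  have cs := cs_double F (fun u => F.filter (fun v => K.Adj u v)) (fun u w => |f w - f u|)
    (fun u w => Q.r u * |f u + f w|)
  simp only [sq_abs, mul_pow] at cs
  rw [← e2] at cs
  have hdeg : ∀ u, (((F.filter (fun v => K.Adj u v)).card : ℕ) : ℝ) ≤ d := by
    intro u
    have h1 : ((F.filter (fun v => K.Adj u v) : Finset V) : Set V).encard ≤ d := by
      refine (Set.encard_le_encard ?_).trans (hd u)
      intro w hw
      have := Finset.mem_coe.mp hw
      exact (Finset.mem_filter.mp this).2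
    rw [Set.encard_coe_eq_coe_finsetCard] at h1
    exact_mod_cast h1
  have db := double_bound K.Adj (fun u v h => Tri.adj_symm h) S F hSF d Q.r f hκ0 hκ1 Q.r_pos hdeg
    (fun w hw u hwu => hrQ u ((hS w hw).2 u hwu).1 w (Tri.adj_symm hwu)) hf
  obtain ⟨E, hE⟩ : ∃ E, E = ∑ u ∈ F, ∑ v ∈ F.filter (fun v => K.Adj u v), (f v - f u) ^ 2 :=
    ⟨_, rfl⟩
  have E0 : 0 ≤ E := by
    rw [hE]; exact Finset.sum_nonneg (fun _ _ => Finset.sum_nonneg (fun _ _ => sq_nonneg _))
  rw [← hE] at cs ⊢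
  calc _ ≤ 2 * (∑ u ∈ F, Q.r u * G u) ^ 2 := L
    _ ≤ 2 * (E * ((4 * d / κ ^ 2) * ∑ v ∈ S, (Q.r v) ^ 2 * (f v) ^ 2)) := by
        have := mul_le_mul_of_nonneg_left db E0
        linarith
    _ = _ := by ring

end Pool.Agent.Helper11.Koebe
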