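import Pool.Agent.Helper11.Koebe.Far
import Pool.Agent.Helper11.Koebe.Meas

namespace Pool.Agent.Helper11.Koebe

open Metric Packing

theorem walk_sum {V : Type} (H : SimpleGraph V) (g G : V → ℝ) (hG0 : ∀ u, 0 ≤ G u)
    (hG : ∀ u w, H.Adj u w → |g u - g w| ≤ G u) {u y : V} (p : H.Walk u y) (hp : p.IsPath)
    (T : Finset V) (hT : ∀ w ∈ p.support, w ∈ T) : g u - g y ≤ ∑ w ∈ T, G w := by
  classical
  -- strengthened statement
  suffices h : ∀ (u y : V) (p : H.Walk u y), p.IsPath → ∀ T : Finset V,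
      (∀ w ∈ p.support, w ≠ y → w ∈ T) → g u - g y ≤ ∑ w ∈ T, G w from
    h u y p hp T (fun w hw _ => hT w hw)
  intro u y p
  induction p with
  | nil =>
    intro _ T _
    rw [sub_self]
    exact Finset.sum_nonneg fun w _ => hG0 w
  | @cons u u' y h p ih =>
    intro hp T hT
    rw [SimpleGraph.Walk.cons_isPath_iff] at hp
    obtain ⟨hp1, hp2⟩ := hp
    have huy : u ≠ y := by
      rintro rfl
      exact hp2 p.end_mem_support
    have huT : u ∈ T := hT u (by simp) huy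
    have h1 := ih hp1 (T.erase u) (by
      intro w hw hwy
      rw [Finset.mem_erase]
      refine ⟨?_, hT w (by simp [hw]) hwy⟩
      rintro rfl
      exact hp2 hw)
    have h2 := abs_le.1 (hG u u' h)
    rw [← Finset.add_sum_erase T G huT]
    linarith [h2.2]

/-- TARGET 1: sum of increments along a connected unbounded set -/
theorem line_sum {V : Type} {K : Tri V} (hK : K.Connected) (Q : Packing K)
    (hQ : Q.Univalent) (S F : Finset V) (hSF : S ⊆ F)
    (hS : ∀ u ∈ S, K.Interior u ∧ ∀ v, K.Adj u v → v ∈ F)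
    (g : V → ℝ) (hg : ∀ v, v ∉ S → g v = 0) (γ : Set ℂ) (hγ : IsPreconnected γ)
    (hγu : ¬ Bornology.IsBounded γ) (v : V) (hv : v ∈ S) (hvγ : (Q.disc v ∩ γ).Nonempty)
    (G : V → ℝ) (hG0 : ∀ u, 0 ≤ G u) (hG : ∀ u ∈ F, ∀ w ∈ F, K.Adj u w → |g u - g w| ≤ G u)
    (T : Finset V) (hT : ∀ u ∈ F, (Q.disc u ∩ γ).Nonempty → u ∈ T) :
    g v ≤ ∑ u ∈ T, G u := by
  classical
  let H : SimpleGraph V :=
    { Adj := fun u w => K.Adj u w ∧ (u ∈ F ∧ (Q.disc u ∩ γ).Nonempty) ∧
        (w ∈ F ∧ (Q.disc w ∩ γ).Nonempty)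
      symm := ⟨fun u w h => ⟨Tri.adj_symm h.1, h.2.2, h.2.1⟩⟩
      loopless := ⟨fun u h => Tri.adj_ne h.1 rfl⟩ }
  set W : Set V := {u | u ∈ S ∧ (Q.disc u ∩ γ).Nonempty ∧ H.Reachable v u} with hW
  have hWfin : W.Finite := S.finite_toSet.subset (fun u hu => hu.1)
  have hvW : v ∈ W := ⟨hv, hvγ, SimpleGraph.Reachable.refl v⟩
  have hnot : ¬ ∀ x ∈ W, ∀ y, K.Adj x y → (Q.disc y ∩ γ).Nonempty → y ∈ W := by
    intro hcl
    have hcov := Packing.covered hQ W hWfin (fun x hx => (hS x hx.1).1) γ hγ v hvW hvγ hcl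
    apply hγu
    have hcomp : IsCompact (⋃ x ∈ W, Q.star x) :=
      hWfin.isCompact_biUnion fun x _ => Packing.star_compact x
    exact hcomp.isBounded.subset hcov
  push Not at hnot
  obtain ⟨x, hx, y, hxy, hyγ, hyW⟩ := hnot
  have hyF : y ∈ F := (hS x hx.1).2 y hxy
  have hHxy : H.Adj x y := ⟨hxy, ⟨hSF hx.1, hx.2.1⟩, ⟨hyF, hyγ⟩⟩
  have hreach : H.Reachable v y := hx.2.2.trans hHxy.reachable
  have hyS : y ∉ S := fun h => hyW ⟨h, hyγ, hreach⟩
  obtain ⟨p, hp⟩ := hreach.exists_isPath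
  have hsup : ∀ w ∈ p.support, w ∈ T := by
    have hgen : ∀ (a b : V) (p : H.Walk a b), a ∈ T → ∀ w ∈ p.support, w ∈ T := by
      intro a b p
      induction p with
      | nil =>
        intro ha w hw
        rw [SimpleGraph.Walk.support_nil, List.mem_singleton] at hw
        rw [hw]; exact ha
      | @cons a a' b h p ih =>
        intro ha w hw
        rw [SimpleGraph.Walk.support_cons, List.mem_cons] at hw
        rcases hw with rfl | hw
        · exact ha
        · exact ih (hT a' h.2.2.1 h.2.2.2) w hw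
    exact hgen v y p (hT v (hSF hv) hvγ)
  have hfin := walk_sum H g G hG0 (fun u w h => hG u h.2.1.1 w h.2.2.1 h.1) p hp T hsup
  rw [hg y hyS] at hfin
  linarith

end Pool.Agent.Helper11.Koebe
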