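import Pool.Agent.Helper11.Koebe.Summation
import Pool.Agent.Helper11.Koebe.LadyPacking
import Pool.Agent.Helper11.Koebe.Cacc
import Pool.Agent.Helper11.Koebe.RingLemma

namespace Pool.Agent.Helper11.Koebe

open Metric Packing

theorem moser (K m0 : ℝ) (hK : 0 < K) (hm0 : 0 < m0) (M : ℕ → ℝ) (hM : ∀ j, m0 ≤ M j)
    (hstep : ∀ j, M (j + 1) ≤ K * 8 ^ j * (M j) ^ 2) : 1 ≤ 8 * K * M 0 := by
  by_contra hcon
  push Not at hcon
  have hMpos : ∀ j, 0 < M j := fun j => hm0.trans_le (hM j)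
  set a0 := 8 * K * M 0 with ha0
  have ha0pos : 0 < a0 := by have := hMpos 0; positivity
  have key : ∀ j, 8 * K * 8 ^ j * M j ≤ a0 ^ (2 ^ j) := by
    intro j
    induction j with
    | zero => simp [ha0]
    | succ j ih =>
      have h1 : 8 * K * 8 ^ (j + 1) * M (j + 1) ≤ (8 * K * 8 ^ j * M j) ^ 2 := by
        calc 8 * K * 8 ^ (j + 1) * M (j + 1)
            ≤ 8 * K * 8 ^ (j + 1) * (K * 8 ^ j * (M j) ^ 2) := by
              gcongr; exact hstep j
          _ = (8 * K * 8 ^ j * M j) ^ 2 := by ring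
      have h2 : (8 * K * 8 ^ j * M j) ^ 2 ≤ (a0 ^ (2 ^ j)) ^ 2 := by
        have := hMpos j
        gcongr
      calc _ ≤ _ := h1
        _ ≤ _ := h2
        _ = a0 ^ (2 ^ (j+1)) := by rw [← pow_mul, pow_succ]
  obtain ⟨n, hn⟩ := exists_pow_lt_of_lt_one (show 0 < 8 * K * m0 by positivity) hcon
  have h1 := key n
  have h2 : a0 ^ (2 ^ n) ≤ a0 ^ n :=
    pow_le_pow_of_le_one ha0pos.le hcon.le Nat.lt_two_pow_self.le
  have h3 : 8 * K * m0 ≤ 8 * K * 8 ^ n * M n := by
    have h4 : (1 : ℝ) ≤ 8 ^ n := one_le_pow₀ (by norm_num)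
    calc 8 * K * m0 = 8 * K * 1 * m0 := by ring
      _ ≤ 8 * K * 8 ^ n * M n := by
        gcongr
        exact hM n
  linarith

theorem abs_log_div_le {κ x y : ℝ} (hκ : 0 < κ) (hx : 0 < x) (hy : 0 < y) (h1 : κ * x ≤ y)
    (h2 : κ * y ≤ x) : |Real.log y - Real.log x| ≤ Real.log (1 / κ) := by
  rw [Real.log_div one_ne_zero hκ.ne', Real.log_one, zero_sub, abs_le]
  have e1 := Real.log_le_log (by positivity) h1
  have e2 := Real.log_le_log (by positivity) h2
  rw [Real.log_mul hκ.ne' hx.ne'] at e1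
  rw [Real.log_mul hκ.ne' hy.ne'] at e2
  constructor <;> linarith

/-- cutoff function -/
noncomputable def cut (a b x : ℝ) : ℝ := max 0 (min 1 ((a - x) / (a - b)))

theorem cut_nonneg (a b x : ℝ) : 0 ≤ cut a b x := le_max_left _ _

theorem cut_le_one (a b x : ℝ) : cut a b x ≤ 1 := max_le zero_le_one (min_le_left _ _)

theorem cut_zero {a b x : ℝ} (hab : b < a) (hx : a ≤ x) : cut a b x = 0 := by
  unfold cut
  apply max_eq_left
  refine (min_le_right _ _).trans ?_
  apply div_nonpos_of_nonpos_of_nonneg <;> linarith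

theorem cut_one {a b x : ℝ} (hab : b < a) (hx : x ≤ b) : cut a b x = 1 := by
  unfold cut
  rw [min_eq_left, max_eq_right zero_le_one]
  rw [le_div_iff₀ (by linarith)]
  linarith

theorem cut_lip {a b x y : ℝ} (hab : b < a) : |cut a b x - cut a b y| ≤ |x - y| / (a - b) := by
  unfold cut
  have h1 : |max 0 (min 1 ((a - x) / (a - b))) - max 0 (min 1 ((a - y) / (a - b)))| ≤
      |min 1 ((a - x) / (a - b)) - min 1 ((a - y) / (a - b))| := by
    exact (abs_max_sub_max_le_max _ _ _ _).trans (by simp)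
  have h2 : |min 1 ((a - x) / (a - b)) - min 1 ((a - y) / (a - b))| ≤
      |(a - x) / (a - b) - (a - y) / (a - b)| := by
    exact (abs_min_sub_min_le_max _ _ _ _).trans (by simp)
  refine h1.trans (h2.trans (le_of_eq ?_))
  rw [← sub_div, abs_div, abs_of_pos (show 0 < a - b by linarith)]
  congr 1
  rw [abs_sub_comm]
  congr 1
  ring

theorem card_nbrs {V : Type} {K : Tri V} {D : ℕ} {u : V} (h : {w | K.Adj u w}.encard ≤ D)
    (T : Finset V) (hT : ∀ v ∈ T, K.Adj u v) : (T.card : ℝ) ≤ D := by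
  have h1 : (T : Set V).encard ≤ {w | K.Adj u w}.encard :=
    Set.encard_le_encard fun v hv => hT v hv
  rw [Set.encard_coe_eq_coe_finsetCard] at h1
  have h2 := h1.trans h
  exact_mod_cast h2

open Classical in
/-- one Moser step -/
theorem moser_step {V : Type} {K : Tri V} (hK : K.Connected) (P Q : Packing K)
    (hP : P.Univalent) (hQ : Q.Univalent) (D : ℕ) (hdeg : ∀ v, {w | K.Adj v w}.encard ≤ D)
    {κ : ℝ} (hκ0 : 0 < κ) (hκ1 : κ ≤ 1)
    (hrP : ∀ a, K.Interior a → ∀ b, K.Adj a b → κ * P.r a ≤ P.r b)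
    (hrQ : ∀ a, K.Interior a → ∀ b, K.Adj a b → κ * Q.r a ≤ Q.r b)
    (F : Finset V) (α β q : ℝ) (hβα : β < α) (hq : 0 < q)
    (hout : ∀ v, v ∉ F → α ≤ ‖Q.c v‖)
    (hS : ∀ u, ‖Q.c u‖ < α → K.Interior u ∧ ∀ v, K.Adj u v → K.Interior v ∧ v ∈ F) :
    ∑ v ∈ F.filter (fun v => ‖Q.c v‖ < β), (Q.r v) ^ 2 *
        Real.exp (2 * ((2 * q) * Real.log (P.r v / Q.r v))) ≤
      (2560 * D ^ 2 / κ ^ 6) * ((1 + q * (2 * Real.log (1 / κ))) * (2 / (α - β) ^ 2)) *
      (2 * (∑ v ∈ F.filter (fun v => ‖Q.c v‖ < α), (Q.r v) ^ 2 *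
        Real.exp (2 * (q * Real.log (P.r v / Q.r v)))) ^ 2) := by
  set h : V → ℝ := fun v => Real.log (P.r v / Q.r v) with hh
  set S := F.filter (fun v => ‖Q.c v‖ < α) with hSdef
  set χ : V → ℝ := fun v => cut α β ‖Q.c v‖ with hχ
  set δ := α - β with hδ
  have hδ0 : 0 < δ := by rw [hδ]; linarith
  set M := ∑ v ∈ S, (Q.r v) ^ 2 * Real.exp (2 * (q * h v)) with hM
  have hM0 : 0 ≤ M := Finset.sum_nonneg fun v _ => by positivity
  have hSF : S ⊆ F := Finset.filter_subset _ _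
  have hSmem : ∀ u, u ∈ S → ‖Q.c u‖ < α := fun u hu => (Finset.mem_filter.1 hu).2
  have hS' : ∀ u ∈ S, K.Interior u ∧ ∀ v, K.Adj u v → K.Interior v ∧ v ∈ F :=
    fun u hu => hS u (hSmem u hu)
  have hχ0 : ∀ v, 0 ≤ χ v := fun v => cut_nonneg _ _ _
  have hχ1 : ∀ v, χ v ≤ 1 := fun v => cut_le_one _ _ _
  have hχS : ∀ v, v ∉ S → χ v = 0 := by
    intro v hv
    apply cut_zero hβα
    by_cases hvF : v ∈ F
    · by_contra hcon
      exact hv (Finset.mem_filter.2 ⟨hvF, not_le.1 hcon⟩)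
    · exact hout v hvF
  set Λ := 2 * Real.log (1 / κ) with hΛ
  have hlogκ : 0 ≤ Real.log (1 / κ) := Real.log_nonneg (by rw [le_div_iff₀ hκ0]; linarith)
  have hΛ0 : 0 ≤ Λ := by positivity
  have hhlog : ∀ v, h v = Real.log (P.r v) - Real.log (Q.r v) := fun v =>
    Real.log_div (P.r_pos v).ne' (Q.r_pos v).ne'
  have hΛb : ∀ u ∈ S, ∀ v, K.Adj u v → |h v - h u| ≤ Λ := by
    intro u hu v huv
    have hui := (hS' u hu).1
    have hvi := ((hS' u hu).2 v huv).1
    have e1 := abs_log_div_le hκ0 (P.r_pos u) (P.r_pos v) (hrP u hui v huv)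
      (hrP v hvi u (Tri.adj_symm huv))
    have e2 := abs_log_div_le hκ0 (Q.r_pos u) (Q.r_pos v) (hrQ u hui v huv)
      (hrQ v hvi u (Tri.adj_symm huv))
    rw [hhlog, hhlog]
    rw [abs_le] at e1 e2 ⊢
    constructor <;> linarith [e1.1, e1.2, e2.1, e2.2]
  obtain ⟨c, hcs, hc0, hc1, hcl, hca, hcsum⟩ := summation hK P Q hP hQ hκ0 hκ1 hrP hrQ S F hSF hS'
    (fun v => χ v ^ 2 * Real.exp (2 * (q * h v))) (fun v hv => by
      simp only [hχS v hv]; ring)
  have hcacc := caccioppoli S F K.Adj (fun u v huv => Tri.adj_symm huv) c h χ q Λ κ hq hΛ0 hκ0 hcs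
    hc0 hc1 hcl hca hχ0 hχS hΛb hcsum
  set f : V → ℝ := fun v => χ v * Real.exp (q * h v) with hf
  set E := ∑ u ∈ F, ∑ v ∈ F.filter (fun v => K.Adj u v), (f v - f u) ^ 2 with hE
  have hlady := lady_packing hK Q hQ D hdeg hκ0 hκ1 hrQ S F hSF hS' f (fun v hv => by
    simp only [hf, hχS v hv, zero_mul])
  -- bound of the right side of the Caccioppoli inequality
  have hdiff : ∀ u ∈ S, ∀ v, K.Adj u v → (χ v - χ u) ^ 2 ≤ (4 / (κ ^ 2 * δ ^ 2)) * Q.r u ^ 2 := by
    intro u hu v huv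
    have hvi := ((hS' u hu).2 v huv).1
    have hru := Q.r_pos u
    have hrv := Q.r_pos v
    have e1 : |χ v - χ u| ≤ (Q.r u + Q.r v) / δ := by
      refine (cut_lip hβα).trans ?_
      gcongr
      rw [← Q.tangent _ _ huv, dist_comm, dist_eq_norm]
      exact abs_norm_sub_norm_le _ _
    have e2 : κ * Q.r v ≤ Q.r u := hrQ v hvi u (Tri.adj_symm huv)
    have e3 : (Q.r u + Q.r v) / δ ≤ (2 / (κ * δ)) * Q.r u := by
      rw [div_mul_eq_mul_div, div_le_div_iff₀ hδ0 (by positivity)]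
      have : κ * (Q.r u + Q.r v) ≤ 2 * Q.r u := by nlinarith
      nlinarith
    have e4 : |χ v - χ u| ^ 2 ≤ ((2 / (κ * δ)) * Q.r u) ^ 2 :=
      pow_le_pow_left₀ (abs_nonneg _) (e1.trans e3) 2
    rw [sq_abs] at e4
    refine e4.trans (le_of_eq ?_)
    field_simp
    ring
  have hDbound : ∑ u ∈ F, ∑ v ∈ F.filter (fun v => K.Adj u v),
        (χ v - χ u) ^ 2 * min (Real.exp (2 * (q * h u))) (Real.exp (2 * (q * h v))) ≤
      (8 * D / (κ ^ 2 * δ ^ 2)) * M := by
    set B := 4 / (κ ^ 2 * δ ^ 2) with hB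
    have hB0 : 0 ≤ B := by positivity
    set t : V → ℝ := fun u => if u ∈ S then B * (Q.r u ^ 2 * Real.exp (2 * (q * h u))) else 0
      with ht
    have ht0 : ∀ u, 0 ≤ t u := by
      intro u
      simp only [ht]
      split_ifs <;> positivity
    have hterm : ∀ u ∈ F, ∀ v ∈ F.filter (fun v => K.Adj u v),
        (χ v - χ u) ^ 2 * min (Real.exp (2 * (q * h u))) (Real.exp (2 * (q * h v))) ≤
        t u + t v := by
      intro u _ v hv
      have huv := (Finset.mem_filter.1 hv).2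
      have hmin0 : 0 ≤ min (Real.exp (2 * (q * h u))) (Real.exp (2 * (q * h v))) :=
        le_min (Real.exp_pos _).le (Real.exp_pos _).le
      by_cases huS : u ∈ S
      · have e1 : t u = B * (Q.r u ^ 2 * Real.exp (2 * (q * h u))) := by simp only [ht, if_pos huS]
        have e2 := hdiff u huS v huv
        calc (χ v - χ u) ^ 2 * min (Real.exp (2 * (q * h u))) (Real.exp (2 * (q * h v)))
            ≤ (B * Q.r u ^ 2) * Real.exp (2 * (q * h u)) := by
              apply mul_le_mul e2 (min_le_left _ _) hmin0 (by positivity)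
          _ = t u := by rw [e1]; ring
          _ ≤ t u + t v := by linarith [ht0 v]
      · by_cases hvS : v ∈ S
        · have e1 : t v = B * (Q.r v ^ 2 * Real.exp (2 * (q * h v))) := by
            simp only [ht, if_pos hvS]
          have e2 := hdiff v hvS u (Tri.adj_symm huv)
          rw [show (χ u - χ v) ^ 2 = (χ v - χ u) ^ 2 by ring] at e2
          calc (χ v - χ u) ^ 2 * min (Real.exp (2 * (q * h u))) (Real.exp (2 * (q * h v)))
              ≤ (B * Q.r v ^ 2) * Real.exp (2 * (q * h v)) := by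
                apply mul_le_mul e2 (min_le_right _ _) hmin0 (by positivity)
            _ = t v := by rw [e1]; ring
            _ ≤ t u + t v := by linarith [ht0 u]
        · rw [hχS u huS, hχS v hvS]
          have := ht0 u
          have := ht0 v
          simp only [sub_self]
          nlinarith
    have hsum1 : ∑ u ∈ F, ∑ v ∈ F.filter (fun v => K.Adj u v), t u ≤ D * (B * M) := by
      have e1 : ∀ u ∈ F, ∑ v ∈ F.filter (fun v => K.Adj u v), t u ≤ D * t u := by
        intro u _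
        rw [Finset.sum_const, nsmul_eq_mul]
        have := card_nbrs (hdeg u) (F.filter (fun v => K.Adj u v))
          (fun v hv => (Finset.mem_filter.1 hv).2)
        exact mul_le_mul_of_nonneg_right this (ht0 u)
      refine (Finset.sum_le_sum e1).trans (le_of_eq ?_)
      rw [← Finset.mul_sum]
      congr 1
      simp only [ht]
      rw [← Finset.sum_filter, hM, Finset.mul_sum]
      apply Finset.sum_congr _ fun _ _ => rfl
      ext v
      simp only [Finset.mem_filter]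
      exact ⟨fun h => h.2, fun h => ⟨hSF h, h⟩⟩
    have hsum2 : ∑ u ∈ F, ∑ v ∈ F.filter (fun v => K.Adj u v), t v ≤ D * (B * M) := by
      have e0 : ∑ u ∈ F, ∑ v ∈ F.filter (fun v => K.Adj u v), t v =
          ∑ u ∈ F, ∑ v ∈ F.filter (fun v => K.Adj u v), t u := by
        simp only [Finset.sum_filter]
        rw [Finset.sum_comm]
        apply Finset.sum_congr rfl
        intro u _
        apply Finset.sum_congr rfl
        intro v _
        by_cases h : K.Adj u v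
        · rw [if_pos h, if_pos (Tri.adj_symm h)]
        · rw [if_neg h, if_neg (fun h' => h (Tri.adj_symm h'))]
      rw [e0]
      exact hsum1
    calc _ ≤ ∑ u ∈ F, ∑ v ∈ F.filter (fun v => K.Adj u v), (t u + t v) :=
          Finset.sum_le_sum fun u hu => Finset.sum_le_sum fun v hv => hterm u hu v hv
      _ = ∑ u ∈ F, ∑ v ∈ F.filter (fun v => K.Adj u v), t u +
          ∑ u ∈ F, ∑ v ∈ F.filter (fun v => K.Adj u v), t v := by
          simp only [Finset.sum_add_distrib]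
      _ ≤ D * (B * M) + D * (B * M) := add_le_add hsum1 hsum2
      _ = (8 * D / (κ ^ 2 * δ ^ 2)) * M := by rw [hB]; field_simp; ring
  have hEb : E ≤ (40 * (1 + q * Λ) / κ ^ 2) * ((8 * D / (κ ^ 2 * δ ^ 2)) * M) := by
    refine hcacc.trans ?_
    apply mul_le_mul_of_nonneg_left hDbound
    positivity
  have hE0 : 0 ≤ E := Finset.sum_nonneg fun u _ => Finset.sum_nonneg fun v _ => sq_nonneg _
  have hleft : ∑ v ∈ F.filter (fun v => ‖Q.c v‖ < β), (Q.r v) ^ 2 *
        Real.exp (2 * ((2 * q) * h v)) ≤ ∑ v ∈ S, (Q.r v) ^ 2 * (f v) ^ 4 := by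
    have hsub : F.filter (fun v => ‖Q.c v‖ < β) ⊆ S := by
      intro v hv
      rw [Finset.mem_filter] at hv
      exact Finset.mem_filter.2 ⟨hv.1, hv.2.trans hβα⟩
    refine le_trans (le_of_eq ?_) (Finset.sum_le_sum_of_subset_of_nonneg hsub
      fun v _ _ => by positivity)
    apply Finset.sum_congr rfl
    intro v hv
    rw [Finset.mem_filter] at hv
    have : χ v = 1 := cut_one hβα hv.2.le
    simp only [hf, this, one_mul]
    rw [← Real.exp_nat_mul]
    congr 2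
    push_cast
    ring
  have hright : ∑ v ∈ S, (Q.r v) ^ 2 * (f v) ^ 2 ≤ M := by
    apply Finset.sum_le_sum
    intro v _
    apply mul_le_mul_of_nonneg_left _ (sq_nonneg _)
    simp only [hf]
    rw [mul_pow, ← Real.exp_nat_mul]
    have e1 : χ v ^ 2 ≤ 1 := pow_le_one₀ (hχ0 v) (hχ1 v)
    calc χ v ^ 2 * Real.exp (((2 : ℕ) : ℝ) * (q * h v)) ≤ 1 * Real.exp (((2 : ℕ) : ℝ) * (q * h v)) := by
          gcongr
      _ = _ := by rw [one_mul]; norm_num
  have hright0 : 0 ≤ ∑ v ∈ S, (Q.r v) ^ 2 * (f v) ^ 2 :=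
    Finset.sum_nonneg fun v _ => by positivity
  calc _ ≤ ∑ v ∈ S, (Q.r v) ^ 2 * (f v) ^ 4 := hleft
    _ ≤ (8 * D / κ ^ 2) * E * (∑ v ∈ S, (Q.r v) ^ 2 * (f v) ^ 2) := hlady
    _ ≤ (8 * D / κ ^ 2) * ((40 * (1 + q * Λ) / κ ^ 2) * ((8 * D / (κ ^ 2 * δ ^ 2)) * M)) * M := by
      gcongr
    _ ≤ (2560 * D ^ 2 / κ ^ 6) * ((1 + q * Λ) * (2 / δ ^ 2)) * (2 * M ^ 2) := by
      have : (8 * D / κ ^ 2) * ((40 * (1 + q * Λ) / κ ^ 2) * ((8 * D / (κ ^ 2 * δ ^ 2)) * M)) * M
          = (2560 * D ^ 2 / κ ^ 6) * ((1 + q * Λ) * (1 / δ ^ 2)) * (M ^ 2) := by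
        field_simp; ring
      rw [this]
      have h1 : (1 : ℝ) / δ ^ 2 ≤ 2 / δ ^ 2 := by gcongr; norm_num
      have h2 : M ^ 2 ≤ 2 * M ^ 2 := by nlinarith [sq_nonneg M]
      gcongr

end Pool.Agent.Helper11.Koebe
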