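import Pool.Agent.Helper11.Koebe.Geo
import Pool.Agent.Helper11.Koebe.AngDefs

namespace Pool.Agent.Helper11.Koebe

open Metric

namespace Packing

variable {V : Type*} {K : Tri V} {P : Packing K}

/-- unit direction from `a` to its neighbour `b` -/
noncomputable def dir (P : Packing K) (a b : V) : ℂ :=
  (P.c b - P.c a) / ((P.r a + P.r b : ℝ) : ℂ)

theorem dir_face {a b c : V} (hf : K.face a b c) :
    P.dir a c = Complex.exp (Complex.I * (ang (P.r a) (P.r b) (P.r c) : ℂ)) * P.dir a b :=
  direction (P.r_pos a) (P.r_pos b) (P.r_pos c) (P.tangent _ _ (Tri.adj12 hf))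
    (P.tangent _ _ (Tri.adj13 hf)) (P.tangent _ _ (Tri.adj23 hf)) (P.oriented _ _ _ hf)

theorem dir_norm {a b : V} (h : K.Adj a b) : ‖P.dir a b‖ = 1 := by
  have h1 := P.r_pos a
  have h2 := P.r_pos b
  unfold dir
  rw [norm_div, Complex.norm_real, Real.norm_of_nonneg (by positivity), ← dist_eq_norm, dist_comm,
    P.tangent _ _ h, div_self (by positivity)]

theorem c_eq_dir {a b : V} : P.c b = P.c a + ((P.r a + P.r b : ℝ) : ℂ) * P.dir a b := by
  have h1 := P.r_pos a
  have h2 := P.r_pos b
  have : ((P.r a + P.r b : ℝ) : ℂ) ≠ 0 := by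
    exact_mod_cast (by positivity : P.r a + P.r b ≠ 0)
  unfold dir
  field_simp
  ring

theorem dir_dist_eq {a b c : V} (hb : K.Adj a b) (hc : K.Adj a c) :
    ‖P.dir a b - P.dir a c‖ ^ 2 * ((P.r a + P.r b) * (P.r a + P.r c))
      = (dist (P.c b) (P.c c)) ^ 2 - (P.r b - P.r c) ^ 2 :=
  direction_dist (P.r_pos a) (P.r_pos b) (P.r_pos c) (P.tangent _ _ hb) (P.tangent _ _ hc)

theorem dir_dist_ge (hP : P.Univalent) {a b c : V} (hb : K.Adj a b) (hc : K.Adj a c)
    (hbc : b ≠ c) :
    4 * (P.r b * P.r c) ≤ ‖P.dir a b - P.dir a c‖ ^ 2 * ((P.r a + P.r b) * (P.r a + P.r c)) := by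
  rw [dir_dist_eq hb hc]
  have h := sep hP hbc
  have h1 := P.r_pos b
  have h2 := P.r_pos c
  have : (P.r b + P.r c) ^ 2 ≤ dist (P.c b) (P.c c) ^ 2 := by gcongr
  nlinarith

theorem dir_dist_face {a b c : V} (hf : K.face a b c) :
    ‖P.dir a b - P.dir a c‖ ^ 2 * ((P.r a + P.r b) * (P.r a + P.r c)) = 4 * (P.r b * P.r c) := by
  rw [dir_dist_eq (Tri.adj12 hf) (Tri.adj13 hf), P.tangent _ _ (Tri.adj23 hf)]
  ring

/-- a point of the disc of `a` in the sector of a face lies in the triangle -/
theorem tri_of_sector (hP : P.Univalent) {a b c : V} (hf : K.face a b c) {l m : ℝ} (hl : 0 ≤ l)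
    (hm : 0 ≤ m) {t : ℂ} (ht : t = P.c a + (l : ℂ) * (P.c b - P.c a) + (m : ℂ) * (P.c c - P.c a))
    (hta : t ∈ P.disc a) : t ∈ P.tri a b c := by
  have ho := P.oriented _ _ _ hf
  by_cases hlm : l + m ≤ 1
  · unfold tri
    rw [mem_tri_iff ho]
    have e1 : orient (P.c a) (P.c b) t = m * orient (P.c a) (P.c b) (P.c c) := by
      rw [ht]
      simp [orient]
      ring
    have e2 : orient (P.c c) (P.c a) t = l * orient (P.c a) (P.c b) (P.c c) := by
      rw [ht]
      simp [orient]
      ring
    have e3 : orient (P.c b) (P.c c) t = (1 - l - m) * orient (P.c a) (P.c b) (P.c c) := by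
      rw [ht]
      simp [orient]
      ring
    rw [e1, e2, e3]
    exact ⟨by positivity, mul_nonneg (by linarith) ho.le, by positivity⟩
  · exfalso
    push Not at hlm
    have hs : (0 : ℝ) < l + m := by linarith
    set z : ℂ := P.c a + ((1 / (l + m) : ℝ) : ℂ) * (t - P.c a) with hz
    have hzseg : z ∈ segment ℝ (P.c b) (P.c c) := by
      refine ⟨l / (l + m), m / (l + m), by positivity, by positivity, by field_simp, ?_⟩
      have hsc : ((l : ℂ) + (m : ℂ)) ≠ 0 := by exact_mod_cast hs.ne'
      rw [hz, ht]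
      simp only [Complex.real_smul]
      push_cast
      field_simp
      ring
    have hzd : z ∈ P.disc a := by
      rw [disc, mem_closedBall, dist_eq_norm] at hta ⊢
      rw [hz, add_sub_cancel_left, norm_mul, Complex.norm_real, Real.norm_of_nonneg (by positivity)]
      have : 1 / (l + m) ≤ 1 := by
        rw [div_le_one hs]; exact hlm.le
      calc 1 / (l + m) * ‖t - P.c a‖ ≤ 1 * ‖t - P.c a‖ := by gcongr
        _ ≤ P.r a := by rw [one_mul]; exact hta
    exact edge_not_disc hP (Tri.adj23 hf) (Tri.face_ne12 hf) (Tri.face_ne13 hf) hzseg hzd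

/-- the angles around an interior vertex of a univalent packing add up to `2π` -/
theorem angle_sum (hK : K.Connected) (hP : P.Univalent) {a : V} {n : ℕ} (hn : 3 ≤ n) {b : ℕ → V}
    (hper : ∀ i, b (i + n) = b i) (hinj : Set.InjOn b (Set.Iio n))
    (hL : ∀ x y, K.face a x y ↔ ∃ i, b i = x ∧ b (i + 1) = y) :
    ∑ i ∈ Finset.range n, ang (P.r a) (P.r (b i)) (P.r (b (i + 1))) = 2 * Real.pi := by
  set α : ℕ → ℝ := fun i => ang (P.r a) (P.r (b i)) (P.r (b (i + 1))) with hα
  set S : ℕ → ℝ := fun k => ∑ i ∈ Finset.range k, α i with hS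
  have hface : ∀ i, K.face a (b i) (b (i+1)) := fun i => (hL _ _).2 ⟨i, rfl, rfl⟩
  have hα0 : ∀ i, 0 < α i := fun i => ang_pos (P.r_pos _) (P.r_pos _) (P.r_pos _)
  have hαπ : ∀ i, α i < Real.pi := fun i => ang_lt (P.r_pos _) (P.r_pos _) (P.r_pos _)
  have hSs : ∀ k, S (k+1) = S k + α k := fun k => Finset.sum_range_succ _ _
  have hS0 : S 0 = 0 := by simp [hS]
  have hdir : ∀ k, P.dir a (b k) = Complex.exp (Complex.I * (S k : ℂ)) * P.dir a (b 0) := by
    intro k
    induction k with
    | zero => simp [hS0]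
    | succ k ih =>
      rw [dir_face (hface k), ih, hSs k, ← mul_assoc, ← Complex.exp_add]
      congr 2
      push_cast
      ring
  have hnorm : ∀ i, ‖P.dir a (b i)‖ = 1 := fun i => dir_norm (Tri.adj12 (hface i))
  have hne0 : P.dir a (b 0) ≠ 0 := by
    intro h; have := hnorm 0; rw [h, norm_zero] at this; norm_num at this
  have hexp : Complex.exp (Complex.I * (S n : ℂ)) = 1 := by
    have h1 := hdir n
    have h2 : b n = b 0 := by have := hper 0; simpa using this
    rw [h2] at h1
    have h3 : (Complex.exp (Complex.I * (S n : ℂ)) - 1) * P.dir a (b 0) = 0 := by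
      rw [sub_mul, ← h1, one_mul, sub_self]
    rcases mul_eq_zero.1 h3 with h | h
    · exact sub_eq_zero.1 h
    · exact absurd h hne0
  obtain ⟨m, hm⟩ := Complex.exp_eq_one_iff.1 hexp
  have hSn : S n = 2 * Real.pi * m := by
    have h1 : (S n : ℂ) = ((2 * Real.pi * m : ℝ) : ℂ) := by
      have h2 : Complex.I * (S n : ℂ) = Complex.I * ((2 * Real.pi * m : ℝ) : ℂ) := by
        rw [hm]; push_cast; ring
      exact mul_left_cancel₀ Complex.I_ne_zero h2
    exact_mod_cast h1
  have hpi := Real.pi_pos
  have hSnpos : 0 < S n := by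
    have : 0 < n := by omega
    exact Finset.sum_pos (fun i _ => hα0 i) ⟨0, Finset.mem_range.2 this⟩
  have hm1 : 1 ≤ m := by
    by_contra hcon
    push Not at hcon
    have : m ≤ 0 := by omega
    have hmr : (m : ℝ) ≤ 0 := by exact_mod_cast this
    nlinarith
  have hm1r : (1 : ℝ) ≤ m := by exact_mod_cast hm1
  have hex : ∃ k, 2 * Real.pi ≤ S k := ⟨n, by rw [hSn]; nlinarith⟩
  classical
  obtain ⟨k, hk, hkmin⟩ : ∃ k, 2 * Real.pi ≤ S k ∧ ∀ j < k, S j < 2 * Real.pi :=
    ⟨Nat.find hex, Nat.find_spec hex, fun j hj => not_le.1 (Nat.find_min hex hj)⟩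
  have hkn : k ≤ n := by
    by_contra hcon
    push Not at hcon
    have := hkmin n hcon
    rw [hSn] at this
    nlinarith
  obtain ⟨j, rfl⟩ : ∃ j, k = j + 1 := by
    cases k with
    | zero => rw [hS0] at hk; linarith
    | succ j => exact ⟨j, rfl⟩
  have hj := hkmin j (by omega)
  rcases Nat.lt_or_ge (j+1) n with hjn | hjn
  · exfalso
    have hj1 : 1 ≤ j := by
      by_contra hcon
      have : j = 0 := by omega
      subst this
      rw [hSs, hS0] at hk
      linarith [hαπ 0]
    have hb0j : b 0 ≠ b j := by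
      intro h
      have := hinj (show 0 ∈ Set.Iio n from (by omega : 0 < n)) (show j ∈ Set.Iio n from (by omega : j < n)) h
      omega
    have hb0j' : b 0 ≠ b (j+1) := by
      intro h
      have := hinj (show 0 ∈ Set.Iio n from (by omega : 0 < n)) (show j+1 ∈ Set.Iio n from hjn) h
      omega
    rcases hk.lt_or_eq with hlt | heq
    · -- strictly inside the sector
      set β := 2 * Real.pi - S j with hβ
      have hβ0 : 0 < β := by linarith
      have hβα : β < α j := by rw [hSs] at hlt; linarith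
      have hsα : 0 < Real.sin (α j) := Real.sin_pos_of_pos_of_lt_pi (hα0 j) (hαπ j)
      have hsβ : 0 < Real.sin β := Real.sin_pos_of_pos_of_lt_pi hβ0 (by linarith [hαπ j])
      have hsαβ : 0 < Real.sin (α j - β) :=
        Real.sin_pos_of_pos_of_lt_pi (by linarith) (by linarith [hαπ j])
      have hra := P.r_pos a
      have hrj := P.r_pos (b j)
      have hrj' := P.r_pos (b (j+1))
      have hr0 := P.r_pos (b 0)
      have hd0 : P.dir a (b 0) = Complex.exp (Complex.I * (β : ℂ)) * P.dir a (b j) := by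
        rw [hdir j, ← mul_assoc, ← Complex.exp_add]
        have : Complex.I * (β : ℂ) + Complex.I * (S j : ℂ) = 2 * Real.pi * Complex.I := by
          rw [hβ]; push_cast; ring
        rw [this, Complex.exp_two_pi_mul_I, one_mul]
      have hd1 : P.dir a (b (j+1)) = Complex.exp (Complex.I * (α j : ℂ)) * P.dir a (b j) :=
        dir_face (hface j)
      have hid : (Real.sin (α j) : ℂ) * Complex.exp (Complex.I * (β : ℂ)) =
          (Real.sin (α j - β) : ℂ) + (Real.sin β : ℂ) * Complex.exp (Complex.I * (α j : ℂ)) := by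
        rw [mul_comm Complex.I, mul_comm Complex.I, Complex.exp_mul_I, Complex.exp_mul_I,
          Real.sin_sub]
        push_cast
        ring
      set t : ℂ := P.c a + (P.r a : ℂ) * P.dir a (b 0) with ht
      have htb : t ∈ P.disc (b 0) := by
        rw [disc, mem_closedBall, dist_eq_norm, ht, c_eq_dir (P := P) (a := a) (b := b 0)]
        have : P.c a + (P.r a : ℂ) * P.dir a (b 0) -
            (P.c a + ((P.r a + P.r (b 0) : ℝ) : ℂ) * P.dir a (b 0)) =
            -((P.r (b 0) : ℂ) * P.dir a (b 0)) := by push_cast; ring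
        rw [this, norm_neg, norm_mul, hnorm 0, Complex.norm_real, Real.norm_of_nonneg hr0.le,
          mul_one]
      have hta : t ∈ P.disc a := by
        rw [disc, mem_closedBall, dist_eq_norm, ht, add_sub_cancel_left, norm_mul, hnorm 0,
          Complex.norm_real, Real.norm_of_nonneg hra.le, mul_one]
      have hmem : t ∈ P.tri a (b j) (b (j+1)) := by
        refine tri_of_sector hP (hface j)
          (l := P.r a * Real.sin (α j - β) / (Real.sin (α j) * (P.r a + P.r (b j))))
          (m := P.r a * Real.sin β / (Real.sin (α j) * (P.r a + P.r (b (j+1)))))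
          (by positivity) (by positivity) ?_ hta
        have e1 : P.c (b j) - P.c a = ((P.r a + P.r (b j) : ℝ) : ℂ) * P.dir a (b j) := by
          rw [c_eq_dir (P := P) (a := a) (b := b j)]; ring
        have e2 : P.c (b (j+1)) - P.c a =
            ((P.r a + P.r (b (j+1)) : ℝ) : ℂ) * P.dir a (b (j+1)) := by
          rw [c_eq_dir (P := P) (a := a) (b := b (j+1))]; ring
        rw [e1, e2, ht, hd1, hd0]
        have hs1 : (Real.sin (α j) : ℂ) ≠ 0 := by exact_mod_cast hsα.ne'
        have hs2 : ((P.r a + P.r (b j) : ℝ) : ℂ) ≠ 0 := by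
          exact_mod_cast (by positivity : P.r a + P.r (b j) ≠ 0)
        have hs3 : ((P.r a + P.r (b (j+1)) : ℝ) : ℂ) ≠ 0 := by
          exact_mod_cast (by positivity : P.r a + P.r (b (j+1)) ≠ 0)
        have e3 : Complex.exp (Complex.I * (β : ℂ)) = ((Real.sin (α j - β) : ℂ) +
            (Real.sin β : ℂ) * Complex.exp (Complex.I * (α j : ℂ))) / (Real.sin (α j) : ℂ) := by
          rw [← hid]; field_simp
        rw [e3, Complex.ofReal_div, Complex.ofReal_div, Complex.ofReal_mul, Complex.ofReal_mul,
          Complex.ofReal_mul, Complex.ofReal_mul]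
        field_simp
        ring
      rcases mem_face_of_meet hK hP (hface j) htb hmem with h | h | h
      · exact Tri.face_ne12 (hface 0) h.symm
      · exact hb0j h
      · exact hb0j' h
    · have h1 := hdir (j+1)
      rw [← heq] at h1
      have h2 : Complex.exp (Complex.I * ((2 * Real.pi : ℝ) : ℂ)) = 1 := by
        have : Complex.I * ((2 * Real.pi : ℝ) : ℂ) = 2 * Real.pi * Complex.I := by push_cast; ring
        rw [this, Complex.exp_two_pi_mul_I]
      rw [h2, one_mul] at h1
      have h3 := dir_dist_ge hP (Tri.adj12 (hface 0)) (Tri.adj12 (hface (j+1))) hb0j'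
      rw [h1, sub_self, norm_zero] at h3
      have h4 := mul_pos (P.r_pos (b 0)) (P.r_pos (b (j+1)))
      norm_num at h3
      linarith
  · have hjn' : j + 1 = n := by omega
    have h1 : S n < 3 * Real.pi := by
      rw [← hjn', hSs]; linarith [hαπ j]
    rw [hSn] at h1
    have h2 : (m : ℝ) < 2 := by
      by_contra hcon
      push Not at hcon
      nlinarith
    have h3 : m < 2 := by exact_mod_cast h2
    have h4 : m = 1 := by omega
    rw [h4] at hSn
    change S n = 2 * Real.pi
    rw [hSn]
    norm_num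

end Packing

end Pool.Agent.Helper11.Koebe
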