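import Pool.Agent.Helper11.Koebe.Far
import Pool.Agent.Helper11.Koebe.Meas

namespace Pool.Agent.Helper11.Koebe

open Metric Packing

open Classical in
/-- double sum over the link of an interior vertex -/
theorem link_sum {V : Type} {K : Tri V} {u : V} {F : Finset V}
    (hF : ∀ v, K.Adj u v → v ∈ F) {n : ℕ} (hn : 3 ≤ n) {b : ℕ → V}
    (hper : ∀ i, b (i + n) = b i) (hinj : Set.InjOn b (Set.Iio n))
    (hL : ∀ x y, K.face u x y ↔ ∃ i, b i = x ∧ b (i + 1) = y) (f : V → V → ℝ) :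
    ∑ x ∈ F, ∑ y ∈ F, (if K.face u x y then f x y else 0)
      = ∑ i ∈ Finset.range n, f (b i) (b (i + 1)) := by
  rw [← Finset.sum_product']
  rw [← Finset.sum_filter]
  symm
  refine Finset.sum_bij (fun i _ => (b i, b (i + 1))) ?_ ?_ ?_ ?_
  · intro i _
    have hf : K.face u (b i) (b (i + 1)) := (hL _ _).2 ⟨i, rfl, rfl⟩
    simp only [Finset.mem_filter, Finset.mem_product]
    exact ⟨⟨hF _ (Tri.adj12 hf), hF _ (Tri.adj13 hf)⟩, hf⟩
  · intro i hi j hj hij
    simp only [Prod.mk.injEq] at hij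
    exact hinj (Set.mem_Iio.2 (Finset.mem_range.1 hi)) (Set.mem_Iio.2 (Finset.mem_range.1 hj)) hij.1
  · rintro ⟨x, y⟩ hxy
    simp only [Finset.mem_filter, Finset.mem_product] at hxy
    obtain ⟨i, hi1, hi2⟩ := (hL _ _).1 hxy.2
    refine ⟨i % n, Finset.mem_range.2 (Nat.mod_lt _ (by omega)), ?_⟩
    have e1 : b (i % n) = b i := cycle_mod hper i
    have e2 : b (i % n + 1) = b (i + 1) := by
      rw [cycle_eq_iff hn hper hinj]
      simp [Nat.add_mod]
    rw [e1, e2, hi1, hi2]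
  · intro i _
    rfl

theorem sum_unique_le {V : Type} (F : Finset V) (p : V → Prop) [DecidablePred p] (g : V → ℝ)
    (hu : ∀ x y, p x → p y → x = y) {M : ℝ} (hM : 0 ≤ M) (hg : ∀ y, g y ≤ M) :
    ∑ y ∈ F, (if p y then g y else 0) ≤ M := by
  by_cases h : ∃ y ∈ F, p y
  · obtain ⟨y, hy, hp⟩ := h
    rw [Finset.sum_eq_single y]
    · simp [hp, hg y]
    · intro z _ hz
      have : ¬ p z := fun hpz => hz (hu _ _ hpz hp)
      simp [this]
    · intro hn
      exact absurd hy hn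
  · push Not at h
    rw [Finset.sum_eq_zero]
    · exact hM
    · intro y hy
      simp [h y hy]

theorem interp {κ p p' q q' t : ℝ} (hκ : 0 < κ) (hp : 0 < p) (hp' : 0 < p') (hq : 0 < q)
    (hq' : 0 < q') (h1 : κ * p ≤ p') (h2 : κ * q ≤ q') (ht0 : 0 ≤ t) (ht1 : t ≤ 1) :
    κ * Real.exp (Real.log q + t * Real.log (p / q))
      ≤ Real.exp (Real.log q' + t * Real.log (p' / q')) := by
  have e1 : Real.log κ + Real.log p ≤ Real.log p' := by
    rw [← Real.log_mul hκ.ne' hp.ne']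
    exact Real.log_le_log (by positivity) h1
  have e2 : Real.log κ + Real.log q ≤ Real.log q' := by
    rw [← Real.log_mul hκ.ne' hq.ne']
    exact Real.log_le_log (by positivity) h2
  rw [Real.log_div hp.ne' hq.ne', Real.log_div hp'.ne' hq'.ne']
  have hk : κ = Real.exp (Real.log κ) := (Real.exp_log hκ).symm
  rw [hk, ← Real.exp_add]
  apply Real.exp_le_exp.2
  nlinarith [mul_le_mul_of_nonneg_left e1 ht0,
    mul_le_mul_of_nonneg_left e2 (sub_nonneg.2 ht1)]

/-- TARGET: summation by parts for the angle sums of two packings -/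
theorem summation {V : Type} {K : Tri V} (hK : K.Connected) (P Q : Packing K)
    (hP : P.Univalent) (hQ : Q.Univalent) {κ : ℝ} (hκ0 : 0 < κ) (hκ1 : κ ≤ 1)
    (hrP : ∀ a, K.Interior a → ∀ b, K.Adj a b → κ * P.r a ≤ P.r b)
    (hrQ : ∀ a, K.Interior a → ∀ b, K.Adj a b → κ * Q.r a ≤ Q.r b)
    (S F : Finset V) (hSF : S ⊆ F)
    (hS : ∀ u ∈ S, K.Interior u ∧ ∀ v, K.Adj u v → K.Interior v ∧ v ∈ F)
    (φ : V → ℝ) (hφ : ∀ v, v ∉ S → φ v = 0) :
    ∃ c : V → V → ℝ, (∀ u v, c u v = c v u) ∧ (∀ u v, 0 ≤ c u v) ∧ (∀ u v, c u v ≤ 1) ∧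
      (∀ u ∈ S, ∀ v, K.Adj u v → κ ^ 2 / 4 ≤ c u v) ∧ (∀ u v, ¬ K.Adj u v → c u v = 0) ∧
      ∑ u ∈ F, ∑ v ∈ F, c u v * (φ v - φ u) *
        (Real.log (P.r v / Q.r v) - Real.log (P.r u / Q.r u)) = 0 := by
  classical
  set h : V → ℝ := fun v => Real.log (P.r v / Q.r v) with hh
  set R : ℝ → V → ℝ := fun t v => Real.exp (Real.log (Q.r v) + t * h v) with hR
  have hRpos : ∀ t v, 0 < R t v := fun t v => Real.exp_pos _
  have hR0 : ∀ v, R 0 v = Q.r v := by
    intro v
    simp only [hR, zero_mul, add_zero]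
    exact Real.exp_log (Q.r_pos v)
  have hR1 : ∀ v, R 1 v = P.r v := by
    intro v
    simp only [hR, hh, one_mul]
    rw [Real.log_div (P.r_pos v).ne' (Q.r_pos v).ne', add_sub_cancel]
    exact Real.exp_log (P.r_pos v)
  -- the angle sums
  have hsum : ∀ (A : Packing K), A.Univalent → ∀ u ∈ S,
      ∑ x ∈ F, ∑ y ∈ F, (if K.face u x y then ang (A.r u) (A.r x) (A.r y) else 0)
        = 2 * Real.pi := by
    intro A hA u hu
    obtain ⟨hI, hN⟩ := hS u hu
    obtain ⟨n, hn, b, hper, hinj, hL⟩ := hI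
    rw [link_sum (fun v hv => (hN v hv).2) hn hper hinj hL (fun x y => ang (A.r u) (A.r x) (A.r y))]
    exact Packing.angle_sum hK hA hn hper hinj hL
  set Φ : ℝ → ℝ := fun t => ∑ u ∈ S, φ u * ∑ x ∈ F, ∑ y ∈ F,
    (if K.face u x y then ang (R t u) (R t x) (R t y) else 0) with hΦ
  set Φ' : ℝ → ℝ := fun t => ∑ u ∈ S, φ u * ∑ x ∈ F, ∑ y ∈ F,
    (if K.face u x y then bb (R t u) (R t x) (R t y) * (h x - h u)
      + bb (R t u) (R t y) (R t x) * (h y - h u) else 0) with hΦ'
  have hder : ∀ t, HasDerivAt Φ (Φ' t) t := by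
    intro t
    refine HasDerivAt.fun_sum fun u _ => ?_
    refine HasDerivAt.const_mul _ ?_
    refine HasDerivAt.fun_sum fun x _ => ?_
    refine HasDerivAt.fun_sum fun y _ => ?_
    by_cases hf : K.face u x y
    · simp only [hf, if_true]
      exact ang_deriv _ _ _ _ _ _ t
    · simp only [hf, if_false]
      exact hasDerivAt_const t (0 : ℝ)
  have hends : Φ 0 = Φ 1 := by
    simp only [hΦ]
    refine Finset.sum_congr rfl fun u hu => ?_
    congr 1
    simp only [hR0, hR1]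
    rw [hsum Q hQ u hu, hsum P hP u hu]
  obtain ⟨t, ht, hzero⟩ := exists_hasDerivAt_eq_zero (f := Φ) (f' := Φ') (a := 0) (b := 1)
    zero_lt_one (fun s _ => (hder s).continuousAt.continuousWithinAt) hends (fun s _ => hder s)
  set c1 : V → V → ℝ := fun u v => ∑ y ∈ F, (if K.face u v y then bb (R t u) (R t v) (R t y) else 0)
    with hc1
  set c2 : V → V → ℝ := fun u v => ∑ y ∈ F, (if K.face v u y then bb (R t u) (R t v) (R t y) else 0)
    with hc2
  have hc12 : ∀ u v, c1 u v = c2 v u := by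
    intro u v
    simp only [hc1, hc2]
    refine Finset.sum_congr rfl fun y _ => ?_
    rw [bb_symm]
  have hc1n : ∀ u v, 0 ≤ c1 u v := by
    intro u v
    refine Finset.sum_nonneg fun y _ => ?_
    split_ifs
    · exact bb_nonneg (hRpos _ _) (hRpos _ _) (hRpos _ _)
    · exact le_refl _
  have hc1le : ∀ u v, c1 u v ≤ 1 / 2 := by
    intro u v
    exact sum_unique_le F (fun y => K.face u v y) (fun y => bb (R t u) (R t v) (R t y))
      (fun x y hx hy => Tri.succ_unique hx hy) (by norm_num)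
      (fun y => bb_le (hRpos _ _) (hRpos _ _) (hRpos _ _))
  have hc1z : ∀ u v, ¬ K.Adj u v → c1 u v = 0 := by
    intro u v huv
    refine Finset.sum_eq_zero fun y _ => ?_
    rw [if_neg]
    intro hf
    exact huv (Tri.adj12 hf)
  have hc2n : ∀ u v, 0 ≤ c2 u v := fun u v => by rw [← hc12]; exact hc1n v u
  have hc2le : ∀ u v, c2 u v ≤ 1 / 2 := fun u v => by rw [← hc12]; exact hc1le v u
  have hc2z : ∀ u v, ¬ K.Adj u v → c2 u v = 0 := fun u v huv => by
    rw [← hc12]
    exact hc1z v u (fun h' => huv (Tri.adj_symm h'))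
  have hsymm : ∀ u v, c1 u v + c2 u v = c1 v u + c2 v u := by
    intro u v
    rw [hc12 u v, hc12 v u, add_comm]
  have hcomp : ∀ a, K.Interior a → ∀ b, K.Adj a b → κ * R t a ≤ R t b := by
    intro a ha b hab
    exact interp hκ0 (P.r_pos a) (P.r_pos b) (Q.r_pos a) (Q.r_pos b) (hrP a ha b hab)
      (hrQ a ha b hab) ht.1.le ht.2.le
  have hlow : ∀ u ∈ S, ∀ v, K.Adj u v → κ ^ 2 / 4 ≤ c1 u v + c2 u v := by
    intro u hu v huv
    obtain ⟨hI, hN⟩ := hS u hu
    have hy : ∃ y, K.face u v y := by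
      obtain ⟨n, hn, b, hper, hinj, hL⟩ := hI
      obtain ⟨y, hy | hy⟩ := Tri.adj_iff.1 huv
      · exact ⟨y, hy⟩
      · obtain ⟨i, _, hi2⟩ := (hL _ _).1 hy
        exact ⟨b (i + 1 + 1), (hL _ _).2 ⟨i + 1, hi2, rfl⟩⟩
    obtain ⟨y, hy⟩ := hy
    have hyF : y ∈ F := (hN y (Tri.adj13 hy)).2
    have hI' : K.Interior v := (hN v huv).1
    have hb : κ ^ 2 / 4 ≤ bb (R t u) (R t v) (R t y) :=
      bb_ge hκ0 hκ1 (hRpos _ _) (hRpos _ _) (hRpos _ _) (hcomp u hI v huv)
        (hcomp u hI y (Tri.adj13 hy)) (hcomp v hI' u (Tri.adj_symm huv))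
    have hc : bb (R t u) (R t v) (R t y) ≤ c1 u v := by
      have := Finset.single_le_sum (f := fun y => if K.face u v y then
        bb (R t u) (R t v) (R t y) else 0) (fun z _ => by
          show 0 ≤ (if K.face u v z then bb (R t u) (R t v) (R t z) else 0)
          split_ifs
          · exact bb_nonneg (hRpos _ _) (hRpos _ _) (hRpos _ _)
          · exact le_refl _) hyF
      simpa [hy] using this
    linarith [hc2n u v]
  -- the derivative identity
  have hident : ∀ u, ∑ x ∈ F, ∑ y ∈ F,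
      (if K.face u x y then bb (R t u) (R t x) (R t y) * (h x - h u)
        + bb (R t u) (R t y) (R t x) * (h y - h u) else 0)
      = ∑ v ∈ F, (c1 u v + c2 u v) * (h v - h u) := by
    intro u
    have e1 : ∑ x ∈ F, ∑ y ∈ F,
      (if K.face u x y then bb (R t u) (R t x) (R t y) * (h x - h u)
        + bb (R t u) (R t y) (R t x) * (h y - h u) else 0)
      = ∑ x ∈ F, ∑ y ∈ F, (if K.face u x y then bb (R t u) (R t x) (R t y) * (h x - h u) else 0)
        + ∑ x ∈ F, ∑ y ∈ F, (if K.face u x y then bb (R t u) (R t y) (R t x) * (h y - h u)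
            else 0) := by
      rw [← Finset.sum_add_distrib]
      refine Finset.sum_congr rfl fun x _ => ?_
      rw [← Finset.sum_add_distrib]
      refine Finset.sum_congr rfl fun y _ => ?_
      split_ifs <;> simp
    rw [e1]
    rw [Finset.sum_comm (s := F) (t := F) (f := fun x y =>
      (if K.face u x y then bb (R t u) (R t y) (R t x) * (h y - h u) else 0))]
    rw [← Finset.sum_add_distrib]
    refine Finset.sum_congr rfl fun v _ => ?_
    rw [add_mul]
    congr 1
    · simp only [hc1]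
      rw [Finset.sum_mul]
      refine Finset.sum_congr rfl fun y _ => ?_
      split_ifs <;> simp
    · simp only [hc2]
      rw [Finset.sum_mul]
      refine Finset.sum_congr rfl fun y _ => ?_
      have hiff : K.face u y v ↔ K.face v u y :=
        ⟨fun hf => K.rot _ _ _ (K.rot _ _ _ hf), fun hf => K.rot _ _ _ hf⟩
      by_cases hf : K.face v u y
      · rw [if_pos (hiff.2 hf), if_pos hf]
      · rw [if_neg (fun h' => hf (hiff.1 h')), if_neg hf, zero_mul]
  have hA : ∑ u ∈ F, φ u * ∑ v ∈ F, (c1 u v + c2 u v) * (h v - h u) = 0 := by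
    rw [← Finset.sum_subset hSF]
    · have := hzero
      simp only [hΦ'] at this
      rw [← this]
      refine Finset.sum_congr rfl fun u _ => ?_
      rw [hident u]
    · intro u _ hu
      rw [hφ u hu, zero_mul]
  refine ⟨fun u v => c1 u v + c2 u v, hsymm, fun u v => add_nonneg (hc1n u v) (hc2n u v),
    fun u v => by linarith [hc1le u v, hc2le u v], hlow,
    fun u v huv => by simp [hc1z u v huv, hc2z u v huv], ?_⟩
  have hB : ∑ u ∈ F, ∑ v ∈ F, (c1 u v + c2 u v) * φ v * (h v - h u) =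
      - ∑ u ∈ F, φ u * ∑ v ∈ F, (c1 u v + c2 u v) * (h v - h u) := by
    rw [Finset.sum_comm, ← Finset.sum_neg_distrib]
    refine Finset.sum_congr rfl fun u _ => ?_
    rw [Finset.mul_sum, ← Finset.sum_neg_distrib]
    refine Finset.sum_congr rfl fun v _ => ?_
    rw [hsymm v u]
    ring
  have hC : ∑ u ∈ F, ∑ v ∈ F, (c1 u v + c2 u v) * (φ v - φ u) * (h v - h u)
      = ∑ u ∈ F, ∑ v ∈ F, (c1 u v + c2 u v) * φ v * (h v - h u)
        - ∑ u ∈ F, φ u * ∑ v ∈ F, (c1 u v + c2 u v) * (h v - h u) := by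
    rw [← Finset.sum_sub_distrib]
    refine Finset.sum_congr rfl fun u _ => ?_
    rw [Finset.mul_sum, ← Finset.sum_sub_distrib]
    refine Finset.sum_congr rfl fun v _ => ?_
    ring
  show ∑ u ∈ F, ∑ v ∈ F, (c1 u v + c2 u v) * (φ v - φ u) * (h v - h u) = 0
  rw [hC, hB, hA]
  simp

end Pool.Agent.Helper11.Koebe
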